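import Pool.Agent.Helper83.OZ.Geo

/-!
Project OZ (MP_7e0861_pr), line L3, block OZ-L3-14: normalisation of a renewal equation in the cone (pure analysis).

Proof in words.  Put `W(s) = ∑_x U x e^{s x.1}`, `F(s) = ∑_x f x e^{s x.1}` (sums over `ℤ × ℤ`, all terms nonnegative, supported in
the cone, where a column `x.1 = l` has `16 l + 1` points).
1. For `s < τ`: `W(s) < ∞` by `hUle`; summing the renewal equation (Cauchy product) `W(s) = 1 + F(s) W(s)`, so
   `F(s) < 1` (`W(s) ≥ U 0 = 1`).  It is enough to know: for finite partial sums `∑_{x ∈ T} f x e^{s x.1} ≤ 1`.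
2. Hence `F(τ) ≤ 1` (each finite partial sum is continuous in `s`), in particular `f x e^{τ x.1}` is summable.
3. If `F(τ) < 1`: by `hf` the function `F` is finite and continuous on `[τ, τ + c/2]` (dominated by
   `C e^{-c x.1 / 2}`, summable over the cone), so `F(τ + η) ≤ θ < 1` for some `η > 0`.  Then
   `U x e^{(τ+η) x.1} ≤ 1 / (1 - θ)` for all `x`: by strong induction on the column, with
   `u x = U x e^{(τ+η) x.1}`: `u 0 = 1`, `u x = ∑_m f m e^{(τ+η) m.1} u (x - m) ≤ θ * max` (for `x ≠ 0` with `Y x` all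
   `m ∈ (dia 0 x).erase 0` have `m.1 ≥ 1`, so `(x - m).1 < x.1`); in fact `u x ≤ 1` for all `x`.  This contradicts `hlow`.
-/

namespace Pool.Helper95.OZ

open Pool.Helper83.OZ Finset
open Pool.Helper17.OZ (Y)

private theorem expAbs_summable_h54 {b : ℝ} (hb : 0 < b) : Summable fun n : ℤ => Real.exp (-b * |(n : ℝ)|) := by
  have h1 : Summable fun n : ℕ => Real.exp (-b * (n : ℝ)) := by
    have h := summable_geometric_of_lt_one (Real.exp_pos (-b)).le (Real.exp_lt_one_iff.2 (neg_lt_zero.2 hb))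
    refine h.congr fun n => ?_
    rw [← Real.exp_nat_mul]
    congr 1
    ring
  refine Summable.of_nat_of_neg ?_ ?_
  · refine h1.congr fun n => ?_
    simp
  · refine h1.congr fun n => ?_
    simp

open Classical in
private theorem cone_summable_h54 {a : ℝ} (ha : 0 < a) :
    Summable fun x : ℤ × ℤ => if Y x then Real.exp (-a * x.1) else 0 := by
  have h := (expAbs_summable_h54 (half_pos ha)).mul_of_nonneg
    (expAbs_summable_h54 (b := a / 16) (by positivity)) (fun n => (Real.exp_pos _).le)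
    (fun n => (Real.exp_pos _).le)
  refine Summable.of_nonneg_of_le (fun x => ?_) (fun x => ?_) h
  · split_ifs
    · exact (Real.exp_pos _).le
    · exact le_rfl
  · by_cases hx : Y x
    · rw [if_pos hx, ← Real.exp_add]
      apply Real.exp_le_exp.2
      have h1 : (0 : ℝ) ≤ (x.1 : ℝ) := by exact_mod_cast Y_nonneg hx
      have h2 : |(x.2 : ℝ)| ≤ 8 * (x.1 : ℝ) := by
        have : |x.2| ≤ 8 * x.1 := hx
        exact_mod_cast this
      rw [abs_of_nonneg h1]
      nlinarith
    · rw [if_neg hx]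
      positivity

open Classical in
private theorem conv_h54 {U f : ℤ × ℤ → ℝ} (hU0 : U 0 = 1) (hUn : ∀ x, 0 ≤ U x) (hfn : ∀ x, 0 ≤ f x)
    (hUs : ∀ x, ¬ Y x → U x = 0) (hfs : ∀ x, ¬ Y x → f x = 0) (hf0 : f 0 = 0)
    (hrec : ∀ x, x ≠ 0 → U x = ∑ m ∈ (dia 0 x).erase 0, f m * U (x - m)) (T : Finset (ℤ × ℤ)) (x : ℤ × ℤ) :
    ∑ m ∈ T, f m * U (x - m) ≤ U x - if x = 0 then 1 else 0 := by
  by_cases hx : x = 0
  · rw [if_pos hx, hx, hU0, sub_self]
    refine le_of_eq (Finset.sum_eq_zero fun m _ => ?_)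
    by_cases hm : Y m
    · by_cases hm' : Y (0 - m)
      · have : (0 : ℤ × ℤ) = m := Y_antisymm (x := 0) (y := m) (by rwa [sub_zero]) hm'
        rw [← this, hf0, zero_mul]
      · rw [hUs _ hm', mul_zero]
    · rw [hfs _ hm, zero_mul]
  · rw [if_neg hx, sub_zero, hrec x hx]
    have h1 : ∑ m ∈ T, f m * U (x - m) = ∑ m ∈ T ∩ (dia 0 x).erase 0, f m * U (x - m) := by
      symm
      refine Finset.sum_subset Finset.inter_subset_left fun m hm hm' => ?_
      by_contra hne
      apply hm'
      have hfm : f m ≠ 0 := left_ne_zero_of_mul hne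
      have hUm : U (x - m) ≠ 0 := right_ne_zero_of_mul hne
      have y1 : Y m := by
        by_contra h
        exact hfm (hfs m h)
      have y2 : Y (x - m) := by
        by_contra h
        exact hUm (hUs _ h)
      have hm0 : m ≠ 0 := by
        intro h
        rw [h] at hfm
        exact hfm hf0
      refine Finset.mem_inter.2 ⟨hm, Finset.mem_erase.2 ⟨hm0, ?_⟩⟩
      unfold dia
      refine Finset.mem_filter.2 ⟨?_, by rwa [sub_zero], y2⟩
      unfold Y at y1 y2
      simp only [Prod.fst_sub, Prod.snd_sub] at y2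
      rw [abs_le] at y1 y2
      have z1 : (0 : ℤ × ℤ).1 = 0 := rfl
      have z2 : (0 : ℤ × ℤ).2 = 0 := rfl
      refine Finset.mem_product.2 ⟨Finset.mem_Icc.2 ⟨?_, ?_⟩, Finset.mem_Icc.2 ⟨?_, ?_⟩⟩ <;>
        (try rw [z1]) <;> (try rw [z2]) <;> omega
    rw [h1]
    exact Finset.sum_le_sum_of_subset_of_nonneg Finset.inter_subset_right
      fun m _ _ => mul_nonneg (hfn m) (hUn _)

open Classical in
theorem abs_nor {τ C c : ℝ} {U f : ℤ × ℤ → ℝ} (hU0 : U 0 = 1) (hUn : ∀ x, 0 ≤ U x) (hfn : ∀ x, 0 ≤ f x)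
    (hUs : ∀ x, ¬ Y x → U x = 0) (hfs : ∀ x, ¬ Y x → f x = 0) (hf0 : f 0 = 0)
    (hrec : ∀ x, x ≠ 0 → U x = ∑ m ∈ (dia 0 x).erase 0, f m * U (x - m))
    (hUle : ∀ x, U x ≤ Real.exp (-τ * x.1)) (hc : 0 < c) (hf : ∀ x, f x ≤ C * Real.exp (-(τ + c) * x.1))
    (hlow : ∀ η : ℝ, 0 < η → ¬ ∀ x, U x ≤ 1 * Real.exp (-(τ + η) * x.1)) :
    HasSum (fun x : ℤ × ℤ => f x * Real.exp (τ * x.1)) 1 := by
  -- step 1
  have step1 : ∀ s : ℝ, s < τ → ∀ T : Finset (ℤ × ℤ), ∑ x ∈ T, f x * Real.exp (s * x.1) ≤ 1 := by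
    intro s hs T
    set u : ℤ × ℤ → ℝ := fun x => U x * Real.exp (s * x.1) with hu
    have hun : ∀ x, 0 ≤ u x := fun x => mul_nonneg (hUn x) (Real.exp_pos _).le
    have hus : Summable u := by
      refine Summable.of_nonneg_of_le hun (fun x => ?_) (cone_summable_h54 (sub_pos.2 hs))
      by_cases hx : Y x
      · rw [if_pos hx]
        calc U x * Real.exp (s * x.1) ≤ Real.exp (-τ * x.1) * Real.exp (s * x.1) :=
              mul_le_mul_of_nonneg_right (hUle x) (Real.exp_pos _).le
          _ = Real.exp (-(τ - s) * x.1) := by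
              rw [← Real.exp_add]
              congr 1
              ring
      · rw [if_neg hx]
        simp [hu, hUs x hx]
    have hkey : ∀ x, ∑ m ∈ T, (f m * Real.exp (s * m.1)) * u (x - m) ≤ u x - if x = 0 then 1 else 0 := by
      intro x
      have h := conv_h54 hU0 hUn hfn hUs hfs hf0 hrec T x
      have h2 : ∑ m ∈ T, (f m * Real.exp (s * m.1)) * u (x - m)
          = (∑ m ∈ T, f m * U (x - m)) * Real.exp (s * x.1) := by
        rw [Finset.sum_mul]
        refine Finset.sum_congr rfl fun m _ => ?_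
        have : Real.exp (s * x.1) = Real.exp (s * m.1) * Real.exp (s * ((x - m).1 : ℤ)) := by
          rw [← Real.exp_add]
          congr 1
          push_cast [Prod.fst_sub]
          ring
        rw [this]
        simp only [hu]
        ring
      rw [h2]
      calc (∑ m ∈ T, f m * U (x - m)) * Real.exp (s * x.1)
          ≤ (U x - if x = 0 then 1 else 0) * Real.exp (s * x.1) :=
            mul_le_mul_of_nonneg_right h (Real.exp_pos _).le
        _ = u x - if x = 0 then 1 else 0 := by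
            by_cases hx : x = 0
            · simp [hu, hx]
            · simp [hu, hx]
    have hsh : ∀ m : ℤ × ℤ, HasSum (fun x => u (x - m)) (∑' x, u x) := by
      intro m
      have := (Equiv.subRight m).hasSum_iff (f := u) (a := ∑' x, u x)
      exact this.2 hus.hasSum
    have hL : HasSum (fun x => ∑ m ∈ T, (f m * Real.exp (s * m.1)) * u (x - m))
        (∑ m ∈ T, (f m * Real.exp (s * m.1)) * ∑' x, u x) :=
      hasSum_sum fun m _ => (hsh m).mul_left _
    have hR : HasSum (fun x => u x - if x = 0 then (1 : ℝ) else 0) ((∑' x, u x) - 1) :=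
      hus.hasSum.sub (hasSum_ite_eq 0 1)
    have hle := hasSum_le hkey hL hR
    rw [← Finset.sum_mul] at hle
    have hW : 1 ≤ ∑' x, u x := by
      have := hus.le_tsum 0 fun x _ => hun x
      simpa [hu, hU0] using this
    by_contra hcon
    push Not at hcon
    nlinarith
  -- step 2
  have step2 : ∀ T : Finset (ℤ × ℤ), ∑ x ∈ T, f x * Real.exp (τ * x.1) ≤ 1 := by
    intro T
    have hcont : Continuous fun s : ℝ => ∑ x ∈ T, f x * Real.exp (s * x.1) := by fun_prop
    have ht : Filter.Tendsto (fun s : ℝ => ∑ x ∈ T, f x * Real.exp (s * x.1)) (nhdsWithin τ (Set.Iio τ))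
        (nhds (∑ x ∈ T, f x * Real.exp (τ * x.1))) := (hcont.tendsto τ).mono_left nhdsWithin_le_nhds
    refine le_of_tendsto ht ?_
    filter_upwards [self_mem_nhdsWithin] with s hs
    exact step1 s hs T
  have hFn : ∀ x : ℤ × ℤ, 0 ≤ f x * Real.exp (τ * x.1) := fun x => mul_nonneg (hfn x) (Real.exp_pos _).le
  have hFs : Summable fun x : ℤ × ℤ => f x * Real.exp (τ * x.1) := summable_of_sum_le hFn step2
  have hF1 : ∑' x : ℤ × ℤ, f x * Real.exp (τ * x.1) ≤ 1 := hFs.tsum_le_of_sum_le step2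
  rcases hF1.lt_or_eq with hlt | heq
  swap
  · rw [← heq]
    exact hFs.hasSum
  -- step 3
  exfalso
  have hC : 0 ≤ C := by
    have := hf 0
    rw [hf0] at this
    simpa using this
  have hbs : Summable fun x : ℤ × ℤ => C * (if Y x then Real.exp (-(c / 2) * x.1) else 0) :=
    (cone_summable_h54 (half_pos hc)).mul_left C
  have hbd : ∀ η : ℝ, η < c / 2 → ∀ x : ℤ × ℤ, f x * Real.exp ((τ + η) * x.1)
      ≤ C * (if Y x then Real.exp (-(c / 2) * x.1) else 0) := by
    intro η hη x
    by_cases hx : Y x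
    · rw [if_pos hx]
      have hx1 : (0 : ℝ) ≤ (x.1 : ℝ) := by exact_mod_cast Y_nonneg hx
      calc f x * Real.exp ((τ + η) * x.1)
          ≤ (C * Real.exp (-(τ + c) * x.1)) * Real.exp ((τ + η) * x.1) :=
            mul_le_mul_of_nonneg_right (hf x) (Real.exp_pos _).le
        _ = C * Real.exp (-(c - η) * x.1) := by
            rw [mul_assoc, ← Real.exp_add]
            congr 2
            ring
        _ ≤ C * Real.exp (-(c / 2) * x.1) := by
            refine mul_le_mul_of_nonneg_left (Real.exp_le_exp.2 ?_) hC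
            nlinarith
    · rw [if_neg hx, hfs x hx]
      simp
  have hten : Filter.Tendsto (fun η : ℝ => ∑' x : ℤ × ℤ, f x * Real.exp ((τ + η) * x.1)) (nhds 0)
      (nhds (∑' x : ℤ × ℤ, f x * Real.exp (τ * x.1))) := by
    refine tendsto_tsum_of_dominated_convergence hbs (fun x => ?_) ?_
    · have : Continuous fun η : ℝ => f x * Real.exp ((τ + η) * x.1) := by fun_prop
      have h := this.tendsto 0
      simpa using h
    · filter_upwards [Iio_mem_nhds (half_pos hc)] with η hη x
      rw [Real.norm_of_nonneg (mul_nonneg (hfn x) (Real.exp_pos _).le)]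
      exact hbd η hη x
  have hev : ∀ᶠ η in nhds (0 : ℝ), ∑' x : ℤ × ℤ, f x * Real.exp ((τ + η) * x.1) < 1 :=
    hten.eventually (gt_mem_nhds hlt)
  have hev2 : ∀ᶠ η in nhds (0 : ℝ), η < c / 2 := Iio_mem_nhds (half_pos hc)
  obtain ⟨η, ⟨hη1, hη2⟩, hη0⟩ :=
    (((hev.and hev2).filter_mono nhdsWithin_le_nhds).and
      (self_mem_nhdsWithin : ∀ᶠ η in nhdsWithin (0 : ℝ) (Set.Ioi 0), η ∈ Set.Ioi (0 : ℝ))).exists
  have hη0' : 0 < η := hη0
  refine hlow η hη0' ?_
  have hgs : Summable fun x : ℤ × ℤ => f x * Real.exp ((τ + η) * x.1) :=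
    Summable.of_nonneg_of_le (fun x => mul_nonneg (hfn x) (Real.exp_pos _).le) (hbd η hη2) hbs
  have hfin : ∀ T : Finset (ℤ × ℤ), ∑ x ∈ T, f x * Real.exp ((τ + η) * x.1) ≤ 1 := fun T =>
    (hgs.sum_le_tsum T fun x _ => mul_nonneg (hfn x) (Real.exp_pos _).le).trans hη1.le
  -- step 4
  have step4 : ∀ n : ℕ, ∀ x : ℤ × ℤ, Y x → x.1 < n → U x * Real.exp ((τ + η) * x.1) ≤ 1 := by
    intro n
    induction n with
    | zero =>
      intro x hx h
      have := Y_nonneg hx
      simp at h
      omega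
    | succ n ih =>
      intro x hx h
      by_cases hx0 : x = 0
      · simp [hx0, hU0]
      · rw [hrec x hx0, Finset.sum_mul]
        refine le_trans (Finset.sum_le_sum fun m hm => ?_) (hfin ((dia 0 x).erase 0))
        obtain ⟨hm0, hm1⟩ := Finset.mem_erase.1 hm
        have hm2 := (Finset.mem_filter.1 hm1).2
        have hlt1 : (0 : ℤ × ℤ).1 < m.1 := Y_lt hm2.1 (Ne.symm hm0)
        have hlt2 : (x - m).1 < n := by
          simp only [Prod.fst_sub, Prod.fst_zero] at hlt1 ⊢
          push_cast at h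
          omega
        have h3 := ih (x - m) hm2.2 hlt2
        have h4 : Real.exp ((τ + η) * x.1) = Real.exp ((τ + η) * m.1) * Real.exp ((τ + η) * ((x - m).1 : ℤ)) := by
          rw [← Real.exp_add]
          congr 1
          push_cast [Prod.fst_sub]
          ring
        calc f m * U (x - m) * Real.exp ((τ + η) * x.1)
            = (f m * Real.exp ((τ + η) * m.1)) * (U (x - m) * Real.exp ((τ + η) * ((x - m).1 : ℤ))) := by
              rw [h4]
              ring
          _ ≤ (f m * Real.exp ((τ + η) * m.1)) * 1 :=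
              mul_le_mul_of_nonneg_left h3 (mul_nonneg (hfn m) (Real.exp_pos _).le)
          _ = f m * Real.exp ((τ + η) * m.1) := mul_one _
  intro x
  rw [one_mul]
  by_cases hx : Y x
  · have h5 : U x * Real.exp ((τ + η) * x.1) ≤ 1 := by
      refine step4 (x.1.toNat + 1) x hx ?_
      push_cast
      have := Int.self_le_toNat x.1
      omega
    have h6 : Real.exp (-(τ + η) * x.1) * Real.exp ((τ + η) * x.1) = 1 := by
      rw [← Real.exp_add, show -(τ + η) * (x.1 : ℝ) + (τ + η) * (x.1 : ℝ) = 0 by ring, Real.exp_zero]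
    have h7 := Real.exp_pos ((τ + η) * (x.1 : ℝ))
    rw [← h6] at h5
    exact le_of_mul_le_mul_right h5 h7
  · rw [hUs x hx]
    exact (Real.exp_pos _).le

end Pool.Helper95.OZ
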