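import Pool.Agent.Helper95.OZ.Def
import Pool.Agent.Helper83.OZ.Xt

/-!
Project OZ (MP_7e0861_pr), line L3, block OZ-L3-9: the two point bound for sums of infinite volume weights.

Proof in words.  `sum_WI_le`: choose `N` with all vertices of all graphs of `T` in `box N`; then `T ⊆ Cl (box N) a b`,
`WI q ρ γ ≤ WD q (hom ρ) (box N) γ` (`PsiI_le`, `bg_nonneg`), and `∑_{Cl} WD = G q (hom ρ) (box N) a b ≤ GI q ρ a b`
(`G_sum` in Helper83/OZ/Sum, `G_le_GI` in Helper49/FK/Inf).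
`sum_WI_le_tau`: the same with `Pool.Helper83.OZ.G_le_tau` instead of `G_le_GI`.
`UI_le`: for `x ≠ 0` all graphs of `Dm 0 x` have an edge if `0 < x.1` (for `x ≠ 0` with `Y x`, `0 < x.1` by `Y_lt`; if `¬ Y x`
then `Dm 0 x = ∅`), so `W1 = WI` or the graph is a single vertex, impossible; `UI 0 = 1` (only the graph `({0}, ∅)`).
-/

namespace Pool.Helper95.OZ

open Pool.Helper49.FK Pool.Helper83.OZ Finset
open Pool.Helper17.OZ (Y CP Dbl NoCP nd rect tau)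

variable {q ρ : ℝ}

private theorem subset_box9 (D : Finset (ℤ × ℤ)) : ∃ N : ℕ, D ⊆ Pool.Helper49.FK.box N := by
  classical
  refine ⟨∑ p ∈ D, (p.1.natAbs + p.2.natAbs), fun p hp => ?_⟩
  have h := Finset.single_le_sum (f := fun p : ℤ × ℤ => p.1.natAbs + p.2.natAbs)
    (fun _ _ => Nat.zero_le _) hp
  unfold Pool.Helper49.FK.box
  rw [Finset.mem_product, Finset.mem_Icc, Finset.mem_Icc]
  obtain ⟨M, hM⟩ : ∃ M, M = ∑ p ∈ D, (p.1.natAbs + p.2.natAbs) := ⟨_, rfl⟩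
  rw [← hM] at h ⊢
  refine ⟨⟨?_, ?_⟩, ?_, ?_⟩ <;> omega

private theorem WI_le_WD9 (hq : 1 ≤ q) (hρ : 0 < ρ) (D : Finset (ℤ × ℤ)) (γ : Gr) :
    WI q ρ γ ≤ WD q (hom ρ) D γ := by
  unfold WI WD
  exact mul_le_mul_of_nonneg_left (PsiI_le hq hρ.le D γ.1) (bg_nonneg (by linarith) (fun _ => hρ.le) γ)

private theorem WI_nonneg9 (hq : 1 ≤ q) (hρ : 0 < ρ) (γ : Gr) : 0 ≤ WI q ρ γ := by
  unfold WI
  exact mul_nonneg (bg_nonneg (by linarith) (fun _ => hρ.le) γ) (PsiI_pos hq hρ.le γ.1).le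

private theorem sum_WI_G9 (hq : 1 ≤ q) (hρ : 0 < ρ) {a b : ℤ × ℤ} (T : Finset Gr)
    (hT : ∀ γ ∈ T, IsClu γ.1 γ.2 ∧ a ∈ γ.1 ∧ b ∈ γ.1) :
    ∃ N : ℕ, ∑ γ ∈ T, WI q ρ γ ≤ G q (hom ρ) (Pool.Helper49.FK.box N) a b := by
  classical
  obtain ⟨N, hN⟩ := subset_box9 (insert a (insert b (T.biUnion fun γ => γ.1)))
  refine ⟨N, ?_⟩
  have ha : a ∈ Pool.Helper49.FK.box N := hN (Finset.mem_insert_self _ _)
  rw [G_sum (r := hom ρ) (by linarith) (fun _ => hρ.le) ha]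
  refine le_trans (Finset.sum_le_sum fun γ _ => WI_le_WD9 hq hρ (Pool.Helper49.FK.box N) γ) ?_
  refine Finset.sum_le_sum_of_subset_of_nonneg ?_ fun γ _ _ => WD_nonneg (by linarith) (fun _ => hρ.le) γ
  intro γ hγ
  refine mem_Cl.2 ⟨fun y hy => ?_, hT γ hγ⟩
  exact hN (Finset.mem_insert_of_mem (Finset.mem_insert_of_mem (Finset.mem_biUnion.2 ⟨γ, hγ, hy⟩)))

theorem sum_WI_le (hq : 1 ≤ q) (hρ : 0 < ρ) {a b : ℤ × ℤ} (T : Finset Gr)
    (hT : ∀ γ ∈ T, IsClu γ.1 γ.2 ∧ a ∈ γ.1 ∧ b ∈ γ.1) : ∑ γ ∈ T, WI q ρ γ ≤ GI q ρ a b := by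
  obtain ⟨N, hN⟩ := sum_WI_G9 hq hρ T hT
  exact hN.trans (Pool.Helper49.FK.G_le_GI hq hρ.le (Pool.Helper49.FK.box N) a b)

theorem sum_WI_le_tau (hq : 1 ≤ q) (hρ : 0 < ρ) {a b : ℤ × ℤ} (T : Finset Gr)
    (hT : ∀ γ ∈ T, IsClu γ.1 γ.2 ∧ a ∈ γ.1 ∧ b ∈ γ.1) :
    ∑ γ ∈ T, WI q ρ γ ≤ Real.exp (-tau q ρ * |(b.1 : ℝ) - a.1|) := by
  obtain ⟨N, hN⟩ := sum_WI_G9 hq hρ T hT
  exact hN.trans (G_le_tau hq hρ (fun _ => ⟨hρ.le, le_rfl⟩) a b)

private theorem conn_empty9 {x y : ℤ × ℤ} (hc : Conn ∅ x y) : x = y := by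
  unfold Conn at hc
  obtain ⟨p⟩ := hc
  cases p with
  | nil => rfl
  | cons hadj _ =>
    obtain ⟨e, he, _⟩ := hadj
    simp at he

theorem UI_le (hq : 1 ≤ q) (hρ : 0 < ρ) (x : ℤ × ℤ) : UI q ρ x ≤ Real.exp (-tau q ρ * x.1) := by
  by_cases hx : x = 0
  · subst hx
    have h1 : Dm 0 0 ⊆ {(({0}, ∅) : Gr)} := by
      intro γ hγ
      obtain ⟨h1, h2, h3, h4, _⟩ := mem_Dm.1 hγ
      have h5 : γ.1 = {0} := by
        ext y
        rw [Finset.mem_singleton]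
        constructor
        · intro hy
          exact (Y_antisymm (h2 y hy) (h3 y hy)).symm
        · rintro rfl
          exact h4
      have h6 : γ.2 = ∅ := by
        rw [Finset.eq_empty_iff_forall_notMem]
        intro e he
        have h7 := h1.1 he
        rw [mem_edges, h5, Finset.mem_singleton, Finset.mem_singleton] at h7
        obtain ⟨h8, h9⟩ := h7
        unfold tip at h9
        rw [h8] at h9
        split_ifs at h9
        · have := congrArg Prod.fst h9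
          simp at this
        · have := congrArg Prod.snd h9
          simp at this
      rw [Finset.mem_singleton]
      exact Prod.ext h5 h6
    have h2 : UI q ρ 0 ≤ ∑ γ ∈ ({(({0}, ∅) : Gr)} : Finset Gr), W1 q ρ γ := by
      unfold UI
      refine Finset.sum_le_sum_of_subset_of_nonneg h1 fun γ _ _ => ?_
      unfold W1
      split_ifs
      · exact zero_le_one
      · exact WI_nonneg9 hq hρ γ
    rw [Finset.sum_singleton] at h2
    have h3 : W1 q ρ (({0}, ∅) : Gr) = 1 := by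
      unfold W1
      rw [if_pos rfl]
    rw [h3] at h2
    simpa using h2
  · by_cases hY : Y x
    · have h1 : UI q ρ x = ∑ γ ∈ Dm 0 x, WI q ρ γ := by
        unfold UI
        refine Finset.sum_congr rfl fun γ hγ => ?_
        unfold W1
        rw [if_neg]
        intro h0
        obtain ⟨h2, _, _, h4, h5⟩ := mem_Dm.1 hγ
        have h6 := h2.2 0 h4 x h5
        rw [h0] at h6
        exact hx (conn_empty9 h6).symm
      rw [h1]
      have h2 := sum_WI_le_tau hq hρ (a := 0) (b := x) (Dm 0 x) fun γ hγ =>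
        ⟨(mem_Dm.1 hγ).1, (mem_Dm.1 hγ).2.2.2.1, (mem_Dm.1 hγ).2.2.2.2⟩
      have h3 : |((x.1 : ℤ) : ℝ) - (((0 : ℤ × ℤ).1 : ℤ) : ℝ)| = x.1 := by
        have h4 : (0 : ℝ) ≤ x.1 := by exact_mod_cast Y_nonneg hY
        simp [abs_of_nonneg h4]
      rwa [h3] at h2
    · have h1 : Dm 0 x = ∅ := by
        rw [Finset.eq_empty_iff_forall_notMem]
        intro γ hγ
        obtain ⟨_, h2, _, _, h5⟩ := mem_Dm.1 hγ
        have h6 := h2 x h5
        rw [sub_zero] at h6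
        exact hY h6
      unfold UI
      rw [h1, Finset.sum_empty]
      exact (Real.exp_pos _).le

end Pool.Helper95.OZ
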