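import Pool.Agent.Helper95.OZ.TP
import Pool.Agent.Helper17.OZ.TauA

/-!
Project OZ (MP_7e0861_pr), line L3, block OZ-L3-13: the diamond sums do not decay faster than the two point function.

Proof in words.  Suppose `UI x ≤ B' exp (-(τ + η) x.1)` for all `x` (`B' ≥ 0` as `UI 0 = 1`).  In `tp` every term of the
double sum is at most `B' exp (-(τ + δ) n)`, `δ = min c η` (`s.1 ≥ 0`, `n - t.1 ≥ 0`, `(t - s).1 ≥ 0`, and the three lengths add up
to `n`), and `dia 0 (n, 0)` has at most `(n + 1) (16 n + 1)` points; so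
`GI (0,0) (n,0) ≤ (C + B B' ((n + 1) (16 n + 1))^2) exp (-(τ + δ) n)`, which contradicts `tau_lim` with `ε = δ / 2` for
large `n` (a polynomial times `exp (-δ n / 2)` tends to `0`).
-/

namespace Pool.Helper95.OZ

open Pool.Helper49.FK Pool.Helper83.OZ Finset
open Pool.Helper17.OZ (Y CP Dbl NoCP nd rect tau)

variable {q ρ : ℝ}

open Classical in
private theorem dia_card {n : ℕ} : ((dia 0 ((n : ℤ), 0)).card : ℝ) ≤ ((n : ℝ) + 1) * (16 * n + 1) := by
  have h1 : (dia 0 ((n : ℤ), 0)).card ≤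
      (Finset.Icc (0 : ℤ) n ×ˢ Finset.Icc (-(8 * n) : ℤ) (8 * n)).card := by
    refine Finset.card_le_card fun y hy => ?_
    obtain ⟨h2, h3⟩ := mem_dia.1 hy
    have h4 := Y_nonneg h2
    have h5 := Y_nonneg h3
    unfold Y at h2
    simp only [sub_zero, Prod.fst_sub] at *
    rw [abs_le] at h2
    rw [Finset.mem_product, Finset.mem_Icc, Finset.mem_Icc]
    refine ⟨⟨h4, by omega⟩, ?_, ?_⟩ <;> omega
  rw [Finset.card_product, Int.card_Icc, Int.card_Icc] at h1
  have h6 : ((n : ℤ) + 1 - 0).toNat = n + 1 := by omega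
  have h7 : ((8 * n : ℤ) + 1 - -(8 * n)).toNat = 16 * n + 1 := by omega
  rw [h6, h7] at h1
  exact_mod_cast h1

theorem UI_low (hq : 1 ≤ q) (hρ : 0 < ρ) (hE : Pool.Helper49.FK.ExpW q ρ) {η : ℝ} (hη : 0 < η) (B : ℝ) :
    ¬ ∀ x : ℤ × ℤ, UI q ρ x ≤ B * Real.exp (-(tau q ρ + η) * x.1) := by
  classical
  intro h
  obtain ⟨C, c, B0, hC, hc, hB0, htp⟩ := tp hq hρ hE
  set τ := tau q ρ with hτ
  set B' : ℝ := max B 0 with hB'
  have hB'0 : 0 ≤ B' := le_max_right _ _
  have h' : ∀ x : ℤ × ℤ, UI q ρ x ≤ B' * Real.exp (-(τ + η) * x.1) := fun x =>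
    (h x).trans (mul_le_mul_of_nonneg_right (le_max_left _ _) (Real.exp_pos _).le)
  set δ : ℝ := min c η with hδ
  have hδ0 : 0 < δ := lt_min hc hη
  have hδc : δ ≤ c := min_le_left _ _
  have hδη : δ ≤ η := min_le_right _ _
  obtain ⟨N, hN⟩ := Pool.Helper17.OZ.tau_lim hq hρ (half_pos hδ0)
  -- the upper bound
  have hup : ∀ n : ℕ, 1 ≤ n → GI q ρ (0, 0) ((n : ℤ), 0) ≤
      (C + B0 * B' * (((n : ℝ) + 1) * (16 * n + 1)) ^ 2) * Real.exp (-(τ + δ) * n) := by
    intro n hn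
    refine (htp n hn).trans ?_
    have t1 : C * Real.exp (-(τ + c) * n) ≤ C * Real.exp (-(τ + δ) * n) := by
      refine mul_le_mul_of_nonneg_left (Real.exp_le_exp.2 ?_) hC.le
      have : (0 : ℝ) ≤ n := Nat.cast_nonneg n
      nlinarith
    have t2 : (∑ s ∈ dia 0 ((n : ℤ), 0), ∑ t ∈ dia 0 ((n : ℤ), 0), if 0 < s.1 ∧ t.1 < n ∧ Y (t - s) then
        Real.exp (-(τ + c) * s.1) * UI q ρ (t - s) * Real.exp (-(τ + c) * ((n : ℝ) - t.1)) else 0) ≤
        (((n : ℝ) + 1) * (16 * n + 1)) ^ 2 * (B' * Real.exp (-(τ + δ) * n)) := by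
      have hterm : ∀ s ∈ dia 0 ((n : ℤ), 0), ∀ t ∈ dia 0 ((n : ℤ), 0),
          (if 0 < s.1 ∧ t.1 < n ∧ Y (t - s) then
            Real.exp (-(τ + c) * s.1) * UI q ρ (t - s) * Real.exp (-(τ + c) * ((n : ℝ) - t.1)) else 0)
          ≤ B' * Real.exp (-(τ + δ) * n) := by
        intro s _ t _
        split_ifs with hst
        · obtain ⟨h1, h2, h3⟩ := hst
          have h4 := Y_nonneg h3
          rw [Prod.fst_sub] at h4
          have a1 : (0 : ℝ) ≤ s.1 := by exact_mod_cast h1.le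
          have a2 : (0 : ℝ) ≤ (t.1 : ℝ) - s.1 := by exact_mod_cast h4
          have a3 : (0 : ℝ) ≤ (n : ℝ) - t.1 := by
            have : (t.1 : ℝ) ≤ n := by exact_mod_cast h2.le
            linarith
          have b1 : Real.exp (-(τ + c) * s.1) ≤ Real.exp (-(τ + δ) * s.1) :=
            Real.exp_le_exp.2 (by nlinarith)
          have b3 : Real.exp (-(τ + c) * ((n : ℝ) - t.1)) ≤ Real.exp (-(τ + δ) * ((n : ℝ) - t.1)) :=
            Real.exp_le_exp.2 (by nlinarith)
          have b2 : UI q ρ (t - s) ≤ B' * Real.exp (-(τ + δ) * ((t.1 : ℝ) - s.1)) := by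
            refine (h' (t - s)).trans ?_
            refine mul_le_mul_of_nonneg_left (Real.exp_le_exp.2 ?_) hB'0
            have : (((t - s).1 : ℤ) : ℝ) = (t.1 : ℝ) - s.1 := by
              rw [Prod.fst_sub]; push_cast; ring
            rw [this]
            nlinarith
          calc Real.exp (-(τ + c) * s.1) * UI q ρ (t - s) * Real.exp (-(τ + c) * ((n : ℝ) - t.1))
              ≤ Real.exp (-(τ + c) * s.1) * (B' * Real.exp (-(τ + δ) * ((t.1 : ℝ) - s.1)))
                * Real.exp (-(τ + c) * ((n : ℝ) - t.1)) :=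
                mul_le_mul_of_nonneg_right (mul_le_mul_of_nonneg_left b2 (Real.exp_pos _).le)
                  (Real.exp_pos _).le
            _ ≤ Real.exp (-(τ + δ) * s.1) * (B' * Real.exp (-(τ + δ) * ((t.1 : ℝ) - s.1)))
                * Real.exp (-(τ + δ) * ((n : ℝ) - t.1)) := by
                refine mul_le_mul ?_ b3 (Real.exp_pos _).le (by positivity)
                exact mul_le_mul_of_nonneg_right b1 (by positivity)
            _ = B' * (Real.exp (-(τ + δ) * s.1) * Real.exp (-(τ + δ) * ((t.1 : ℝ) - s.1))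
                * Real.exp (-(τ + δ) * ((n : ℝ) - t.1))) := by ring
            _ = B' * Real.exp (-(τ + δ) * n) := by
                rw [← Real.exp_add, ← Real.exp_add]
                congr 2
                ring
        · positivity
      refine (Finset.sum_le_sum fun s hs => Finset.sum_le_sum fun t ht => hterm s hs t ht).trans ?_
      rw [Finset.sum_const, Finset.sum_const, nsmul_eq_mul, nsmul_eq_mul, ← mul_assoc, ← sq]
      refine mul_le_mul_of_nonneg_right ?_ (by positivity)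
      exact pow_le_pow_left₀ (Nat.cast_nonneg _) dia_card 2
    have t3 := mul_le_mul_of_nonneg_left t2 hB0.le
    calc _ ≤ C * Real.exp (-(τ + δ) * n) +
        B0 * ((((n : ℝ) + 1) * (16 * n + 1)) ^ 2 * (B' * Real.exp (-(τ + δ) * n))) := add_le_add t1 t3
      _ = _ := by ring
  -- comparison
  set M : ℝ := C + 1156 * (B0 * B') with hM
  have hM0 : 0 < M := by positivity
  have hcmp : ∀ n : ℕ, 1 ≤ n → N ≤ n → (δ / 2) ^ 5 / 120 * n ≤ M := by
    intro n hn1 hn
    have h1 := (hN n hn).trans (hup n hn1)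
    have hn' : (1 : ℝ) ≤ n := by exact_mod_cast hn1
    have h2 : Real.exp (δ / 2 * n) ≤ C + B0 * B' * (((n : ℝ) + 1) * (16 * n + 1)) ^ 2 := by
      have h3 : Real.exp (-(τ + δ / 2) * n) = Real.exp (δ / 2 * n) * Real.exp (-(τ + δ) * n) := by
        rw [← Real.exp_add]; congr 1; ring
      rw [h3] at h1
      exact le_of_mul_le_mul_right h1 (Real.exp_pos _)
    have h4 : (δ / 2 * n) ^ 5 / (Nat.factorial 5 : ℕ) ≤ Real.exp (δ / 2 * n) :=
      Real.pow_div_factorial_le_exp _ (by positivity) 5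
    have h5 : (((n : ℝ) + 1) * (16 * n + 1)) ^ 2 ≤ 1156 * (n : ℝ) ^ 4 := by
      have h6 : ((n : ℝ) + 1) * (16 * n + 1) ≤ 34 * (n : ℝ) ^ 2 := by nlinarith
      calc (((n : ℝ) + 1) * (16 * n + 1)) ^ 2 ≤ (34 * (n : ℝ) ^ 2) ^ 2 :=
            pow_le_pow_left₀ (by positivity) h6 2
        _ = 1156 * (n : ℝ) ^ 4 := by ring
    have h7 : C ≤ C * (n : ℝ) ^ 4 := le_mul_of_one_le_right hC.le (one_le_pow₀ hn')
    have h8 : B0 * B' * (((n : ℝ) + 1) * (16 * n + 1)) ^ 2 ≤ B0 * B' * (1156 * (n : ℝ) ^ 4) :=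
      mul_le_mul_of_nonneg_left h5 (by positivity)
    have h9 : (δ / 2 * n) ^ 5 / 120 ≤ M * (n : ℝ) ^ 4 := by
      have e1 : ((Nat.factorial 5 : ℕ) : ℝ) = 120 := by norm_num [Nat.factorial]
      rw [e1] at h4
      calc (δ / 2 * n) ^ 5 / 120 ≤ _ := h4.trans h2
        _ ≤ C * (n : ℝ) ^ 4 + B0 * B' * (1156 * (n : ℝ) ^ 4) := add_le_add h7 h8
        _ = M * (n : ℝ) ^ 4 := by rw [hM]; ring
    have h10 : (0 : ℝ) < (n : ℝ) ^ 4 := by positivity
    have h11 : (δ / 2) ^ 5 / 120 * n * (n : ℝ) ^ 4 ≤ M * (n : ℝ) ^ 4 := by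
      calc (δ / 2) ^ 5 / 120 * n * (n : ℝ) ^ 4 = (δ / 2 * n) ^ 5 / 120 := by ring
        _ ≤ _ := h9
    exact le_of_mul_le_mul_right h11 h10
  have hκ : 0 < (δ / 2) ^ 5 / 120 := by positivity
  obtain ⟨n, hn⟩ := exists_nat_gt (M / ((δ / 2) ^ 5 / 120))
  have h1 := hcmp (max n (max 1 N)) (le_trans (le_max_left _ _) (le_max_right _ _))
    (le_trans (le_max_right _ _) (le_max_right _ _))
  rw [div_lt_iff₀ hκ] at hn
  have h2 : (n : ℝ) ≤ ((max n (max 1 N) : ℕ) : ℝ) := by exact_mod_cast le_max_left _ _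
  have h3 := mul_le_mul_of_nonneg_left h2 hκ.le
  linarith

end Pool.Helper95.OZ
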