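import Pool.Agent.Helper95.OZ.Ren

/-!
Project OZ (MP_7e0861_pr), line L3, block OZ-L3-16: small diamond graphs.

* `Dm_one`: for `b = a + (1, h)` a vertex `y` of a graph of `Dm a b` is in column `a.1` or `a.1 + 1`, hence `y = a` or `y = b`
  (`Y (y - a)` with `y.1 = a.1` forces `y = a`); the graph is connected and has the two different vertices `a, b`, so
  it has the edge between them and `h = 0`.
* `flat2 a`, `up2 a`: the path `a, a + (1,0), a + (2,0)` with the additional vertex `a + (1,1)`, and the path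
  `a, a + (1,0), a + (1,1), a + (2,1)`.  They are in `Dm a (a + (2, 0))`, `Dm a (a + (2, 1))` and have no cone point
  strictly between the columns (column `a.1 + 1` contains two vertices of them, neither is in the double cone of the
  other), so `FG = WI` (`FG_eq`), and `WI` is positive and translation invariant (`WI_tr`, `flat2_tr`).
-/

namespace Pool.Helper95.OZ

open Pool.Helper49.FK Pool.Helper17.OZ Pool.Helper83.OZ Finset

variable {q ρ : ℝ}

/-- One horizontal edge. -/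
def one1 (a : ℤ × ℤ) : Gr := ({a, a + (1, 0)}, {(a, true)})

/-- A piece of length `2` and height `0`. -/
def flat2 (a : ℤ × ℤ) : Gr :=
  ({a, a + (1, 0), a + (2, 0), a + (1, 1)}, {(a, true), (a + (1, 0), true), (a + (1, 0), false)})

/-- A piece of length `2` and height `1`. -/
def up2 (a : ℤ × ℤ) : Gr :=
  ({a, a + (1, 0), a + (1, 1), a + (2, 1)}, {(a, true), (a + (1, 0), false), (a + (1, 1), true)})

private theorem mem_edgesP {V : Finset (ℤ × ℤ)} {e : Edge} : e ∈ edges V ↔ e.1 ∈ V ∧ tip e ∈ V := by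
  unfold edges
  rw [Finset.mem_filter, Finset.mem_product]
  constructor
  · exact fun h => ⟨h.1.1, h.2⟩
  · exact fun h => ⟨⟨h.1, Finset.mem_univ _⟩, h.2⟩

private theorem connP {C : Finset Edge} {e : Edge} (he : e ∈ C) : Conn C e.1 (tip e) :=
  SimpleGraph.Adj.reachable ⟨e, he, Or.inl ⟨rfl, rfl⟩⟩

private theorem vertP {a : ℤ × ℤ} {h : ℤ} {γ : Gr} (hγ : γ ∈ Dm a (a + (1, h))) {y : ℤ × ℤ}
    (hy : y ∈ γ.1) : y = a ∨ y = a + (1, h) := by
  obtain ⟨_, h2, h3, _, _⟩ := mem_Dm.1 hγ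
  have h4 := h2 y hy
  have h5 := h3 y hy
  by_cases h6 : y = a
  · exact Or.inl h6
  · right
    by_contra h7
    have h8 := Y_lt h4 (Ne.symm h6)
    have h9 := Y_lt h5 h7
    simp only [Prod.fst_add] at h9
    omega

private theorem edgeP {a : ℤ × ℤ} {h : ℤ} {γ : Gr} (hγ : γ ∈ Dm a (a + (1, h))) {e : Edge}
    (he : e ∈ γ.2) : e = (a, true) ∧ h = 0 := by
  have h1 := mem_edgesP.1 ((mem_Dm.1 hγ).1.1 he)
  have h2 := vertP hγ h1.1
  have h3 := vertP hγ h1.2
  obtain ⟨⟨x, y⟩, c⟩ := e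
  obtain ⟨a1, a2⟩ := a
  cases c <;> simp only [tip, Prod.ext_iff, Prod.fst_add, Prod.snd_add, if_true, if_false,
    Bool.false_eq_true, reduceCtorEq] at h2 h3 ⊢ <;> simp <;> omega

theorem Dm_one (a : ℤ × ℤ) : Dm a (a + (1, 0)) = {one1 a} := by
  ext γ
  rw [Finset.mem_singleton]
  constructor
  · intro hγ
    have hne : a ≠ a + (1, 0) := fun h => by simp [Prod.ext_iff] at h
    refine Prod.ext ?_ ?_
    · ext y
      simp only [one1, Finset.mem_insert, Finset.mem_singleton]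
      constructor
      · exact fun hy => vertP hγ hy
      · rintro (rfl | rfl)
        · exact (mem_Dm.1 hγ).2.2.2.1
        · exact (mem_Dm.1 hγ).2.2.2.2
    · have h1 := Dm_edges_ne hγ hne
      obtain ⟨e, he⟩ := Finset.nonempty_iff_ne_empty.2 h1
      ext e'
      simp only [one1, Finset.mem_singleton]
      constructor
      · exact fun he' => (edgeP hγ he').1
      · rintro rfl
        rw [← (edgeP hγ he).1]
        exact he
  · rintro rfl
    have hc : Conn (one1 a).2 a (a + (1, 0)) := by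
      have h1 : ((a, true) : Edge) ∈ (one1 a).2 := Finset.mem_singleton_self _
      have h2 := connP h1
      have h3 : tip (a, true) = a + (1, 0) := by simp [tip, Prod.ext_iff]
      rwa [h3] at h2
    have hm : ∀ y ∈ (one1 a).1, y = a ∨ y = a + (1, 0) := by
      intro y hy
      simpa only [one1, Finset.mem_insert, Finset.mem_singleton] using hy
    rw [mem_Dm]
    refine ⟨⟨?_, ?_⟩, ?_, ?_, ?_, ?_⟩
    · intro e he
      simp only [one1, Finset.mem_singleton] at he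
      subst he
      rw [mem_edgesP]
      simp [one1, tip, Prod.ext_iff]
    · intro x hx y hy
      rcases hm x hx with rfl | rfl <;> rcases hm y hy with rfl | rfl
      · exact SimpleGraph.Reachable.refl _
      · exact hc
      · exact SimpleGraph.Reachable.symm hc
      · exact SimpleGraph.Reachable.refl _
    · intro y hy
      rcases hm y hy with rfl | rfl
      · exact Y_self _
      · simp [Y]
    · intro y hy
      rcases hm y hy with rfl | rfl
      · simp [Y]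
      · exact Y_self _
    · simp [one1]
    · simp [one1]

theorem Dm_one' (a : ℤ × ℤ) {h : ℤ} (hh : h ≠ 0) : Dm a (a + (1, h)) = ∅ := by
  rw [Finset.eq_empty_iff_forall_notMem]
  intro γ hγ
  have hne : a ≠ a + (1, h) := fun h => by simp [Prod.ext_iff] at h
  obtain ⟨e, he⟩ := Finset.nonempty_iff_ne_empty.2 (Dm_edges_ne hγ hne)
  exact hh (edgeP hγ he).2

theorem FG_one (a : ℤ × ℤ) : FG q ρ a (a + (1, 0)) (one1 a) = WI q ρ (one1 a) := by
  rw [FG_eq (by simp [one1])]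
  have h : cps (one1 a) a (a + (1, 0)) = ∅ := by
    rw [Finset.eq_empty_iff_forall_notMem]
    intro t ht
    obtain ⟨_, h1, h2⟩ := mem_cps.1 ht
    simp only [Prod.fst_add] at h2
    omega
  rw [h, Finset.sum_empty, sub_zero]

private theorem flat2_tr (a : ℤ × ℤ) : trG a (flat2 0) = flat2 a := by
  refine Prod.ext ?_ ?_
  · simp [trG, flat2, tr, Finset.map_insert, add_comm]
  · simp [trG, flat2, Finset.map_insert, add_comm]

private theorem up2_tr (a : ℤ × ℤ) : trG a (up2 0) = up2 a := by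
  refine Prod.ext ?_ ?_
  · simp [trG, up2, tr, Finset.map_insert, add_comm]
  · simp [trG, up2, Finset.map_insert, add_comm]

private theorem one1_tr (a : ℤ × ℤ) : trG a (one1 0) = one1 a := by
  refine Prod.ext ?_ ?_
  · simp [trG, one1, tr, Finset.map_insert, add_comm]
  · simp [trG, one1, add_comm]

private theorem cluP {V : Finset (ℤ × ℤ)} {C : Finset Edge} (c : ℤ × ℤ) (h : C ⊆ edges V)
    (hc : ∀ x ∈ V, Conn C c x) : IsClu V C :=
  ⟨h, fun x hx y hy => SimpleGraph.Reachable.trans (SimpleGraph.Reachable.symm (hc x hx)) (hc y hy)⟩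

private theorem flat2_mem0 : flat2 0 ∈ Dm 0 (2, 0) := by
  have e1 : Conn (flat2 0).2 ((0 : ℤ), (0 : ℤ)) ((1 : ℤ), (0 : ℤ)) :=
    connP (e := (((0 : ℤ), (0 : ℤ)), true)) (by decide)
  have e2 : Conn (flat2 0).2 ((1 : ℤ), (0 : ℤ)) ((2 : ℤ), (0 : ℤ)) :=
    connP (e := (((1 : ℤ), (0 : ℤ)), true)) (by decide)
  have e3 : Conn (flat2 0).2 ((1 : ℤ), (0 : ℤ)) ((1 : ℤ), (1 : ℤ)) :=
    connP (e := (((1 : ℤ), (0 : ℤ)), false)) (by decide)
  have hm : ∀ y ∈ (flat2 0).1, y = ((0 : ℤ), (0 : ℤ)) ∨ y = ((1 : ℤ), (0 : ℤ)) ∨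
      y = ((2 : ℤ), (0 : ℤ)) ∨ y = ((1 : ℤ), (1 : ℤ)) := by decide
  rw [mem_Dm]
  refine ⟨cluP ((1 : ℤ), (0 : ℤ)) (by decide) ?_, ?_, ?_, by decide, by decide⟩
  · intro x hx
    rcases hm x hx with rfl | rfl | rfl | rfl
    · exact SimpleGraph.Reachable.symm e1
    · exact SimpleGraph.Reachable.refl _
    · exact e2
    · exact e3
  · intro x hx
    rcases hm x hx with rfl | rfl | rfl | rfl <;> simp [Y]
  · intro x hx
    rcases hm x hx with rfl | rfl | rfl | rfl <;> simp [Y]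

private theorem up2_mem0 : up2 0 ∈ Dm 0 (2, 1) := by
  have e1 : Conn (up2 0).2 ((0 : ℤ), (0 : ℤ)) ((1 : ℤ), (0 : ℤ)) :=
    connP (e := (((0 : ℤ), (0 : ℤ)), true)) (by decide)
  have e2 : Conn (up2 0).2 ((1 : ℤ), (1 : ℤ)) ((2 : ℤ), (1 : ℤ)) :=
    connP (e := (((1 : ℤ), (1 : ℤ)), true)) (by decide)
  have e3 : Conn (up2 0).2 ((1 : ℤ), (0 : ℤ)) ((1 : ℤ), (1 : ℤ)) :=
    connP (e := (((1 : ℤ), (0 : ℤ)), false)) (by decide)
  have hm : ∀ y ∈ (up2 0).1, y = ((0 : ℤ), (0 : ℤ)) ∨ y = ((1 : ℤ), (0 : ℤ)) ∨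
      y = ((2 : ℤ), (1 : ℤ)) ∨ y = ((1 : ℤ), (1 : ℤ)) := by decide
  rw [mem_Dm]
  refine ⟨cluP ((1 : ℤ), (0 : ℤ)) (by decide) ?_, ?_, ?_, by decide, by decide⟩
  · intro x hx
    rcases hm x hx with rfl | rfl | rfl | rfl
    · exact SimpleGraph.Reachable.symm e1
    · exact SimpleGraph.Reachable.refl _
    · exact SimpleGraph.Reachable.trans e3 e2
    · exact e3
  · intro x hx
    rcases hm x hx with rfl | rfl | rfl | rfl <;> simp [Y]
  · intro x hx
    rcases hm x hx with rfl | rfl | rfl | rfl <;> simp [Y]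

theorem flat2_mem (a : ℤ × ℤ) : flat2 a ∈ Dm a (a + (2, 0)) := by
  have h := (mem_Dm_tr a).2 flat2_mem0
  rwa [flat2_tr, zero_add, add_comm] at h

private theorem colP {a t : ℤ × ℤ} {V : Finset (ℤ × ℤ)} (h0 : a + (1, 0) ∈ V) (h1 : a + (1, 1) ∈ V)
    (ht : CP V t) (h2 : a.1 < t.1) (h3 : t.1 < a.1 + 2) (hV : ∀ y ∈ V, y = a ∨ y = a + (1, 0) ∨
      y = a + (1, 1) ∨ a.1 + 2 ≤ y.1) : False := by
  rcases hV t ht.1 with rfl | rfl | rfl | h4
  · omega
  · rcases ht.2 _ h1 with h5 | h5 <;> simp [Y] at h5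
  · rcases ht.2 _ h0 with h5 | h5 <;> simp [Y] at h5
  · omega

theorem FG_flat2 (a : ℤ × ℤ) : FG q ρ a (a + (2, 0)) (flat2 a) = WI q ρ (flat2 a) := by
  rw [FG_eq (by simp [flat2])]
  have h : cps (flat2 a) a (a + (2, 0)) = ∅ := by
    rw [Finset.eq_empty_iff_forall_notMem]
    intro t ht
    obtain ⟨h0, h1, h2⟩ := mem_cps.1 ht
    simp only [Prod.fst_add] at h2
    refine colP (by simp [flat2]) (by simp [flat2]) h0 h1 h2 ?_
    intro y hy
    simp only [flat2, Finset.mem_insert, Finset.mem_singleton] at hy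
    rcases hy with rfl | rfl | rfl | rfl
    · exact Or.inl rfl
    · exact Or.inr (Or.inl rfl)
    · right; right; right; simp
    · exact Or.inr (Or.inr (Or.inl rfl))
  rw [h, Finset.sum_empty, sub_zero]

theorem up2_mem (a : ℤ × ℤ) : up2 a ∈ Dm a (a + (2, 1)) := by
  have h := (mem_Dm_tr a).2 up2_mem0
  rwa [up2_tr, zero_add, add_comm] at h

theorem FG_up2 (a : ℤ × ℤ) : FG q ρ a (a + (2, 1)) (up2 a) = WI q ρ (up2 a) := by
  rw [FG_eq (by simp [up2])]
  have h : cps (up2 a) a (a + (2, 1)) = ∅ := by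
    rw [Finset.eq_empty_iff_forall_notMem]
    intro t ht
    obtain ⟨h0, h1, h2⟩ := mem_cps.1 ht
    simp only [Prod.fst_add] at h2
    refine colP (by simp [up2]) (by simp [up2]) h0 h1 h2 ?_
    intro y hy
    simp only [up2, Finset.mem_insert, Finset.mem_singleton] at hy
    rcases hy with rfl | rfl | rfl | rfl
    · exact Or.inl rfl
    · exact Or.inr (Or.inl rfl)
    · exact Or.inr (Or.inr (Or.inl rfl))
    · right; right; right; simp
  rw [h, Finset.sum_empty, sub_zero]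

theorem WI_one1 (hq : 1 ≤ q) (hρ : 0 < ρ) (a : ℤ × ℤ) : WI q ρ (one1 a) = WI q ρ (one1 0) := by
  rw [← one1_tr a]
  exact WI_tr a hq hρ

theorem WI_flat2 (hq : 1 ≤ q) (hρ : 0 < ρ) (a : ℤ × ℤ) : WI q ρ (flat2 a) = WI q ρ (flat2 0) := by
  rw [← flat2_tr a]
  exact WI_tr a hq hρ

theorem WI_up2 (hq : 1 ≤ q) (hρ : 0 < ρ) (a : ℤ × ℤ) : WI q ρ (up2 a) = WI q ρ (up2 0) := by
  rw [← up2_tr a]
  exact WI_tr a hq hρ

theorem fI_one_pos (hq : 1 ≤ q) (hρ : 0 < ρ) : 0 < fI q ρ (1, 0) := by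
  have h1 := Dm_one 0
  have h2 := FG_one (q := q) (ρ := ρ) 0
  rw [zero_add] at h1 h2
  unfold fI
  rw [if_neg (by simp [Prod.ext_iff]), h1, Finset.sum_singleton, h2]
  exact WI_pos hq hρ _

theorem fI_one_zero {h : ℤ} (hh : h ≠ 0) : fI q ρ (1, h) = 0 := by
  have h1 := Dm_one' 0 hh
  rw [zero_add] at h1
  unfold fI
  rw [h1, Finset.sum_empty, ite_self]

private theorem fI_posP (hq : 1 ≤ q) (hρ : 0 < ρ) (hD : ExpDecay q ρ) {x : ℤ × ℤ} (hx : x ≠ 0)
    {γ : Gr} (hγ : γ ∈ Dm 0 x) (h : FG q ρ 0 x γ = WI q ρ γ) : 0 < fI q ρ x := by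
  obtain ⟨C, lam, _, _, _, hm⟩ := FG_main hq hρ hD
  unfold fI
  rw [if_neg hx]
  refine Finset.sum_pos' (fun δ hδ => (hm hδ (Ne.symm hx)).1) ⟨γ, hγ, ?_⟩
  rw [h]
  exact WI_pos hq hρ _

theorem fI_two_pos (hq : 1 ≤ q) (hρ : 0 < ρ) (hD : ExpDecay q ρ) : 0 < fI q ρ (2, 0) ∧ 0 < fI q ρ (2, 1) := by
  have h1 := flat2_mem 0
  have h2 := FG_flat2 (q := q) (ρ := ρ) 0
  have h3 := up2_mem 0
  have h4 := FG_up2 (q := q) (ρ := ρ) 0
  rw [zero_add] at h1 h2 h3 h4
  exact ⟨fI_posP hq hρ hD (by simp [Prod.ext_iff]) h1 h2, fI_posP hq hρ hD (by simp [Prod.ext_iff]) h3 h4⟩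

end Pool.Helper95.OZ
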