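import Pool.Agent.Helper95.OZ.Def

/-!
Project OZ (MP_7e0861_pr), line L3, block OZ-L3-4: the reflection in the horizontal axis.

As for the translations: `rf` is the reflection `x ↦ (x.1, -x.2)`, `rfE` is an involution of the edges with
`{(rfE e).1, tip (rfE e)} = {rf e.1, rf (tip e)}`, and `Y (rf x) ↔ Y x`.  `WI` by `PsiI_rfY`.
-/

namespace Pool.Helper95.OZ

open Pool.Helper49.FK Pool.Helper17.OZ Pool.Helper83.OZ Finset

variable {q ρ : ℝ} {a b m : ℤ × ℤ} {γ : Gr}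

/-- The reflection of a point. -/
def rf (x : ℤ × ℤ) : ℤ × ℤ := (x.1, -x.2)

private theorem rf_rf38 (x : ℤ × ℤ) : rf (rf x) = x := by
  unfold rf
  simp

private theorem rf_inj38 : Function.Injective rf := fun x y h => by
  rw [← rf_rf38 x, h, rf_rf38]

private theorem rfE_rfE38 (e : Edge) : rfE (rfE e) = e := by
  obtain ⟨⟨x, y⟩, b⟩ := e
  cases b <;> simp [rfE]

private theorem rfE_inj38 : Function.Injective rfE := fun x y h => by
  rw [← rfE_rfE38 x, h, rfE_rfE38]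

private theorem mem_rfY38 {V : Finset (ℤ × ℤ)} {x : ℤ × ℤ} : x ∈ rfY V ↔ rf x ∈ V := by
  unfold rfY
  rw [Finset.mem_image]
  constructor
  · rintro ⟨y, hy, rfl⟩
    have h : rf (y.1, -y.2) = y := rf_rf38 y
    rwa [h]
  · intro h
    exact ⟨rf x, h, rf_rf38 x⟩

private theorem mem_imE38 {C : Finset Edge} {e : Edge} : e ∈ C.image rfE ↔ rfE e ∈ C := by
  rw [Finset.mem_image]
  constructor
  · rintro ⟨y, hy, rfl⟩
    rwa [rfE_rfE38]
  · intro h
    exact ⟨rfE e, h, rfE_rfE38 e⟩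

private theorem ends38 (e : Edge) : ((rfE e).1 = rf e.1 ∧ tip (rfE e) = rf (tip e)) ∨
    ((rfE e).1 = rf (tip e) ∧ tip (rfE e) = rf e.1) := by
  obtain ⟨⟨x, y⟩, b⟩ := e
  cases b
  · right
    simp [rfE, tip, rf]
    omega
  · left
    simp [rfE, tip, rf]

private theorem ends38b (e : Edge) : (rf e.1 = (rfE e).1 ∧ rf (tip e) = tip (rfE e)) ∨
    (rf e.1 = tip (rfE e) ∧ rf (tip e) = (rfE e).1) := by
  rcases ends38 e with ⟨h, h'⟩ | ⟨h, h'⟩
  · exact Or.inl ⟨h.symm, h'.symm⟩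
  · exact Or.inr ⟨h'.symm, h.symm⟩

private theorem Y_rf38 (x y : ℤ × ℤ) : Y (rf x - rf y) ↔ Y (x - y) := by
  unfold Y rf
  simp only [Prod.fst_sub, Prod.snd_sub]
  rw [show -x.2 - -y.2 = -(x.2 - y.2) by ring, abs_neg]

private theorem Y_rfl38 (x y : ℤ × ℤ) : Y (rf x - y) ↔ Y (x - rf y) := by
  have h := Y_rf38 x (rf y)
  rwa [rf_rf38] at h

private theorem conn_rf38 {C : Finset Edge} {x y : ℤ × ℤ} (h : Conn C x y) :
    Conn (C.image rfE) (rf x) (rf y) := by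
  refine Conn.induct (S := {y | Conn (C.image rfE) (rf x) (rf y)}) h (Conn.refl _ _) fun e he => ?_
  have h2 := conn_edge (Finset.mem_image_of_mem rfE he)
  have h3 : Conn (C.image rfE) (rf e.1) (rf (tip e)) := by
    rcases ends38 e with ⟨h4, h5⟩ | ⟨h4, h5⟩
    · rwa [h4, h5] at h2
    · rw [h4, h5] at h2
      exact h2.symm
  exact ⟨fun h => Conn.trans h h3, fun h => Conn.trans h h3.symm⟩

private theorem isClu_rf38 {V : Finset (ℤ × ℤ)} {C : Finset Edge} (h : IsClu V C) :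
    IsClu (rfY V) (C.image rfE) := by
  refine ⟨fun e he => ?_, fun x hx y hy => ?_⟩
  · rw [mem_imE38] at he
    have h1 := mem_edges.1 (h.1 he)
    rw [mem_edges, mem_rfY38, mem_rfY38]
    rcases ends38b e with ⟨h4, h5⟩ | ⟨h4, h5⟩
    · rw [h4, h5]
      exact h1
    · rw [h4, h5]
      exact ⟨h1.2, h1.1⟩
  · rw [mem_rfY38] at hx hy
    have h1 := conn_rf38 (h.2 _ hx _ hy)
    rwa [rf_rf38, rf_rf38] at h1

private theorem rfG38 : (rfG γ).1 = rfY γ.1 := rfl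

private theorem rfG38' : (rfG γ).2 = γ.2.image rfE := rfl

theorem rfG_rfG : rfG (rfG γ) = γ := by
  refine Prod.ext ?_ ?_
  · ext x
    rw [rfG38, rfG38, mem_rfY38, mem_rfY38, rf_rf38]
  · ext e
    rw [rfG38', rfG38', mem_imE38, mem_imE38, rfE_rfE38]

private theorem mem_Dm38 {a b : ℤ × ℤ} {γ : Gr} (h : γ ∈ Dm a b) : rfG γ ∈ Dm (rf a) (rf b) := by
  rw [mem_Dm] at h ⊢
  obtain ⟨h1, h2, h3, h4, h5⟩ := h
  refine ⟨isClu_rf38 h1, fun y hy => ?_, fun y hy => ?_, ?_, ?_⟩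
  · rw [rfG38, mem_rfY38] at hy
    have h6 := h2 _ hy
    rwa [Y_rfl38] at h6
  · rw [rfG38, mem_rfY38] at hy
    have h6 := h3 _ hy
    rwa [Y_rfl38]
  · rw [rfG38, mem_rfY38, rf_rf38]
    exact h4
  · rw [rfG38, mem_rfY38, rf_rf38]
    exact h5

theorem mem_Dm_rf : rfG γ ∈ Dm (rf a) (rf b) ↔ γ ∈ Dm a b := by
  constructor
  · intro h
    have h1 := mem_Dm38 h
    rwa [rfG_rfG, rf_rf38, rf_rf38] at h1
  · exact mem_Dm38

theorem cps_rf : cps (rfG γ) (rf a) (rf b) = rfY (cps γ a b) := by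
  ext t
  rw [mem_rfY38, mem_cps, mem_cps]
  have h1 : CP (rfG γ).1 t ↔ CP γ.1 (rf t) := by
    unfold CP Dbl
    rw [rfG38, mem_rfY38]
    refine and_congr_right fun _ => ⟨fun h y hy => ?_, fun h y hy => ?_⟩
    · have h2 := h (rf y) (by rwa [mem_rfY38, rf_rf38])
      rw [Y_rfl38] at h2
      rcases h2 with h2 | h2
      · exact Or.inl h2
      · right
        rwa [Y_rfl38]
    · rw [mem_rfY38] at hy
      have h2 := h (rf y) hy
      rw [Y_rf38, Y_rf38] at h2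
      exact h2
  exact and_congr h1 Iff.rfl

theorem low_rf : low (rf m) (rfG γ) = rfG (low m γ) := by
  unfold low
  refine Prod.ext ?_ ?_
  · ext y
    simp only [rfG38, mem_rfY38, Finset.mem_filter]
    rw [Y_rfl38]
  · ext e
    simp only [rfG38', mem_imE38, Finset.mem_filter]
    rw [Y_rfl38, Y_rfl38]
    refine and_congr_right fun _ => ?_
    rcases ends38b e with ⟨h4, h5⟩ | ⟨h4, h5⟩
    · rw [h4, h5]
    · rw [h4, h5]
      exact and_comm

theorem upp_rf : upp (rf m) (rfG γ) = rfG (upp m γ) := by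
  unfold upp
  refine Prod.ext ?_ ?_
  · ext y
    simp only [rfG38, mem_rfY38, Finset.mem_filter]
    rw [Y_rfl38 y m]
  · ext e
    simp only [rfG38', mem_imE38, Finset.mem_filter]
    rw [← Y_rfl38 e.1 m, ← Y_rfl38 (tip e) m]
    refine and_congr_right fun _ => ?_
    rcases ends38b e with ⟨h4, h5⟩ | ⟨h4, h5⟩
    · rw [h4, h5]
    · rw [h4, h5]
      exact and_comm

theorem WI_rf (hq : 1 ≤ q) (hρ : 0 < ρ) : WI q ρ (rfG γ) = WI q ρ γ := by
  unfold WI bg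
  rw [rfG38, rfG38', PsiI_rfY hq hρ.le, Finset.prod_image fun x _ y _ h => rfE_inj38 h]
  have h1 : (rfY γ.1).card = γ.1.card := by
    unfold rfY
    exact Finset.card_image_of_injective _ rf_inj38
  rw [h1]
  rfl

private theorem FG_rf38 (hq : 1 ≤ q) (hρ : 0 < ρ) (n : ℕ) : ∀ (b : ℤ × ℤ) (γ : Gr), γ.1.card = n → b ∈ γ.1 →
    FG q ρ (rf a) (rf b) (rfG γ) = FG q ρ a b γ := by
  induction n using Nat.strong_induction_on with
  | _ n ih =>
    intro b γ hn hb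
    have hb' : rf b ∈ (rfG γ).1 := by
      rw [rfG38, mem_rfY38, rf_rf38]
      exact hb
    rw [FG_eq hb', FG_eq hb, WI_rf hq hρ, cps_rf]
    congr 1
    have h0 : rfY (cps γ a b) = (cps γ a b).image rf := rfl
    rw [h0, Finset.sum_image fun x _ y _ h => rf_inj38 h]
    refine Finset.sum_congr rfl fun m hm => ?_
    rw [low_rf, upp_rf, WI_rf hq hρ]
    congr 1
    refine ih _ (hn ▸ card_low_lt hb hm) m (low m γ) rfl ?_
    classical
    unfold low
    rw [Finset.mem_filter]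
    exact ⟨(mem_cps.1 hm).1.1, Y_self m⟩

theorem FG_rf (hq : 1 ≤ q) (hρ : 0 < ρ) (hb : b ∈ γ.1) :
    FG q ρ (rf a) (rf b) (rfG γ) = FG q ρ a b γ := by
  exact FG_rf38 hq hρ _ b γ rfl hb

theorem sum_Dm_rf (F : Gr → ℝ) : ∑ γ ∈ Dm (rf a) (rf b), F γ = ∑ γ ∈ Dm a b, F (rfG γ) := by
  refine Finset.sum_nbij' rfG rfG (fun γ h => ?_) (fun γ h => mem_Dm_rf.2 h) (fun γ _ => rfG_rfG)
    (fun γ _ => rfG_rfG) fun γ _ => by rw [rfG_rfG]
  have h1 := mem_Dm38 h
  rwa [rf_rf38, rf_rf38] at h1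

theorem fI_rf (hq : 1 ≤ q) (hρ : 0 < ρ) (x : ℤ × ℤ) : fI q ρ (rf x) = fI q ρ x := by
  have h0 : rf 0 = 0 := by
    unfold rf
    simp
  unfold fI
  by_cases hx : x = 0
  · rw [if_pos hx, hx, if_pos h0]
  · have hx' : rf x ≠ 0 := fun h => hx (by rw [← rf_rf38 x, h, h0])
    rw [if_neg hx, if_neg hx']
    have h1 := sum_Dm_rf (a := 0) (b := x) fun γ => FG q ρ 0 (rf x) γ
    rw [h0] at h1
    rw [h1]
    refine Finset.sum_congr rfl fun γ hγ => ?_
    have h2 := FG_rf (a := 0) (b := x) hq hρ (mem_Dm.1 hγ).2.2.2.2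
    rwa [h0] at h2

end Pool.Helper95.OZ
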