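import Pool.Agent.Helper95.OZ.FGm

/-!
Project OZ (MP_7e0861_pr), line L3, block OZ-L3-15: the reflection in the vertical axis.

`rx x = (-x.1, x.2)`; `Y (rx a - rx b) ↔ Y (b - a)`, so the roles of the forward and backward cones are exchanged.
`WI` by `PsiI_rfX` (`Helper49/FK/Inf.lean`).
`FG_rx`: strong induction on `γ.1.card`.  By `FG_eq` for the reflected graph (its end `rx a` is a vertex), `cps_rx`, `low_rx`,
`upp_rx`, `WI_rx` and the induction hypothesis for `upp m γ ∈ Dm m b` (fewer vertices: `a` is not in it),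
`FG (rx b) (rx a) (rxG γ) = WI γ - ∑_{m ∈ cps γ a b} FG m b (upp m γ) * WI (low m γ) = FG a b γ` by the last clause of
`FG_main`.
-/

namespace Pool.Helper95.OZ

open Pool.Helper49.FK Pool.Helper17.OZ Pool.Helper83.OZ Finset

variable {q ρ : ℝ} {a b m : ℤ × ℤ} {γ : Gr}

/-- The reflection of a point. -/
def rx (x : ℤ × ℤ) : ℤ × ℤ := (-x.1, x.2)

/-- The reflection of an edge in the vertical axis. -/
def rxE (e : Edge) : Edge := if e.2 = true then ((-e.1.1 - 1, e.1.2), true) else ((-e.1.1, e.1.2), false)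

/-- The reflection of a graph in the vertical axis. -/
noncomputable def rxG (γ : Gr) : Gr := (rfX γ.1, γ.2.image rxE)

private theorem rx_rx4 (x : ℤ × ℤ) : rx (rx x) = x := by
  unfold rx
  simp

private theorem rx_inj4 : Function.Injective rx := fun x y h => by
  rw [← rx_rx4 x, h, rx_rx4]

private theorem rxE_rxE4 (e : Edge) : rxE (rxE e) = e := by
  obtain ⟨⟨x, y⟩, b⟩ := e
  cases b <;> simp [rxE]

private theorem rxE_inj4 : Function.Injective rxE := fun x y h => by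
  rw [← rxE_rxE4 x, h, rxE_rxE4]

private theorem mem_rfX4 {V : Finset (ℤ × ℤ)} {x : ℤ × ℤ} : x ∈ rfX V ↔ rx x ∈ V := by
  unfold rfX
  rw [Finset.mem_image]
  constructor
  · rintro ⟨y, hy, rfl⟩
    have h : rx (-y.1, y.2) = y := rx_rx4 y
    rwa [h]
  · intro h
    exact ⟨rx x, h, rx_rx4 x⟩

private theorem mem_imE4 {C : Finset Edge} {e : Edge} : e ∈ C.image rxE ↔ rxE e ∈ C := by
  rw [Finset.mem_image]
  constructor
  · rintro ⟨y, hy, rfl⟩
    rwa [rxE_rxE4]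
  · intro h
    exact ⟨rxE e, h, rxE_rxE4 e⟩

private theorem ends4 (e : Edge) : ((rxE e).1 = rx e.1 ∧ tip (rxE e) = rx (tip e)) ∨
    ((rxE e).1 = rx (tip e) ∧ tip (rxE e) = rx e.1) := by
  obtain ⟨⟨x, y⟩, b⟩ := e
  cases b
  · left
    simp [rxE, tip, rx]
  · right
    simp [rxE, tip, rx]
    omega

private theorem ends4b (e : Edge) : (rx e.1 = (rxE e).1 ∧ rx (tip e) = tip (rxE e)) ∨
    (rx e.1 = tip (rxE e) ∧ rx (tip e) = (rxE e).1) := by
  rcases ends4 e with ⟨h, h'⟩ | ⟨h, h'⟩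
  · exact Or.inl ⟨h.symm, h'.symm⟩
  · exact Or.inr ⟨h'.symm, h.symm⟩

private theorem Y_rx4 (x y : ℤ × ℤ) : Y (rx x - rx y) ↔ Y (y - x) := by
  unfold Y rx
  simp only [Prod.fst_sub, Prod.snd_sub]
  rw [show -x.1 - -y.1 = y.1 - x.1 by ring, abs_sub_comm]

private theorem Y_rxl4 (x y : ℤ × ℤ) : Y (rx x - y) ↔ Y (rx y - x) := by
  have h := Y_rx4 x (rx y)
  rwa [rx_rx4] at h

private theorem Y_rxr4 (x y : ℤ × ℤ) : Y (x - rx y) ↔ Y (y - rx x) := by
  have h := Y_rx4 (rx x) y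
  rwa [rx_rx4] at h

private theorem conn_rx4 {C : Finset Edge} {x y : ℤ × ℤ} (h : Conn C x y) :
    Conn (C.image rxE) (rx x) (rx y) := by
  refine Conn.induct (S := {y | Conn (C.image rxE) (rx x) (rx y)}) h (Conn.refl _ _) fun e he => ?_
  have h2 := conn_edge (Finset.mem_image_of_mem rxE he)
  have h3 : Conn (C.image rxE) (rx e.1) (rx (tip e)) := by
    rcases ends4 e with ⟨h4, h5⟩ | ⟨h4, h5⟩
    · rwa [h4, h5] at h2
    · rw [h4, h5] at h2
      exact h2.symm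
  exact ⟨fun h => Conn.trans h h3, fun h => Conn.trans h h3.symm⟩

private theorem isClu_rx4 {V : Finset (ℤ × ℤ)} {C : Finset Edge} (h : IsClu V C) :
    IsClu (rfX V) (C.image rxE) := by
  refine ⟨fun e he => ?_, fun x hx y hy => ?_⟩
  · rw [mem_imE4] at he
    have h1 := mem_edges.1 (h.1 he)
    rw [mem_edges, mem_rfX4, mem_rfX4]
    rcases ends4b e with ⟨h4, h5⟩ | ⟨h4, h5⟩
    · rw [h4, h5]
      exact h1
    · rw [h4, h5]
      exact ⟨h1.2, h1.1⟩
  · rw [mem_rfX4] at hx hy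
    have h1 := conn_rx4 (h.2 _ hx _ hy)
    rwa [rx_rx4, rx_rx4] at h1

private theorem rxG4 : (rxG γ).1 = rfX γ.1 := rfl

private theorem rxG4' : (rxG γ).2 = γ.2.image rxE := rfl

theorem rxG_rxG : rxG (rxG γ) = γ := by
  refine Prod.ext ?_ ?_
  · ext x
    rw [rxG4, rxG4, mem_rfX4, mem_rfX4, rx_rx4]
  · ext e
    rw [rxG4', rxG4', mem_imE4, mem_imE4, rxE_rxE4]

private theorem mem_Dm4 {a b : ℤ × ℤ} {γ : Gr} (h : γ ∈ Dm a b) : rxG γ ∈ Dm (rx b) (rx a) := by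
  rw [mem_Dm] at h ⊢
  obtain ⟨h1, h2, h3, h4, h5⟩ := h
  refine ⟨isClu_rx4 h1, fun y hy => ?_, fun y hy => ?_, ?_, ?_⟩
  · rw [rxG4, mem_rfX4] at hy
    have h6 := h3 _ hy
    rwa [Y_rxr4] at h6
  · rw [rxG4, mem_rfX4] at hy
    have h6 := h2 _ hy
    rwa [Y_rxl4] at h6
  · rw [rxG4, mem_rfX4, rx_rx4]
    exact h5
  · rw [rxG4, mem_rfX4, rx_rx4]
    exact h4

theorem mem_Dm_rx : rxG γ ∈ Dm (rx b) (rx a) ↔ γ ∈ Dm a b := by
  constructor
  · intro h
    have h1 := mem_Dm4 h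
    rwa [rxG_rxG, rx_rx4, rx_rx4] at h1
  · exact mem_Dm4

theorem cps_rx : cps (rxG γ) (rx b) (rx a) = rfX (cps γ a b) := by
  ext t
  rw [mem_rfX4, mem_cps, mem_cps]
  have h1 : CP (rxG γ).1 t ↔ CP γ.1 (rx t) := by
    unfold CP Dbl
    rw [rxG4, mem_rfX4]
    refine and_congr_right fun _ => ⟨fun h y hy => ?_, fun h y hy => ?_⟩
    · have h2 := h (rx y) (by rwa [mem_rfX4, rx_rx4])
      rw [Y_rxl4 y t, Y_rxr4 t y] at h2
      exact h2.symm
    · rw [mem_rfX4] at hy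
      have h2 := h (rx y) hy
      rw [Y_rx4, Y_rx4] at h2
      exact h2.symm
  have h2 : ((rx b).1 < t.1 ∧ t.1 < (rx a).1) ↔ (a.1 < (rx t).1 ∧ (rx t).1 < b.1) := by
    unfold rx
    dsimp only
    omega
  exact and_congr h1 h2

theorem low_rx : low (rx m) (rxG γ) = rxG (upp m γ) := by
  unfold low upp
  refine Prod.ext ?_ ?_
  · ext y
    simp only [rxG4, mem_rfX4, Finset.mem_filter]
    rw [Y_rxl4 m y]
  · ext e
    simp only [rxG4', mem_imE4, Finset.mem_filter]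
    rw [Y_rxl4 m e.1, Y_rxl4 m (tip e)]
    refine and_congr_right fun _ => ?_
    rcases ends4b e with ⟨h4, h5⟩ | ⟨h4, h5⟩
    · rw [h4, h5]
    · rw [h4, h5]
      exact and_comm

theorem upp_rx : upp (rx m) (rxG γ) = rxG (low m γ) := by
  unfold low upp
  refine Prod.ext ?_ ?_
  · ext y
    simp only [rxG4, mem_rfX4, Finset.mem_filter]
    rw [Y_rxr4 y m]
  · ext e
    simp only [rxG4', mem_imE4, Finset.mem_filter]
    rw [Y_rxr4 e.1 m, Y_rxr4 (tip e) m]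
    refine and_congr_right fun _ => ?_
    rcases ends4b e with ⟨h4, h5⟩ | ⟨h4, h5⟩
    · rw [h4, h5]
    · rw [h4, h5]
      exact and_comm

theorem WI_rx (hq : 1 ≤ q) (hρ : 0 < ρ) : WI q ρ (rxG γ) = WI q ρ γ := by
  unfold WI bg
  rw [rxG4, rxG4', PsiI_rfX hq hρ.le, Finset.prod_image fun x _ y _ h => rxE_inj4 h]
  have h1 : (rfX γ.1).card = γ.1.card := by
    unfold rfX
    exact Finset.card_image_of_injective _ rx_inj4
  rw [h1]
  rfl

private theorem mem_upp4 {y : ℤ × ℤ} : y ∈ (upp m γ).1 ↔ y ∈ γ.1 ∧ Y (y - m) := by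
  simp only [upp, Finset.mem_filter]

private theorem FG_rx4 (hq : 1 ≤ q) (hρ : 0 < ρ) (hD : ExpDecay q ρ) (n : ℕ) :
    ∀ (a : ℤ × ℤ) (γ : Gr), γ.1.card = n → γ ∈ Dm a b → a ≠ b →
    FG q ρ (rx b) (rx a) (rxG γ) = FG q ρ a b γ := by
  induction n using Nat.strong_induction_on with
  | _ n ih =>
    intro a γ hn hγ hab
    have hmem := mem_Dm.1 hγ
    obtain ⟨C, lam, -, -, -, hmain⟩ := FG_main hq hρ hD
    have h4 := (hmain hγ hab).2.2.2
    have ha' : rx a ∈ (rxG γ).1 := by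
      rw [rxG4, mem_rfX4, rx_rx4]
      exact hmem.2.2.2.1
    rw [FG_eq ha', WI_rx hq hρ, cps_rx]
    have h0 : rfX (cps γ a b) = (cps γ a b).image rx := rfl
    rw [h0, Finset.sum_image fun x _ y _ h => rx_inj4 h]
    have h5 : ∑ m ∈ cps γ a b, FG q ρ (rx b) (rx m) (low (rx m) (rxG γ)) * WI q ρ (upp (rx m) (rxG γ)) =
        ∑ m ∈ cps γ a b, WI q ρ (low m γ) * FG q ρ m b (upp m γ) := by
      refine Finset.sum_congr rfl fun m hm => ?_
      rw [low_rx, upp_rx, WI_rx hq hρ, mul_comm]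
      congr 1
      have hm' := mem_cps.1 hm
      have hs := upp_spec hmem.1 hm'.1
      have hbm : Y (b - m) := hmem.2.2.1 m hm'.1.1
      have hD1 : upp m γ ∈ Dm m b := by
        rw [mem_Dm]
        exact ⟨hs.1, hs.2.2, fun y hy => hmem.2.2.1 y (mem_upp4.1 hy).1, hs.2.1,
          mem_upp4.2 ⟨hmem.2.2.2.2, hbm⟩⟩
      refine ih _ ?_ m (upp m γ) rfl hD1 ?_
      · rw [← hn]
        refine Finset.card_lt_card ⟨fun y hy => (mem_upp4.1 hy).1, fun h => ?_⟩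
        have h1 := mem_upp4.1 (h hmem.2.2.2.1)
        have h2 := Y_le h1.2
        have h3 := hm'.2.1
        omega
      · rintro rfl
        exact lt_irrefl _ hm'.2.2
    rw [h5]
    linarith

theorem FG_rx (hq : 1 ≤ q) (hρ : 0 < ρ) (hD : ExpDecay q ρ) (h : γ ∈ Dm a b) (hab : a ≠ b) :
    FG q ρ (rx b) (rx a) (rxG γ) = FG q ρ a b γ :=
  FG_rx4 hq hρ hD _ a γ rfl h hab

end Pool.Helper95.OZ
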