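import Pool.Agent.Helper95.OZ.FGm
import Pool.Agent.Helper83.OZ.Xt3

/-!
Project OZ (MP_7e0861_pr), line L3, block OZ-L3-11: exponential tail of the renewal weights.

Proof in words.  If `¬ Y x` then `Dm 0 x = ∅` and `fI x = 0`.  For `x ≠ 0` with `Y x` (then `0 < x.1`) take `N` with
`dia 0 x ⊆ box N = rect (-N) N (-N) N`; by `FG_main`
`fI x = ∑_{Dm 0 x} FG 0 x γ ≤ C ∑_{Dm 0 x} lam ^ (cps γ 0 x).card * WI γ ≤ C ∑_{Cl (box N) 0 x} lam ^ card * WD q (hom ρ) (box N) γ`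
`= C * Tz q (hom ρ) (box N) lam 0 x` (`PsiI_le`; `Dm 0 x ⊆ Cl (box N) 0 x`), and `xt` (Helper83/OZ/Xt3) with
`α = ρ`, `z = lam`.
-/

namespace Pool.Helper95.OZ

open Pool.Helper49.FK Pool.Helper83.OZ Finset
open Pool.Helper17.OZ (Y CP Dbl NoCP nd rect tau)

variable {q ρ : ℝ}

/-- The sums of the renewal parts and the sums `Tz`. -/
private theorem sum_FG_aux11 (hq : 1 ≤ q) (hρ : 0 < ρ) (hE : Pool.Helper49.FK.ExpW q ρ) :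
    ∃ C c : ℝ, 0 < C ∧ 0 < c ∧ ∀ a b : ℤ × ℤ, a ≠ b →
      ∑ γ ∈ Dm a b, FG q ρ a b γ ≤ C * Real.exp (-(tau q ρ + c) * ((b.1 : ℝ) - a.1)) := by
  classical
  obtain ⟨C₀, lam, hC₀, hl0, hl1, hm⟩ := FG_main hq hρ (Pool.Helper49.FK.ExpW.decay hq hρ hE)
  obtain ⟨C, c, hC, hc, hx⟩ := xt hq hρ le_rfl hE hl0.le hl1
  refine ⟨C₀ * C, c, by positivity, hc, ?_⟩
  intro a b hab
  by_cases hY : Y (b - a)
  swap
  · have he : Dm a b = ∅ := by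
      rw [Finset.eq_empty_iff_forall_notMem]
      intro γ hγ
      obtain ⟨_, h2, _, _, h5⟩ := mem_Dm.1 hγ
      exact hY (h2 b h5)
    rw [he, Finset.sum_empty]
    positivity
  have hlt := Y_lt hY hab
  set D : Finset (ℤ × ℤ) := rect a.1 b.1 (a.2 - 8 * (b.1 - a.1)) (a.2 + 8 * (b.1 - a.1)) with hD
  have hsub : dia a b ⊆ D := by
    unfold dia
    exact Finset.filter_subset _ _
  have haD : a ∈ D := hsub (mem_dia.2 ⟨Y_self a, hY⟩)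
  have hbD : b ∈ D := hsub (mem_dia.2 ⟨hY, Y_self b⟩)
  have h0 : (0 : ℝ) < q := by linarith
  have hr : ∀ e, 0 ≤ hom ρ e := fun _ => hρ.le
  have h1 : ∑ γ ∈ Dm a b, FG q ρ a b γ ≤ ∑ γ ∈ Dm a b, C₀ * (lam ^ (cps γ a b).card * WD q (hom ρ) D γ) := by
    refine Finset.sum_le_sum fun γ hγ => ?_
    refine (hm hγ hab).2.1.trans ?_
    rw [← mul_assoc]
    refine mul_le_mul_of_nonneg_left ?_ (by positivity)
    exact mul_le_mul_of_nonneg_left (PsiI_le hq hρ.le D γ.1) (bg_nonneg h0 hr γ)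
  have hDC : Dm a b ⊆ Cl D a b := by
    intro γ hγ
    rw [mem_Cl]
    obtain ⟨e1, e2, e3, e4, e5⟩ := mem_Dm.1 hγ
    exact ⟨fun y hy => hsub (mem_dia.2 ⟨e2 y hy, e3 y hy⟩), e1, e4, e5⟩
  have h2 : ∑ γ ∈ Dm a b, C₀ * (lam ^ (cps γ a b).card * WD q (hom ρ) D γ) ≤ C₀ * Tz q (hom ρ) D lam a b := by
    unfold Tz
    rw [Finset.mul_sum]
    refine Finset.sum_le_sum_of_subset_of_nonneg hDC fun γ _ _ => ?_
    exact mul_nonneg hC₀.le (mul_nonneg (pow_nonneg hl0.le _) (WD_nonneg h0 hr γ))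
  have h3 := hx (hom ρ) (fun _ => ⟨le_rfl, le_rfl⟩) _ _ _ _ a b haD hbD hlt
  calc ∑ γ ∈ Dm a b, FG q ρ a b γ ≤ C₀ * Tz q (hom ρ) D lam a b := h1.trans h2
    _ ≤ C₀ * (C * Real.exp (-(tau q ρ + c) * ((b.1 : ℝ) - a.1))) := mul_le_mul_of_nonneg_left h3 hC₀.le
    _ = _ := by ring

theorem fI_tail (hq : 1 ≤ q) (hρ : 0 < ρ) (hE : Pool.Helper49.FK.ExpW q ρ) :
    ∃ C c : ℝ, 0 < C ∧ 0 < c ∧ ∀ x : ℤ × ℤ, fI q ρ x ≤ C * Real.exp (-(tau q ρ + c) * x.1) := by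
  obtain ⟨C, c, hC, hc, h⟩ := sum_FG_aux11 hq hρ hE
  refine ⟨C, c, hC, hc, fun x => ?_⟩
  unfold fI
  split_ifs with hx
  · positivity
  · have h1 := h 0 x (Ne.symm hx)
    simpa using h1

/-- The tail of the sums of renewal parts from `a` to `b`. -/
theorem sum_FG_tail (hq : 1 ≤ q) (hρ : 0 < ρ) (hE : Pool.Helper49.FK.ExpW q ρ) :
    ∃ C c : ℝ, 0 < C ∧ 0 < c ∧ ∀ a b : ℤ × ℤ, a ≠ b →
      ∑ γ ∈ Dm a b, FG q ρ a b γ ≤ C * Real.exp (-(tau q ρ + c) * ((b.1 : ℝ) - a.1)) :=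
  sum_FG_aux11 hq hρ hE

end Pool.Helper95.OZ
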