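import Pool.Agent.Helper49.OZ.ChSum
import Pool.Agent.Helper49.OZ.WalkMain
import Pool.Agent.Helper95.OZ.Rfx
import Pool.Agent.Helper95.OZ.Rfl
import Pool.Agent.Helper95.OZ.Pos
import Pool.Agent.Helper95.OZ.Abs
import Pool.Agent.Helper95.OZ.Low
import Pool.Agent.Helper95.OZ.Gap
import Pool.Agent.Helper95.OZ.Tail

/-!
Project OZ (MP_7e0861_pr), line L3: final assembly.
-/

namespace Pool.Helper95.OZ

open Pool.Helper49.FK Pool.Helper83.OZ Finset
open Pool.Helper17.OZ (Y CP Dbl NoCP nd rect tau)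
open Pool.Agent.Helper49.OZ (DmU Ren IsKer KerOk)
open Pool.Agent.Helper18.WK (Law Ker K0)

variable {q ρ : ℝ}

theorem mem_DmU95 {a b : ℤ × ℤ} {γ : Gr} : γ ∈ DmU a b ↔ γ ∈ Dm a b ∧ ∀ y ∈ γ.1, 1 ≤ y.2 := by
  classical
  unfold DmU
  rw [Finset.mem_filter]

theorem mem_tr95 {v y : ℤ × ℤ} {V : Finset (ℤ × ℤ)} : y ∈ tr v V ↔ y - v ∈ V := by
  unfold tr
  rw [Finset.mem_map]
  constructor
  · rintro ⟨x, hx, h⟩
    have : y = x + v := by rw [← h]; rfl
    rw [this, add_sub_cancel_right]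
    exact hx
  · intro h
    exact ⟨y - v, h, by simp⟩

theorem sum_DmU_tr (v a b : ℤ × ℤ) (hv : v.2 = 0) (F : Gr → ℝ) :
    ∑ γ ∈ DmU (a + v) (b + v), F γ = ∑ γ ∈ DmU a b, F (trG v γ) := by
  classical
  unfold DmU
  rw [Finset.sum_filter, Finset.sum_filter, sum_Dm_tr]
  refine Finset.sum_congr rfl fun γ _ => ?_
  have : (∀ y ∈ (trG v γ).1, 1 ≤ y.2) ↔ ∀ y ∈ γ.1, 1 ≤ y.2 := by
    constructor
    · intro h y hy
      have := h (y + v) (mem_tr95.2 (by rwa [add_sub_cancel_right]))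
      simpa [hv] using this
    · intro h y hy
      have := h _ (mem_tr95.1 hy)
      simpa [hv] using this
  by_cases h : ∀ y ∈ γ.1, 1 ≤ y.2
  · rw [if_pos h, if_pos (this.2 h)]
  · rw [if_neg h, if_neg (fun h' => h (this.1 h'))]

theorem mem_rfX95 {y : ℤ × ℤ} {V : Finset (ℤ × ℤ)} : y ∈ rfX V ↔ rx y ∈ V := by
  unfold rfX
  rw [Finset.mem_image]
  constructor
  · rintro ⟨x, hx, h⟩
    rw [← h]
    simpa [rx] using hx
  · intro h
    exact ⟨rx y, h, by simp [rx]⟩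

theorem rx_rx (x : ℤ × ℤ) : rx (rx x) = x := by simp [rx]

theorem sum_DmU_rx (a b : ℤ × ℤ) (F : Gr → ℝ) :
    ∑ γ ∈ DmU (rx b) (rx a), F γ = ∑ γ ∈ DmU a b, F (rxG γ) := by
  classical
  have hrow : ∀ γ : Gr, (∀ y ∈ (rxG γ).1, 1 ≤ y.2) ↔ ∀ y ∈ γ.1, 1 ≤ y.2 := by
    intro γ
    constructor
    · intro h y hy
      have := h (rx y) (mem_rfX95.2 (by rwa [rx_rx]))
      simpa [rx] using this
    · intro h y hy
      have := h _ (mem_rfX95.1 hy)
      simpa [rx] using this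
  refine Finset.sum_nbij' rxG rxG ?_ ?_ ?_ ?_ ?_
  · intro γ hγ
    rw [mem_DmU95] at hγ ⊢
    refine ⟨?_, (hrow γ).2 hγ.2⟩
    have := (mem_Dm_rx (a := a) (b := b) (γ := rxG γ)).1 (by rw [rxG_rxG]; exact hγ.1)
    exact this
  · intro γ hγ
    rw [mem_DmU95] at hγ ⊢
    exact ⟨mem_Dm_rx.2 hγ.1, (hrow γ).2 hγ.2⟩
  · intro γ _
    exact rxG_rxG
  · intro γ _
    exact rxG_rxG
  · intro γ _
    rw [rxG_rxG]

/-- The kernel. -/
noncomputable def kerK (q ρ : ℝ) : Ker := fun x l z =>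
  if l = 0 then 0 else ENNReal.ofReal (Real.exp (tau q ρ * l) *
    ∑ γ ∈ DmU (0, x) ((l : ℤ), z), FG q ρ (0, x) ((l : ℤ), z) γ)

theorem isKer (hq : 1 ≤ q) (hρ : 0 < ρ) : IsKer (kerK q ρ) (FG q ρ) (tau q ρ) := by
  intro t x z l hl
  unfold kerK
  rw [if_neg (by omega)]
  congr 2
  have e1 : ((t, x) : ℤ × ℤ) = (0, x) + (t, 0) := by simp
  have e2 : ((t + l, z) : ℤ × ℤ) = ((l : ℤ), z) + (t, 0) := by ext <;> simp [add_comm]
  rw [e1, e2, sum_DmU_tr _ _ _ rfl]
  refine Finset.sum_congr rfl fun γ hγ => ?_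
  rw [FG_tr _ hq hρ (mem_Dm.1 (mem_DmU95.1 hγ).1).2.2.2.2]

theorem ne_of_len {l : ℕ} (hl : l ≠ 0) (x z : ℤ) : ((0, x) : ℤ × ℤ) ≠ ((l : ℤ), z) := by
  intro h
  have := congrArg Prod.fst h
  simp only at this
  omega

theorem FG_nn (hq : 1 ≤ q) (hρ : 0 < ρ) (hD : ExpDecay q ρ) {a b : ℤ × ℤ} {γ : Gr} (h : γ ∈ Dm a b) (hab : a ≠ b) :
    0 ≤ FG q ρ a b γ := by
  obtain ⟨_, _, _, _, _, hm⟩ := FG_main hq hρ hD
  exact (hm h hab).1

theorem sum_Dm_FG (hq : 1 ≤ q) (hρ : 0 < ρ) {l : ℕ} (hl : l ≠ 0) (x z : ℤ) :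
    ∑ γ ∈ Dm (0, x) ((l : ℤ), z), FG q ρ (0, x) ((l : ℤ), z) γ = fI q ρ ((l : ℤ), z - x) := by
  rw [sum_FG_eq hq hρ (ne_of_len hl x z)]
  have e : (((l : ℤ), z) : ℤ × ℤ) - (0, x) = ((l : ℤ), z - x) := by simp
  rw [e]

theorem kerK_symm (hq : 1 ≤ q) (hρ : 0 < ρ) (hD : ExpDecay q ρ) (x : ℤ) (l : ℕ) (z : ℤ) :
    kerK q ρ x l z = kerK q ρ z l x := by
  unfold kerK
  by_cases hl : l = 0
  · rw [if_pos hl, if_pos hl]
  · rw [if_neg hl, if_neg hl]
    congr 2
    have h1 : ∑ γ ∈ DmU (0, z) ((l : ℤ), x), FG q ρ (0, z) ((l : ℤ), x) γ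
        = ∑ γ ∈ DmU (-(l : ℤ), z) (0, x), FG q ρ (-(l : ℤ), z) (0, x) γ := by
      have e1 : ((0, z) : ℤ × ℤ) = (-(l : ℤ), z) + ((l : ℤ), 0) := by simp
      have e2 : (((l : ℤ), x) : ℤ × ℤ) = (0, x) + ((l : ℤ), 0) := by simp
      rw [e1, e2, sum_DmU_tr _ _ _ rfl]
      refine Finset.sum_congr rfl fun γ hγ => ?_
      rw [FG_tr _ hq hρ (mem_Dm.1 (mem_DmU95.1 hγ).1).2.2.2.2]
    have e3 : ((-(l : ℤ), z) : ℤ × ℤ) = rx ((l : ℤ), z) := by simp [rx]
    have e4 : ((0, x) : ℤ × ℤ) = rx (0, x) := by simp [rx]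
    rw [h1, e3]
    conv_rhs => rw [e4]
    rw [sum_DmU_rx]
    refine Finset.sum_congr rfl fun γ hγ => ?_
    have := FG_rx hq hρ hD (mem_DmU95.1 hγ).1 (ne_of_len hl x z)
    rw [← this]

theorem f_hasSum (hq : 1 ≤ q) (hρ : 0 < ρ) (hE : Pool.Helper49.FK.ExpW q ρ) :
    HasSum (fun p : ℕ × ℤ => fI q ρ ((p.1 : ℤ), p.2) * Real.exp (tau q ρ * p.1)) 1 := by
  have hD := Pool.Helper49.FK.ExpW.decay hq hρ hE
  obtain ⟨C, c, hC, hc, hf⟩ := fI_tail hq hρ hE
  have h := abs_nor (τ := tau q ρ) (C := C) (c := c) (U := UI q ρ) (f := fI q ρ) UI_zero (UI_nonneg hq hρ)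
    (fI_nonneg hq hρ hD) (fun x hx => UI_eq_zero hx) (fun x hx => fI_eq_zero hx) fI_zero
    (fun x hx => UI_rec hq hρ hx) (UI_le hq hρ) hc hf (fun η hη => UI_low hq hρ hE hη 1)
  have hi : Function.Injective (fun p : ℕ × ℤ => (((p.1 : ℤ), p.2) : ℤ × ℤ)) := by
    rintro ⟨a, b⟩ ⟨a', b'⟩ h
    simp only [Prod.mk.injEq, Nat.cast_inj] at h
    exact Prod.ext h.1 h.2
  have h2 := (hi.hasSum_iff (f := fun x : ℤ × ℤ => fI q ρ x * Real.exp (tau q ρ * x.1)) (a := 1) (by
    intro x hx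
    have : ¬ Y x := by
      intro hY
      apply hx
      have h3 := Y_nonneg hY
      exact ⟨(x.1.toNat, x.2), by ext <;> simp [Int.toNat_of_nonneg h3]⟩
    rw [fI_eq_zero this, zero_mul])).2 h
  have h3 : (fun p : ℕ × ℤ => fI q ρ ((p.1 : ℤ), p.2) * Real.exp (tau q ρ * p.1))
      = (fun x : ℤ × ℤ => fI q ρ x * Real.exp (tau q ρ * x.1)) ∘ fun p : ℕ × ℤ => (((p.1 : ℤ), p.2) : ℤ × ℤ) := by
    funext p
    simp
  rw [h3]
  exact h2

theorem ren (hq : 1 ≤ q) (hρ : 0 < ρ) (hD : ExpDecay q ρ) : Ren (W1 q ρ) (FG q ρ) where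
  W_nonneg γ := by
    unfold W1
    split_ifs
    · exact zero_le_one
    · exact (WI_pos hq hρ γ).le
  F_nonneg a b hab γ hγ := FG_nn hq hρ hD hγ (fun h => by rw [h] at hab; exact lt_irrefl _ hab)
  W_one a γ hγ := by
    rw [Dm_self, Finset.mem_singleton] at hγ
    rw [hγ]
    simp [W1]
  step a b hab γ hγ := by
    have hne : a ≠ b := fun h => by rw [h] at hab; exact lt_irrefl _ hab
    have hb := (mem_Dm.1 hγ).2.2.2.2
    have h1 : W1 q ρ γ = WI q ρ γ := by
      unfold W1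
      rw [if_neg (Dm_edges_ne hγ hne)]
    rw [h1, FG_eq hb]
    have h2 : ∀ m ∈ cps γ a b, W1 q ρ (upp m γ) = WI q ρ (upp m γ) := by
      intro m hm
      have hm' := mem_cps.1 hm
      have h3 := mem_Dm.1 hγ
      have h4 := upp_spec h3.1 hm'.1
      have h5 : upp m γ ∈ Dm m b := by
        rw [mem_Dm]
        refine ⟨h4.1, h4.2.2, ?_, h4.2.1, ?_⟩
        · intro y hy
          classical
          have : y ∈ γ.1 := (Finset.mem_filter.1 hy).1
          exact h3.2.2.1 y this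
        · classical
          refine Finset.mem_filter.2 ⟨hb, ?_⟩
          have := h3.2.2.1 m hm'.1.1
          exact this
      unfold W1
      rw [if_neg (Dm_edges_ne h5 (fun h => by rw [h] at hm'; exact lt_irrefl _ hm'.2.2))]
    have h6 : ∑ m ∈ cps γ a b, FG q ρ a m (low m γ) * W1 q ρ (upp m γ)
        = ∑ m ∈ cps γ a b, FG q ρ a m (low m γ) * WI q ρ (upp m γ) :=
      Finset.sum_congr rfl fun m hm => by rw [h2 m hm]
    rw [h6]
    ring

theorem kerK_ge_of_mem (hq : 1 ≤ q) (hρ : 0 < ρ) (hD : ExpDecay q ρ) {x z : ℤ} {l : ℕ} (hl : l ≠ 0) {γ : Gr}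
    (hγ : γ ∈ DmU (0, x) ((l : ℤ), z)) :
    ENNReal.ofReal (Real.exp (tau q ρ * l) * FG q ρ (0, x) ((l : ℤ), z) γ) ≤ kerK q ρ x l z := by
  unfold kerK
  rw [if_neg hl]
  refine ENNReal.ofReal_le_ofReal (mul_le_mul_of_nonneg_left ?_ (Real.exp_pos _).le)
  exact Finset.single_le_sum (f := fun γ => FG q ρ (0, x) ((l : ℤ), z) γ)
    (fun γ' hγ' => FG_nn hq hρ hD (mem_DmU95.1 hγ').1 (ne_of_len hl x z)) hγ

theorem ren_full {q ρ : ℝ} (hq : 1 ≤ q) (hρ : 0 < ρ) (hE : Pool.Helper49.FK.ExpW q ρ) :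
    ∃ (F : Law) (K : Ker), Ren (W1 q ρ) (FG q ρ) ∧ IsKer K (FG q ρ) (tau q ρ) ∧ KerOk F K ∧
      (∀ (l : ℕ) (h : ℤ), F.f l h = fI q ρ ((l : ℤ), h) * Real.exp (tau q ρ * l)) ∧
      (∀ (a b : ℤ × ℤ), a ≠ b → ∀ γ ∈ Dm a b, 0 ≤ FG q ρ a b γ) := by
  have hD := Pool.Helper49.FK.ExpW.decay hq hρ hE
  obtain ⟨C, c, hC, hc, hf⟩ := fI_tail hq hρ hE
  obtain ⟨C', c', hC', hc', hf'⟩ := sum_FG_tail hq hρ hE
  have hYf : ∀ (l : ℕ) (h : ℤ), ¬ |h| ≤ 8 * (l : ℤ) → fI q ρ ((l : ℤ), h) = 0 := fun l h hh =>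
    fI_eq_zero (fun hY => hh hY)
  let F : Law :=
    { f := fun l h => fI q ρ ((l : ℤ), h) * Real.exp (tau q ρ * l)
      B := C
      a := c / 9
      l0 := 2
      f_zero := by
        intro h
        have : fI q ρ (((0 : ℕ) : ℤ), h) = 0 := by
          by_cases hh : h = 0
          · subst hh; exact fI_zero
          · refine hYf 0 h ?_
            intro h'
            apply hh
            have := abs_nonneg h
            exact abs_eq_zero.1 (by push_cast at h'; omega)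
        rw [this, zero_mul]
      f_nonneg := fun l h => mul_nonneg (fI_nonneg hq hρ hD _) (Real.exp_pos _).le
      f_sum := f_hasSum hq hρ hE
      f_symm := by
        intro l h
        have := fI_rf hq hρ ((l : ℤ), h)
        unfold rf at this
        rw [this]
      a_pos := by positivity
      B_pos := hC
      f_tail := by
        intro l h
        by_cases hh : |h| ≤ 8 * (l : ℤ)
        · have h1 := hf ((l : ℤ), h)
          have h2 : (|(h : ℝ)|) ≤ 8 * l := by exact_mod_cast hh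
          calc fI q ρ ((l : ℤ), h) * Real.exp (tau q ρ * l)
              ≤ C * Real.exp (-(tau q ρ + c) * l) * Real.exp (tau q ρ * l) := by
                refine mul_le_mul_of_nonneg_right ?_ (Real.exp_pos _).le
                simpa using h1
            _ = C * Real.exp (-c * l) := by
                rw [mul_assoc, ← Real.exp_add]; congr 2; ring
            _ ≤ C * Real.exp (-(c / 9) * (l + |(h : ℝ)|)) := by
                refine mul_le_mul_of_nonneg_left (Real.exp_le_exp.2 ?_) hC.le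
                nlinarith
        · rw [hYf l h hh, zero_mul]
          positivity
      f_one := by
        have := fI_one_pos (q := q) (ρ := ρ) hq hρ
        have h1 := Real.exp_pos (tau q ρ * (1 : ℕ))
        simpa using mul_pos this h1
      f_l0 := by
        have := (fI_two_pos hq hρ hD).1
        have h1 := Real.exp_pos (tau q ρ * (2 : ℕ))
        simpa using mul_pos this h1
      f_l01 := by
        have := (fI_two_pos hq hρ hD).2
        have h1 := Real.exp_pos (tau q ρ * (2 : ℕ))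
        simpa using mul_pos this h1 }
  refine ⟨F, kerK q ρ, ren hq hρ hD, isKer hq hρ, ?_, fun l h => rfl, fun a b hab γ hγ => FG_nn hq hρ hD hγ hab⟩
  constructor
  · -- le
    intro x l z
    unfold kerK K0
    by_cases hl : l = 0
    · rw [if_pos hl]; exact zero_le
    · rw [if_neg hl]
      refine ENNReal.ofReal_le_ofReal ?_
      change _ ≤ fI q ρ ((l : ℤ), z - x) * Real.exp (tau q ρ * l)
      rw [mul_comm, ← sum_Dm_FG hq hρ hl x z]
      refine mul_le_mul_of_nonneg_right ?_ (Real.exp_pos _).le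
      refine Finset.sum_le_sum_of_subset_of_nonneg (fun γ hγ => (mem_DmU95.1 hγ).1) fun γ hγ _ =>
        FG_nn hq hρ hD hγ (ne_of_len hl x z)
  · -- zero
    intro x l z hxz
    unfold kerK
    by_cases hl : l = 0
    · rw [if_pos hl]
    · rw [if_neg hl]
      have : DmU (0, x) ((l : ℤ), z) = ∅ := by
        rw [Finset.eq_empty_iff_forall_notMem]
        intro γ hγ
        obtain ⟨h1, h2⟩ := mem_DmU95.1 hγ
        have h3 := (mem_Dm.1 h1).2.2.2
        have h4 := h2 _ h3.1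
        have h5 := h2 _ h3.2
        simp only at h4 h5
        omega
      rw [this, Finset.sum_empty, mul_zero, ENNReal.ofReal_zero]
  · -- symm
    exact kerK_symm hq hρ hD
  · -- flat
    intro x hx
    unfold kerK
    rw [if_neg one_ne_zero]
    have e0 : ((((1 : ℕ) : ℤ), x) : ℤ × ℤ) = (0, x) + (1, 0) := by simp
    have e1 : DmU (0, x) ((0, x) + (1, 0)) = {one1 (0, x)} := by
      ext γ
      rw [mem_DmU95, Dm_one, Finset.mem_singleton]
      constructor
      · exact fun h => h.1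
      · intro h
        refine ⟨h, ?_⟩
        rw [h]
        intro y hy
        simp only [one1, Finset.mem_insert, Finset.mem_singleton] at hy
        rcases hy with rfl | rfl
        · exact hx
        · simpa using hx
    rw [e0, e1, Finset.sum_singleton, FG_one, WI_one1 hq hρ]
    change _ = ENNReal.ofReal (fI q ρ (((1 : ℕ) : ℤ), 0) * Real.exp (tau q ρ * ((1 : ℕ) : ℝ)))
    have e2 : fI q ρ (((1 : ℕ) : ℤ), 0) = WI q ρ (one1 0) := by
      unfold fI
      have e4 : ((((1 : ℕ) : ℤ), (0 : ℤ)) : ℤ × ℤ) = 0 + (1, 0) := by simp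
      rw [e4, if_neg (by simp [Prod.ext_iff]), Dm_one, Finset.sum_singleton, FG_one]
    rw [e2, mul_comm]
  · -- up
    have hp1 := WI_pos hq hρ (flat2 0)
    have hp2 := WI_pos hq hρ (up2 0)
    refine ⟨Real.exp (tau q ρ * ((2 : ℕ) : ℝ)) * min (WI q ρ (flat2 0)) (WI q ρ (up2 0)),
      mul_pos (Real.exp_pos _) (lt_min hp1 hp2), ?_⟩
    intro x hx
    constructor
    · change _ ≤ kerK q ρ x 2 x
      have e0 : ((((2 : ℕ) : ℤ), x) : ℤ × ℤ) = (0, x) + (2, 0) := by simp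
      have hmem : flat2 (0, x) ∈ DmU (0, x) (((2 : ℕ) : ℤ), x) := by
        rw [mem_DmU95, e0]
        refine ⟨flat2_mem _, ?_⟩
        intro y hy
        simp only [flat2, Finset.mem_insert, Finset.mem_singleton] at hy
        rcases hy with rfl | rfl | rfl | rfl <;> simp <;> omega
      refine le_trans (ENNReal.ofReal_le_ofReal ?_) (kerK_ge_of_mem hq hρ hD two_ne_zero hmem)
      have e5 := WI_flat2 hq hρ (0, x)
      rw [e0, FG_flat2, e5]
      exact mul_le_mul_of_nonneg_left (min_le_left _ _) (Real.exp_pos _).le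
    · change _ ≤ kerK q ρ x 2 (x + 1)
      have e0 : ((((2 : ℕ) : ℤ), x + 1) : ℤ × ℤ) = (0, x) + (2, 1) := by simp
      have hmem : up2 (0, x) ∈ DmU (0, x) (((2 : ℕ) : ℤ), x + 1) := by
        rw [mem_DmU95, e0]
        refine ⟨up2_mem _, ?_⟩
        intro y hy
        simp only [up2, Finset.mem_insert, Finset.mem_singleton] at hy
        rcases hy with rfl | rfl | rfl | rfl <;> simp <;> omega
      refine le_trans (ENNReal.ofReal_le_ofReal ?_) (kerK_ge_of_mem hq hρ hD two_ne_zero hmem)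
      have e5 := WI_up2 hq hρ (0, x)
      rw [e0, FG_up2, e5]
      exact mul_le_mul_of_nonneg_left (min_le_right _ _) (Real.exp_pos _).le
  · -- near
    refine ⟨C', c' / 17, by positivity, ?_⟩
    intro x l z hx hz
    change ENNReal.ofReal (fI q ρ ((l : ℤ), z - x) * Real.exp (tau q ρ * l) - _) ≤ _
    by_cases hl : l = 0
    · have h0 : fI q ρ ((l : ℤ), z - x) * Real.exp (tau q ρ * l) = 0 := by
        have := F.f_zero (z - x)
        rw [hl]
        exact this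
      rw [h0, zero_sub, ENNReal.ofReal_of_nonpos (by
        rw [Left.neg_nonpos_iff]; positivity)]
      exact zero_le
    · unfold kerK
      rw [if_neg hl, ← sum_Dm_FG hq hρ hl x z]
      refine ENNReal.ofReal_le_ofReal ?_
      have hsum : ∑ γ ∈ DmU (0, x) ((l : ℤ), z), FG q ρ (0, x) ((l : ℤ), z) γ ≥ 0 :=
        Finset.sum_nonneg fun γ hγ => FG_nn hq hρ hD (mem_DmU95.1 hγ).1 (ne_of_len hl x z)
      by_cases hall : ∀ γ ∈ Dm (0, x) ((l : ℤ), z), γ ∈ DmU (0, x) ((l : ℤ), z)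
      · have e : DmU (0, x) ((l : ℤ), z) = Dm (0, x) ((l : ℤ), z) := by
          ext γ
          exact ⟨fun h => (mem_DmU95.1 h).1, hall γ⟩
        rw [e, mul_comm]
        have : 0 ≤ C' * Real.exp (-(c' / 17) * (x + l + |(z : ℝ) - x|)) := by positivity
        linarith
      · push Not at hall
        obtain ⟨γ, hγ, hγ'⟩ := hall
        rw [mem_DmU95] at hγ'
        push Not at hγ'
        obtain ⟨y, hy, hy2⟩ := hγ' hγ
        have hm := mem_Dm.1 hγ
        have h1 := hm.2.1 y hy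
        have h2 := hm.2.2.1 y hy
        have h3 := hm.2.2.1 _ hm.2.2.2.1
        unfold Y at h1 h2 h3
        simp only [Prod.fst_sub, Prod.snd_sub] at h1 h2 h3
        rw [abs_le] at h1 h2
        have h4 : x ≤ 8 * (l : ℤ) := by omega
        have h5 : |z - x| ≤ 8 * (l : ℤ) := by omega
        have h4' : (x : ℝ) ≤ 8 * l := by exact_mod_cast h4
        have h5' : |(z : ℝ) - x| ≤ 8 * l := by exact_mod_cast h5
        have h6 := hf' (0, x) ((l : ℤ), z) (ne_of_len hl x z)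
        have h7 : Real.exp (tau q ρ * l) * ∑ γ ∈ Dm (0, x) ((l : ℤ), z), FG q ρ (0, x) ((l : ℤ), z) γ
            ≤ C' * Real.exp (-(c' / 17) * (x + l + |(z : ℝ) - x|)) := by
          calc _ ≤ Real.exp (tau q ρ * l) * (C' * Real.exp (-(tau q ρ + c') * l)) := by
                refine mul_le_mul_of_nonneg_left ?_ (Real.exp_pos _).le
                simpa using h6
            _ = C' * Real.exp (-c' * l) := by
                rw [mul_left_comm, ← Real.exp_add]; congr 2; ring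
            _ ≤ _ := by
                refine mul_le_mul_of_nonneg_left (Real.exp_le_exp.2 ?_) hC'.le
                nlinarith
        have h8 : 0 ≤ Real.exp (tau q ρ * l) * ∑ γ ∈ DmU (0, x) ((l : ℤ), z), FG q ρ (0, x) ((l : ℤ), z) γ :=
          mul_nonneg (Real.exp_pos _).le hsum
        linarith [mul_comm (Real.exp (tau q ρ * l)) (∑ γ ∈ Dm (0, x) ((l : ℤ), z), FG q ρ (0, x) ((l : ℤ), z) γ)]

end Pool.Helper95.OZ
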