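import Pool.Agent.Helper95.OZ.Def

/-!
Project OZ (MP_7e0861_pr), line L3, block OZ-L3-5: the cone points of a diamond graph in order, and the segments.

* `exists_enum`: the points of `{a, b} ∪ cps γ a b` are cone points of `γ` (for `a`: all vertices are in `a + Y`)
  in different columns (`cp_col`), with columns between `a.1` and `b.1`; enumerate them by increasing column.
* `seg`: if `s, t` are cone points of `γ` (or `s = a`, `t = b`) with `s.1 ≤ t.1`, then `upp s γ` is connected and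
  contains `s`, `t` is a cone point of it (`upp_spec`, `Jn.cp_right`), so `seg s t γ = low t (upp s γ) ∈ Dm s t`; its
  vertices are the vertices `y` of `γ` with `Y (y - s)` and `Y (t - y)`.  `seg_join`: `join_low_upp` for the cone
  point `m` of `seg s t γ`, `low m (seg s t γ) = seg s m γ`, `upp m (seg s t γ) = seg m t γ` (all are filters of
  `γ`; use `Y_trans`).  Cone points of `seg s t γ` strictly inside are the cone points of `γ` strictly between
  (`Jn.cp_left`, `Jn.cp_right`).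
-/

namespace Pool.Helper95.OZ

open Pool.Helper49.FK Pool.Helper17.OZ Pool.Helper83.OZ Finset

variable {a b s t m : ℤ × ℤ} {γ : Gr}

private theorem low1 {y : ℤ × ℤ} : y ∈ (low t γ).1 ↔ y ∈ γ.1 ∧ Y (t - y) := by
  unfold low
  simp only [Finset.mem_filter]

private theorem low2 {e : Edge} : e ∈ (low t γ).2 ↔ e ∈ γ.2 ∧ Y (t - e.1) ∧ Y (t - tip e) := by
  unfold low
  simp only [Finset.mem_filter]

private theorem upp1 {y : ℤ × ℤ} : y ∈ (upp t γ).1 ↔ y ∈ γ.1 ∧ Y (y - t) := by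
  unfold upp
  simp only [Finset.mem_filter]

private theorem upp2 {e : Edge} : e ∈ (upp t γ).2 ↔ e ∈ γ.2 ∧ Y (e.1 - t) ∧ Y (tip e - t) := by
  unfold upp
  simp only [Finset.mem_filter]

private theorem tip_neS (e : Edge) : tip e ≠ e.1 := by
  intro h
  unfold tip at h
  split_ifs at h
  · have := congrArg Prod.fst h
    simp at this
  · have := congrArg Prod.snd h
    simp at this

private theorem mem_edgesS {V : Finset (ℤ × ℤ)} {e : Edge} : e ∈ edges V ↔ e.1 ∈ V ∧ tip e ∈ V := by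
  unfold edges
  rw [Finset.mem_filter, Finset.mem_product]
  constructor
  · exact fun h => ⟨h.1.1, h.2⟩
  · exact fun h => ⟨⟨h.1, Finset.mem_univ _⟩, h.2⟩

private theorem cp_upp (hs : CP γ.1 s) (ht : CP γ.1 t) (hst : s.1 ≤ t.1) : CP (upp s γ).1 t :=
  ⟨upp1.2 ⟨ht.1, cp_Y hs ht hst⟩, fun y hy => ht.2 y (upp1.1 hy).1⟩

private theorem seg_edge {e : Edge} :
    e ∈ (seg s t γ).2 ↔ e ∈ γ.2 ∧ Y (e.1 - s) ∧ Y (tip e - s) ∧ Y (t - e.1) ∧ Y (t - tip e) := by
  unfold seg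
  rw [low2, upp2]
  tauto

theorem seg_vert {y : ℤ × ℤ} : y ∈ (seg s t γ).1 ↔ y ∈ γ.1 ∧ Y (y - s) ∧ Y (t - y) := by
  unfold seg
  rw [low1, upp1, and_assoc]

theorem cp_start (h : γ ∈ Dm a b) : CP γ.1 a := by
  obtain ⟨_, h2, _, h4, _⟩ := mem_Dm.1 h
  exact ⟨h4, fun y hy => Or.inl (h2 y hy)⟩

theorem cp_end (h : γ ∈ Dm a b) : CP γ.1 b := by
  obtain ⟨_, _, h3, _, h5⟩ := mem_Dm.1 h
  exact ⟨h5, fun y hy => Or.inr (h3 y hy)⟩

open Classical in
theorem exists_enum (h : γ ∈ Dm a b) (hab : a ≠ b) : ∃ (k : ℕ) (t : ℕ → ℤ × ℤ), 1 ≤ k ∧ t 0 = a ∧ t k = b ∧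
    (∀ i j, i < j → j ≤ k → (t i).1 < (t j).1) ∧ (∀ i ≤ k, CP γ.1 (t i)) ∧
    cps γ a b = (Ioo 0 k).image t ∧ (cps γ a b).card + 1 = k := by
  have ha := cp_start h
  have hb := cp_end h
  have hlt : a.1 < b.1 := Y_lt ((mem_Dm.1 h).2.1 b hb.1) hab
  set S : Finset (ℤ × ℤ) := insert a (insert b (cps γ a b)) with hS
  have hS1 : ∀ x ∈ S, CP γ.1 x ∧ a.1 ≤ x.1 ∧ x.1 ≤ b.1 := by
    intro x hx
    rw [hS, Finset.mem_insert, Finset.mem_insert] at hx
    rcases hx with rfl | rfl | hx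
    · exact ⟨ha, le_refl _, hlt.le⟩
    · exact ⟨hb, hlt.le, le_refl _⟩
    · have h1 := mem_cps.1 hx
      exact ⟨h1.1, h1.2.1.le, h1.2.2.le⟩
  have haS : a ∈ S := by rw [hS]; exact Finset.mem_insert_self _ _
  have hbS : b ∈ S := by rw [hS]; exact Finset.mem_insert_of_mem (Finset.mem_insert_self _ _)
  have hcS : ∀ x ∈ cps γ a b, x ∈ S := fun x hx => by
    rw [hS]; exact Finset.mem_insert_of_mem (Finset.mem_insert_of_mem hx)
  have hbn : b ∉ cps γ a b := fun hx => absurd (mem_cps.1 hx).2.2 (lt_irrefl _)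
  have han : a ∉ insert b (cps γ a b) := by
    rw [Finset.mem_insert]
    rintro (hx | hx)
    · exact hab hx
    · exact absurd (mem_cps.1 hx).2.1 (lt_irrefl _)
  have hcard : S.card = (cps γ a b).card + 2 := by
    rw [hS, Finset.card_insert_of_notMem han, Finset.card_insert_of_notMem hbn]
  have hinj : ∀ x ∈ S, ∀ y ∈ S, x.1 = y.1 → x = y := fun x hx y hy hxy =>
    cp_col (hS1 x hx).1 (hS1 y hy).1 hxy
  set k : ℕ := (cps γ a b).card + 1 with hk
  have hC : (S.image Prod.fst).card = k + 1 := by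
    rw [Finset.card_image_of_injOn (fun x hx y hy hxy => hinj x hx y hy hxy), hcard]
  have hex : ∀ i : ℕ, ∃ p : ℤ × ℤ, ∀ hi : i < k + 1,
      p ∈ S ∧ p.1 = (S.image Prod.fst).orderEmbOfFin hC ⟨i, hi⟩ := by
    intro i
    by_cases hi : i < k + 1
    · have h1 := Finset.orderEmbOfFin_mem (S.image Prod.fst) hC ⟨i, hi⟩
      obtain ⟨p, hp, hp2⟩ := Finset.mem_image.1 h1
      exact ⟨p, fun _ => ⟨hp, hp2⟩⟩
    · exact ⟨a, fun h => absurd h hi⟩
  choose t ht using hex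
  have hsurj : ∀ x ∈ S, ∃ i, i < k + 1 ∧ t i = x := by
    intro x hx
    have h1 : x.1 ∈ S.image Prod.fst := Finset.mem_image_of_mem _ hx
    have h2 : x.1 ∈ Set.range ((S.image Prod.fst).orderEmbOfFin hC) := by
      rw [Finset.range_orderEmbOfFin]; exact_mod_cast h1
    obtain ⟨i, hi⟩ := h2
    refine ⟨i.1, i.2, ?_⟩
    have h3 := ht i.1 i.2
    exact hinj _ h3.1 _ hx (by rw [h3.2]; exact hi)
  have hmono : ∀ i j, i < j → j ≤ k → (t i).1 < (t j).1 := by
    intro i j hij hj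
    rw [(ht i (by omega)).2, (ht j (by omega)).2]
    exact ((S.image Prod.fst).orderEmbOfFin hC).strictMono (by exact hij)
  have h0 : t 0 = a := by
    obtain ⟨i, hi, hia⟩ := hsurj a haS
    rcases Nat.eq_zero_or_pos i with h1 | h1
    · rw [← h1]; exact hia
    · have h2 := hmono 0 i h1 (by omega)
      have h3 := (hS1 _ (ht 0 (by omega)).1).2.1
      rw [hia] at h2
      omega
  have h1k : t k = b := by
    obtain ⟨i, hi, hia⟩ := hsurj b hbS
    rcases Nat.lt_or_ge i k with h1 | h1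
    · have h2 := hmono i k h1 le_rfl
      have h3 := (hS1 _ (ht k (by omega)).1).2.2
      rw [hia] at h2
      omega
    · have : i = k := by omega
      rw [← this]; exact hia
  refine ⟨k, t, by omega, h0, h1k, hmono, fun i hi => (hS1 _ (ht i (by omega)).1).1, ?_, rfl⟩
  ext x
  rw [Finset.mem_image]
  constructor
  · intro hx
    obtain ⟨i, hi, hix⟩ := hsurj x (hcS x hx)
    have h2 := mem_cps.1 hx
    refine ⟨i, ?_, hix⟩
    rw [Finset.mem_Ioo]
    constructor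
    · rcases Nat.eq_zero_or_pos i with h3 | h3
      · rw [h3, h0] at hix
        rw [hix] at h2
        exact absurd h2.2.1 (lt_irrefl _)
      · exact h3
    · rcases Nat.lt_or_ge i k with h3 | h3
      · exact h3
      · have h4 : i = k := by omega
        rw [h4, h1k] at hix
        rw [hix] at h2
        exact absurd h2.2.2 (lt_irrefl _)
  · rintro ⟨i, hi, rfl⟩
    rw [Finset.mem_Ioo] at hi
    rw [mem_cps]
    refine ⟨(hS1 _ (ht i (by omega)).1).1, ?_, ?_⟩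
    · have := hmono 0 i hi.1 (by omega)
      rwa [h0] at this
    · have := hmono i k hi.2 le_rfl
      rwa [h1k] at this

theorem seg_mem (h : IsClu γ.1 γ.2) (hs : CP γ.1 s) (ht : CP γ.1 t) (hst : s.1 ≤ t.1) : seg s t γ ∈ Dm s t := by
  have h1 := upp_spec h hs
  have h2 := cp_upp hs ht hst
  have h3 := low_spec h1.1 h2
  rw [mem_Dm]
  have hY := cp_Y hs ht hst
  refine ⟨h3.1, fun y hy => (seg_vert.1 hy).2.1, fun y hy => (seg_vert.1 hy).2.2,
    seg_vert.2 ⟨hs.1, Y_self s, hY⟩, seg_vert.2 ⟨ht.1, hY, Y_self t⟩⟩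

theorem seg_full (h : γ ∈ Dm a b) : seg a b γ = γ := by
  obtain ⟨h1, h2, h3, h4, h5⟩ := mem_Dm.1 h
  refine Prod.ext ?_ ?_
  · ext y
    rw [seg_vert]
    exact ⟨fun hy => hy.1, fun hy => ⟨hy, h2 y hy, h3 y hy⟩⟩
  · ext e
    rw [seg_edge]
    refine ⟨fun he => he.1, fun he => ?_⟩
    have h6 := mem_edgesS.1 (h1.1 he)
    exact ⟨he, h2 _ h6.1, h2 _ h6.2, h3 _ h6.1, h3 _ h6.2⟩

theorem seg_self (h : IsClu γ.1 γ.2) (hs : CP γ.1 s) : seg s s γ = ({s}, ∅) := by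
  refine Prod.ext ?_ ?_
  · ext y
    rw [seg_vert]
    simp only [Finset.mem_singleton]
    constructor
    · rintro ⟨_, h2, h3⟩
      exact Y_antisymm h3 h2
    · rintro rfl
      exact ⟨hs.1, Y_self _, Y_self _⟩
  · ext e
    rw [seg_edge]
    constructor
    · rintro ⟨_, h2, h3, h4, h5⟩
      exact absurd ((Y_antisymm h5 h3).trans (Y_antisymm h4 h2).symm) (tip_neS e)
    · intro he
      simp at he

theorem low_seg (h : IsClu γ.1 γ.2) (hs : CP γ.1 s) (hm : CP γ.1 m) (ht : CP γ.1 t) (hsm : s.1 ≤ m.1)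
    (hmt : m.1 ≤ t.1) : low m (seg s t γ) = seg s m γ := by
  have hY := cp_Y hm ht hmt
  refine Prod.ext ?_ ?_
  · ext y
    rw [low1, seg_vert, seg_vert]
    constructor
    · rintro ⟨⟨h1, h2, _⟩, h4⟩
      exact ⟨h1, h2, h4⟩
    · rintro ⟨h1, h2, h4⟩
      exact ⟨⟨h1, h2, Y_trans h4 hY⟩, h4⟩
  · ext e
    rw [low2, seg_edge, seg_edge]
    constructor
    · rintro ⟨⟨h1, h2, h3, _⟩, h4⟩
      exact ⟨h1, h2, h3, h4⟩
    · rintro ⟨h1, h2, h3, h4, h5⟩
      exact ⟨⟨h1, h2, h3, Y_trans h4 hY, Y_trans h5 hY⟩, h4, h5⟩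

theorem upp_seg (h : IsClu γ.1 γ.2) (hs : CP γ.1 s) (hm : CP γ.1 m) (ht : CP γ.1 t) (hsm : s.1 ≤ m.1)
    (hmt : m.1 ≤ t.1) : upp m (seg s t γ) = seg m t γ := by
  have hY := cp_Y hs hm hsm
  refine Prod.ext ?_ ?_
  · ext y
    rw [upp1, seg_vert, seg_vert]
    constructor
    · rintro ⟨⟨h1, _, h3⟩, h4⟩
      exact ⟨h1, h4, h3⟩
    · rintro ⟨h1, h2, h4⟩
      exact ⟨⟨h1, Y_trans hY h2, h4⟩, h2⟩
  · ext e
    rw [upp2, seg_edge, seg_edge]
    constructor
    · rintro ⟨⟨h1, _, _, h2, h3⟩, h4, h5⟩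
      exact ⟨h1, h4, h5, h2, h3⟩
    · rintro ⟨h1, h2, h3, h4, h5⟩
      exact ⟨⟨h1, Y_trans hY h2, Y_trans hY h3, h4, h5⟩, h2, h3⟩

theorem cp_seg (h : IsClu γ.1 γ.2) (hs : CP γ.1 s) (ht : CP γ.1 t) (hsm : s.1 ≤ m.1) (hmt : m.1 ≤ t.1) :
    CP (seg s t γ).1 m ↔ CP γ.1 m := by
  have hst : s.1 ≤ t.1 := hsm.trans hmt
  constructor
  · rintro ⟨h1, h2⟩
    have h3 := seg_vert.1 h1
    refine ⟨h3.1, fun y hy => ?_⟩
    rcases hs.2 y hy with h4 | h4
    · rcases ht.2 y hy with h5 | h5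
      · exact Or.inl (Y_trans h3.2.2 h5)
      · exact h2 y (seg_vert.2 ⟨hy, h4, h5⟩)
    · exact Or.inr (Y_trans h4 h3.2.1)
  · intro hm
    refine ⟨seg_vert.2 ⟨hm.1, cp_Y hs hm hsm, cp_Y hm ht hmt⟩, fun y hy => hm.2 y (seg_vert.1 hy).1⟩

theorem cps_seg (h : IsClu γ.1 γ.2) (hs : CP γ.1 s) (ht : CP γ.1 t) (hst : s.1 ≤ t.1) :
    cps (seg s t γ) s t = cps γ s t := by
  ext x
  rw [mem_cps, mem_cps]
  constructor
  · rintro ⟨h1, h2, h3⟩
    exact ⟨(cp_seg h hs ht h2.le h3.le).1 h1, h2, h3⟩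
  · rintro ⟨h1, h2, h3⟩
    exact ⟨(cp_seg h hs ht h2.le h3.le).2 h1, h2, h3⟩

theorem seg_jn (h : IsClu γ.1 γ.2) (hs : CP γ.1 s) (hm : CP γ.1 m) (ht : CP γ.1 t) (hsm : s.1 ≤ m.1)
    (hmt : m.1 ≤ t.1) : Jn (seg s m γ) (seg m t γ) m ∧ join (seg s m γ) (seg m t γ) = seg s t γ := by
  have h1 := (mem_Dm.1 (seg_mem h hs ht (hsm.trans hmt))).1
  have h2 := (cp_seg h hs ht hsm hmt).2 hm
  have h3 := jn_cut h1 h2
  have h4 := join_low_upp h1 h2
  rw [low_seg h hs hm ht hsm hmt, upp_seg h hs hm ht hsm hmt] at h3 h4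
  exact ⟨h3, h4⟩

private theorem conn_empty {x y : ℤ × ℤ} (hc : Conn ∅ x y) : x = y := by
  unfold Conn at hc
  obtain ⟨p⟩ := hc
  cases p with
  | nil => rfl
  | cons hadj _ =>
    obtain ⟨e, he, _⟩ := hadj
    simp at he

/-- A diamond graph between different points has an edge. -/
theorem Dm_edges_ne (h : γ ∈ Dm a b) (hab : a ≠ b) : γ.2 ≠ ∅ := by
  intro h0
  obtain ⟨h1, _, _, h4, h5⟩ := mem_Dm.1 h
  have h6 := h1.2 a h4 b h5
  rw [h0] at h6
  exact hab (conn_empty h6)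

theorem Dm_self : Dm a a = {({a}, ∅)} := by
  ext γ
  rw [Finset.mem_singleton]
  constructor
  · intro h
    have h1 := seg_self (mem_Dm.1 h).1 (cp_start h)
    rw [seg_full h] at h1
    exact h1
  · rintro rfl
    rw [mem_Dm]
    refine ⟨⟨by simp, ?_⟩, ?_, ?_, by simp, by simp⟩
    · intro x hx y hy
      simp only [Finset.mem_singleton] at hx hy
      rw [hx, hy]
      exact SimpleGraph.Reachable.refl _
    · intro y hy
      simp only [Finset.mem_singleton] at hy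
      rw [hy]; exact Y_self a
    · intro y hy
      simp only [Finset.mem_singleton] at hy
      rw [hy]; exact Y_self a

end Pool.Helper95.OZ
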