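import Pool.Agent.Helper95.OZ.Kap
import Pool.Agent.Helper95.OZ.Seg

/-!
Project OZ (MP_7e0861_pr), line L3, block OZ-L3-6: the array of the weights of the segments.

For `γ ∈ Dm a b` with enumeration `t` of the cone points (`exists_enum`) put `W i j = W1 (seg (t i) (t j) γ)`.
Write `V i j` for the vertex set of `seg (t i) (t j) γ`, `B i j` for `bg q (hom ρ)` of it; `B` is multiplicative
(`seg_jn`, `Jn.bg_join`), `V i j = V i m ∪ V m j` for `i ≤ m ≤ j`, and `W i i = 1`, `W i j = B i j * PsiI (V i j)` for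
`i < j` (`Dm_edges_ne`).  With `P = B j (j + 1)`:
* `W i (j+1) / W i j = P * PsiI (V i j ∪ V j (j+1)) / PsiI (V i j)` for `i < j`, and `= P * PsiI (V j (j+1))` for `i = j`;
* monotonicity in `i`: for `i < m < j` by `PsiI_super'` with `K = V m j`, `S = V i m`, `V = V j (j+1)`; for `m = j` by
  `PsiI_super`;
* memory: for `i < m ≤ j`, `1 - (ratio at m) / (ratio at i) ≤ 1 - κ` by `kappaI` with apex `t j` (`K = ∅` if `m = j`,
  `K = V m j` otherwise; `V i m` is in the backward cone of `t m`, hence of `t j`), and for `m < j` it is at most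
  `∑_{s ∈ V i m} ∑_{v ∈ V j (j+1)} GI s v ≤ C exp (-c (j - m))` by `PsiI_decouple` and `cone_sum` with apex `t j`,
  `d = j - m` (the columns of the `t i` are different, so `(t m).1 + (j - m) ≤ (t j).1`).
So `θ 0 = 0`, `θ (l + 1) = min (1 - κ) (C exp (-c l))` works, where `C ≥ 1` (then `θ 1 = 1 - κ`).
-/

namespace Pool.Helper95.OZ

open Pool.Helper49.FK Pool.Helper17.OZ Pool.Helper83.OZ Finset

variable {q ρ : ℝ}

/-- The array of the segments. -/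
noncomputable def Wa (q ρ : ℝ) (γ : Gr) (t : ℕ → ℤ × ℤ) (i j : ℕ) : ℝ := W1 q ρ (seg (t i) (t j) γ)

private theorem bg_pos92 (hq : 1 ≤ q) (hρ : 0 < ρ) (γ : Gr) : 0 < bg q (hom ρ) γ :=
  div_pos (Finset.prod_pos fun _ _ => hρ) (pow_pos (by linarith) _)

theorem WI_pos (hq : 1 ≤ q) (hρ : 0 < ρ) (γ : Gr) : 0 < WI q ρ γ :=
  mul_pos (bg_pos92 hq hρ γ) (PsiI_pos hq hρ.le _)

theorem Wa_self {γ : Gr} {t : ℕ → ℤ × ℤ} {i : ℕ} (h : IsClu γ.1 γ.2) (hi : CP γ.1 (t i)) : Wa q ρ γ t i i = 1 := by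
  unfold Wa W1
  rw [seg_self h hi, if_pos rfl]

theorem Wa_pos (hq : 1 ≤ q) (hρ : 0 < ρ) (γ : Gr) (t : ℕ → ℤ × ℤ) (i j : ℕ) : 0 < Wa q ρ γ t i j := by
  unfold Wa W1
  split_ifs
  · exact one_pos
  · exact WI_pos hq hρ _

private theorem Wa_lt92 {γ : Gr} (h : IsClu γ.1 γ.2) {k : ℕ} {t : ℕ → ℤ × ℤ}
    (ht : ∀ i j, i < j → j ≤ k → (t i).1 < (t j).1) (hc : ∀ i ≤ k, CP γ.1 (t i)) {i j : ℕ} (hij : i < j)
    (hj : j ≤ k) : Wa q ρ γ t i j = WI q ρ (seg (t i) (t j) γ) := by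
  have h1 := ht i j hij hj
  have h2 := seg_mem h (hc i (by omega)) (hc j hj) h1.le
  have h3 := Dm_edges_ne h2 (fun h4 => by rw [h4] at h1; exact lt_irrefl _ h1)
  unfold Wa W1
  rw [if_neg h3]

open Classical in
/-- the vertices of the segment, none if it is a point -/
private noncomputable def Kf92 (γ : Gr) (t : ℕ → ℤ × ℤ) (i j : ℕ) : Finset (ℤ × ℤ) :=
  if i = j then ∅ else (seg (t i) (t j) γ).1

private theorem vert_join92 {γ : Gr} (h : IsClu γ.1 γ.2) {k : ℕ} {t : ℕ → ℤ × ℤ}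
    (ht : ∀ i j, i < j → j ≤ k → (t i).1 < (t j).1) (hc : ∀ i ≤ k, CP γ.1 (t i)) {i m j : ℕ} (him : i < m)
    (hmj : m < j) (hj : j ≤ k) :
    (seg (t i) (t j) γ).1 = (seg (t i) (t m) γ).1 ∪ (seg (t m) (t j) γ).1 ∧
      bg q (hom ρ) (seg (t i) (t j) γ) =
        bg q (hom ρ) (seg (t i) (t m) γ) * bg q (hom ρ) (seg (t m) (t j) γ) ∨ q ≤ 0 := by
  by_cases hq : q ≤ 0
  · exact Or.inr hq
  · left
    obtain ⟨h1, h2⟩ := seg_jn h (hc i (by omega)) (hc m (by omega)) (hc j hj) (ht i m him (by omega)).le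
      (ht m j hmj hj).le
    constructor
    · rw [← h2]
      rfl
    · rw [← h2]
      exact h1.bg_join (lt_of_not_ge hq) (hom ρ)

private theorem ratio92 (hq : 1 ≤ q) (hρ : 0 < ρ) {γ : Gr} (h : IsClu γ.1 γ.2) {k : ℕ} {t : ℕ → ℤ × ℤ}
    (ht : ∀ i j, i < j → j ≤ k → (t i).1 < (t j).1) (hc : ∀ i ≤ k, CP γ.1 (t i)) {i j : ℕ} (hij : i ≤ j)
    (hj : j < k) :
    Wa q ρ γ t i (j + 1) / Wa q ρ γ t i j = bg q (hom ρ) (seg (t j) (t (j + 1)) γ) *
      (PsiI q ρ (Kf92 γ t i j ∪ (seg (t j) (t (j + 1)) γ).1) / PsiI q ρ (Kf92 γ t i j)) := by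
  rcases hij.eq_or_lt with rfl | hij
  · have h1 : Kf92 γ t i i = ∅ := if_pos rfl
    rw [Wa_self h (hc i hj.le), Wa_lt92 h ht hc (Nat.lt_succ_self i) hj, h1, PsiI_empty hq hρ.le,
      Finset.empty_union, div_one, div_one]
    rfl
  · have h1 : Kf92 γ t i j = (seg (t i) (t j) γ).1 := if_neg hij.ne
    obtain ⟨h2, h3⟩ := (vert_join92 (q := q) (ρ := ρ) h ht hc hij (Nat.lt_succ_self j) hj).resolve_right
      (by linarith)
    rw [Wa_lt92 h ht hc (by omega : i < j + 1) hj, Wa_lt92 h ht hc hij hj.le, h1]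
    unfold WI
    rw [h2, h3]
    have h4 : bg q (hom ρ) (seg (t i) (t j) γ) ≠ 0 := (bg_pos92 hq hρ _).ne'
    have h5 : PsiI q ρ (seg (t i) (t j) γ).1 ≠ 0 := (PsiI_pos hq hρ.le _).ne'
    field_simp

private theorem Kf_split92 {γ : Gr} (h : IsClu γ.1 γ.2) {k : ℕ} {t : ℕ → ℤ × ℤ}
    (ht : ∀ i j, i < j → j ≤ k → (t i).1 < (t j).1) (hc : ∀ i ≤ k, CP γ.1 (t i)) {i m j : ℕ} (him : i < m)
    (hmj : m ≤ j) (hj : j ≤ k) : Kf92 γ t i j = Kf92 γ t m j ∪ (seg (t i) (t m) γ).1 := by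
  have h1 : Kf92 γ t i j = (seg (t i) (t j) γ).1 := if_neg (by omega)
  rcases hmj.eq_or_lt with rfl | hmj
  · have h2 : Kf92 γ t m m = ∅ := if_pos rfl
    rw [h1, h2, Finset.empty_union]
  · have h2 : Kf92 γ t m j = (seg (t m) (t j) γ).1 := if_neg hmj.ne
    obtain ⟨h3, -⟩ := (vert_join92 (q := 1) (ρ := 1) h ht hc him hmj hj).resolve_right (by norm_num)
    rw [h1, h2, h3, Finset.union_comm]

theorem Wa_mono (hq : 1 ≤ q) (hρ : 0 < ρ) {γ : Gr} (h : IsClu γ.1 γ.2) {k : ℕ} {t : ℕ → ℤ × ℤ}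
    (ht : ∀ i j, i < j → j ≤ k → (t i).1 < (t j).1) (hc : ∀ i ≤ k, CP γ.1 (t i)) (i m j : ℕ) (him : i ≤ m)
    (hmj : m ≤ j) (hj : j < k) :
    Wa q ρ γ t m (j + 1) / Wa q ρ γ t m j ≤ Wa q ρ γ t i (j + 1) / Wa q ρ γ t i j := by
  rcases him.eq_or_lt with rfl | him
  · exact le_rfl
  rw [ratio92 hq hρ h ht hc hmj hj, ratio92 hq hρ h ht hc (by omega : i ≤ j) hj,
    Kf_split92 h ht hc him hmj hj.le]
  refine mul_le_mul_of_nonneg_left ?_ (bg_pos92 hq hρ _).le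
  rw [div_le_div_iff₀ (PsiI_pos hq hρ.le _) (PsiI_pos hq hρ.le _)]
  have h1 := PsiI_super' hq hρ.le (Kf92 γ t m j) (seg (t i) (t m) γ).1 (seg (t j) (t (j + 1)) γ).1
  linarith

private theorem col92 {k : ℕ} {t : ℕ → ℤ × ℤ} (ht : ∀ i j, i < j → j ≤ k → (t i).1 < (t j).1) {m : ℕ} :
    ∀ d : ℕ, m + d ≤ k → (t m).1 + d ≤ (t (m + d)).1 := by
  intro d
  induction d with
  | zero => intro _; simp
  | succ d ih =>
    intro hd
    have h1 := ih (by omega)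
    have h2 := ht (m + d) (m + (d + 1)) (by omega) hd
    push_cast
    omega

theorem Wa_mem (hq : 1 ≤ q) (hρ : 0 < ρ) (hD : ExpDecay q ρ) : ∃ κ C c : ℝ, 0 < κ ∧ κ ≤ 1 ∧ 0 ≤ C ∧ 0 < c ∧
    ∃ θ : ℕ → ℝ, (∀ j, 0 ≤ θ j) ∧ (∀ j, θ j ≤ 1 - κ) ∧ (∀ j : ℕ, θ (j + 1) ≤ C * Real.exp (-c * j)) ∧
    ∀ {γ : Gr}, IsClu γ.1 γ.2 → ∀ {k : ℕ} {t : ℕ → ℤ × ℤ}, (∀ i j, i < j → j ≤ k → (t i).1 < (t j).1) →
      (∀ i ≤ k, CP γ.1 (t i)) → ∀ i m j, i < m → m ≤ j → j < k →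
        Wa q ρ γ t i (j + 1) / Wa q ρ γ t i j - Wa q ρ γ t m (j + 1) / Wa q ρ γ t m j ≤
          θ (j - m + 1) * (Wa q ρ γ t i (j + 1) / Wa q ρ γ t i j) := by
  obtain ⟨κ, hκ, hκ1, hkap⟩ := kappaI hq hρ hD
  obtain ⟨C, c, hC, hc0, hsum⟩ := cone_sum hq hρ hD
  set θ : ℕ → ℝ := fun j => if j = 0 then 0 else min (1 - κ) (C * Real.exp (-c * ((j - 1 : ℕ) : ℝ))) with hθ
  have hθs : ∀ j : ℕ, θ (j + 1) = min (1 - κ) (C * Real.exp (-c * j)) := by
    intro j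
    simp only [hθ]
    rw [if_neg (Nat.succ_ne_zero j), Nat.add_sub_cancel]
  refine ⟨κ, C, c, hκ, hκ1, by linarith, hc0, θ, ?_, ?_, ?_, ?_⟩
  · intro j
    cases j with
    | zero => exact le_of_eq (if_pos rfl).symm
    | succ j =>
      rw [hθs]
      exact le_min (by linarith) (mul_nonneg (by linarith) (Real.exp_pos _).le)
  · intro j
    cases j with
    | zero => exact (if_pos rfl).le.trans (by linarith)
    | succ j =>
      rw [hθs]
      exact min_le_left _ _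
  · intro j
    rw [hθs]
    exact min_le_right _ _
  · intro γ h k t ht hc i m j him hmj hj
    rw [hθs]
    rw [ratio92 hq hρ h ht hc hmj hj, ratio92 hq hρ h ht hc (by omega : i ≤ j) hj,
      Kf_split92 h ht hc him hmj hj.le]
    set K := Kf92 γ t m j with hK
    set S := (seg (t i) (t m) γ).1 with hS
    set V := (seg (t j) (t (j + 1)) γ).1 with hV
    set B := bg q (hom ρ) (seg (t j) (t (j + 1)) γ) with hB
    have hB0 : 0 < B := bg_pos92 hq hρ _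
    have hYmj : Y (t j - t m) := by
      refine cp_Y (hc m (by omega)) (hc j hj.le) ?_
      rcases hmj.eq_or_lt with rfl | hmj
      · exact le_rfl
      · exact (ht m j hmj hj.le).le
    have hcol : (t m).1 + ((j - m : ℕ) : ℤ) ≤ (t j).1 := by
      have h1 := col92 ht (m := m) (j - m) (by omega)
      have h2 : m + (j - m) = j := by omega
      rwa [h2] at h1
    have hSY : ∀ s ∈ S, Y (t j - s) ∧ s.1 + ((j - m : ℕ) : ℤ) ≤ (t j).1 := by
      intro s hs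
      have h1 := (seg_vert.1 hs).2.2
      refine ⟨Y_trans h1 hYmj, ?_⟩
      have h2 := Y_le h1
      omega
    have hVY : ∀ v ∈ V, Y (v - t j) := fun v hv => (seg_vert.1 hv).2.1
    have h1 := hkap K S V (t j) (fun s hs => (hSY s hs).1) hVY
    have h2 := PsiI_decouple hq hρ.le K S V
    have h3 := hsum S V (t j) (j - m) hSY hVY
    have p1 : 0 < PsiI q ρ (K ∪ S ∪ V) := PsiI_pos hq hρ.le _
    have p2 : 0 < PsiI q ρ K := PsiI_pos hq hρ.le _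
    have p3 : 0 < PsiI q ρ (K ∪ S) := PsiI_pos hq hρ.le _
    have p4 : 0 < PsiI q ρ (K ∪ V) := PsiI_pos hq hρ.le _
    have h4 : PsiI q ρ (K ∪ S ∪ V) * PsiI q ρ K *
        (1 - min (1 - κ) (C * Real.exp (-c * ((j - m : ℕ) : ℝ)))) ≤
        PsiI q ρ (K ∪ S) * PsiI q ρ (K ∪ V) := by
      rcases min_choice (1 - κ) (C * Real.exp (-c * ((j - m : ℕ) : ℝ))) with h5 | h5
      · rw [h5]
        calc PsiI q ρ (K ∪ S ∪ V) * PsiI q ρ K * (1 - (1 - κ))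
            = κ * (PsiI q ρ (K ∪ S ∪ V) * PsiI q ρ K) := by ring
          _ ≤ _ := h1
      · rw [h5]
        refine le_trans ?_ h2
        exact mul_le_mul_of_nonneg_left (by linarith) (mul_pos p1 p2).le
    set x := min (1 - κ) (C * Real.exp (-c * ((j - m : ℕ) : ℝ))) with hx
    have h5 : (1 - x) * (PsiI q ρ (K ∪ S ∪ V) / PsiI q ρ (K ∪ S)) ≤ PsiI q ρ (K ∪ V) / PsiI q ρ K := by
      rw [mul_div_assoc', div_le_div_iff₀ p3 p2]
      linarith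
    have h6 := mul_le_mul_of_nonneg_left h5 hB0.le
    have h7 : B * ((1 - x) * (PsiI q ρ (K ∪ S ∪ V) / PsiI q ρ (K ∪ S))) =
        B * (PsiI q ρ (K ∪ S ∪ V) / PsiI q ρ (K ∪ S)) -
          x * (B * (PsiI q ρ (K ∪ S ∪ V) / PsiI q ρ (K ∪ S))) := by ring
    linarith

end Pool.Helper95.OZ
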