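import Pool.Agent.Helper95.OZ.Lab

/-!
Project OZ (MP_7e0861_pr), line L3: the array form of the label expansion (Kaluza form).
-/

namespace Pool.Helper95.OZ

open Finset

/-- The word of the rows `i, …, i + n - 1`, the most recent first. -/
def rw' (i : ℕ) : ℕ → List ℕ
  | 0 => []
  | n + 1 => (i + n) :: rw' i n

theorem rw'_length (i n : ℕ) : (rw' i n).length = n := by
  induction n with
  | zero => rfl
  | succ n ih => simp [rw', ih]

theorem rw'_drop (i : ℕ) : ∀ (n j : ℕ), j ≤ n → (rw' i n).drop j = rw' i (n - j) := by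
  intro n
  induction n with
  | zero => intro j hj; obtain rfl : j = 0 := by omega
            rfl
  | succ n ih =>
    intro j hj
    cases j with
    | zero => rfl
    | succ j =>
      rw [rw', List.drop_succ_cons, ih j (by omega)]
      congr 1
      omega

theorem rw'_take (i : ℕ) : ∀ (n j : ℕ), j ≤ n → (rw' i n).take j = rw' (i + (n - j)) j := by
  intro n
  induction n with
  | zero => intro j hj; obtain rfl : j = 0 := by omega
            rfl
  | succ n ih =>
    intro j hj
    cases j with
    | zero => rfl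
    | succ j =>
      rw [rw', List.take_succ_cons, ih j (by omega), rw']
      have e1 : n + 1 - (j + 1) = n - j := by omega
      rw [e1]
      congr 1
      omega

/-- The memory function of an array. -/
noncomputable def arrμ (k : ℕ) (W : ℕ → ℕ → ℝ) (g : ℕ) (l : List ℕ) : ℝ :=
  if g < k then W (g - l.length) (g + 1) / W (g - l.length) g else 0

/-- The array theorem.  `W i j` is the weight of the segment between the cut points `i` and `j`, `F` its
renewal part. -/
theorem arr (k : ℕ) (W F : ℕ → ℕ → ℝ) (θ V : ℕ → ℝ) (ρ : ℝ)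
    (hW1 : ∀ i ≤ k, W i i = 1) (hWpos : ∀ i j, i ≤ j → j ≤ k → 0 < W i j)
    (hR : ∀ i m j, i ≤ m → m ≤ j → j < k → W m (j + 1) / W m j ≤ W i (j + 1) / W i j)
    (hθ0 : ∀ j, 0 ≤ θ j)
    (hθ : ∀ i m j, i < m → m ≤ j → j < k →
      W i (j + 1) / W i j - W m (j + 1) / W m j ≤ θ (j - m + 1) * (W i (j + 1) / W i j))
    (hρ : 0 ≤ ρ) (hVm : ∀ x, V x ≤ V (x + 1)) (hV0 : 1 ≤ V 0)
    (hV : ∀ x, 1 ≤ x → ∀ N, V (x - 1) + ∑ y ∈ Ico x N, (V y - V (y - 1)) * θ y ≤ ρ * V x)
    (hF : ∀ i j, i < j → j ≤ k → F i j = W i j - ∑ m ∈ Ioo i j, F i m * W m j) :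
    ∀ i j, i < j → j ≤ k → 0 ≤ F i j ∧ F i j ≤ V 1 * ρ ^ (j - i) * W i j ∧
      W i j = ∑ m ∈ Ioc i j, F i m * W m j ∧ W i j = ∑ m ∈ Ico i j, W i m * F m j := by
  classical
  set μ := arrμ k W with hμ
  have hRnn : ∀ i j, i ≤ j → j < k → 0 ≤ W i (j + 1) / W i j := fun i j hij hj =>
    div_nonneg (hWpos _ _ (by omega) (by omega)).le (hWpos _ _ hij (by omega)).le
  have h0 : ∀ g l, 0 ≤ μ g l := by
    intro g l
    rw [hμ, arrμ]
    split_ifs with h
    · exact hRnn _ _ (Nat.sub_le _ _) h
    · exact le_rfl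
  have hm : ∀ (g : ℕ) (l : List ℕ) (n : ℕ), μ g (l.take n) ≤ μ g (l.take (n + 1)) := by
    intro g l n
    rw [hμ, arrμ, arrμ]
    split_ifs with h
    · refine hR _ _ _ ?_ (Nat.sub_le _ _) h
      rw [List.length_take, List.length_take]
      omega
    · exact le_rfl
  have hmem : ∀ (g : ℕ) (l : List ℕ), ∀ j < l.length, μ g l - μ g (l.take j) ≤ θ (j + 1) * μ g l := by
    intro g l j hj
    rw [hμ, arrμ, arrμ]
    split_ifs with h
    · have hlt : (l.take j).length = j := by rw [List.length_take]; omega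
      rw [hlt]
      rcases Nat.lt_or_ge (g - l.length) (g - j) with h1 | h1
      · have := hθ (g - l.length) (g - j) g h1 (Nat.sub_le _ _) h
        have e : g - (g - j) + 1 = j + 1 := by omega
        rwa [e] at this
      · have e : g - j = g - l.length := by omega
        rw [e, sub_self]
        exact mul_nonneg (hθ0 _) (hRnn _ _ (Nat.sub_le _ _) h)
    · simp
  have hmw : ∀ i n, i + n ≤ k → mw μ (rw' i n) = W i (i + n) := by
    intro i n
    induction n with
    | zero => intro h; simp [rw', mw, hW1 i (by omega)]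
    | succ n ih =>
      intro h
      rw [rw', mw, ih (by omega), hμ, arrμ, rw'_length, if_pos (by omega)]
      have e : i + n - n = i := by omega
      rw [e, div_mul_cancel₀ _ (hWpos i (i + n) (by omega) (by omega)).ne']
      rfl
  have hlast : ∀ i j, i < j → j ≤ k →
      W i j = ∑ m ∈ Ico i j, W i m * fw μ (rw' m (j - m)) := by
    intro i j hij hj
    obtain ⟨n, rfl⟩ : ∃ n, j = i + n := ⟨j - i, by omega⟩
    have hne : rw' i n ≠ [] := by
      rw [← List.length_pos_iff_ne_nil, rw'_length]; omega
    have h := mw_eq_last μ (rw' i n) hne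
    rw [hmw i n hj, rw'_length] at h
    rw [h]
    refine Finset.sum_bij' (fun a _ => i + n - a) (fun a _ => i + n - a) ?_ ?_ ?_ ?_ ?_
    · intro a ha; rw [Finset.mem_Ico] at ha ⊢; omega
    · intro a ha; rw [Finset.mem_Ico] at ha ⊢; omega
    · intro a ha; rw [Finset.mem_Ico] at ha; omega
    · intro a ha; rw [Finset.mem_Ico] at ha; omega
    · intro a ha
      rw [Finset.mem_Ico] at ha
      rw [rw'_take i n a (by omega), rw'_drop i n a (by omega), hmw i (n - a) (by omega)]
      have e1 : i + (n - a) = i + n - a := by omega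
      have e2 : i + n - (i + n - a) = a := by omega
      rw [e1, e2]; ring
  have hfirst : ∀ i j, i < j → j ≤ k →
      W i j = ∑ m ∈ Ioc i j, fw μ (rw' i (m - i)) * W m j := by
    intro i j hij hj
    obtain ⟨n, rfl⟩ : ∃ n, j = i + n := ⟨j - i, by omega⟩
    have hne : rw' i n ≠ [] := by
      rw [← List.length_pos_iff_ne_nil, rw'_length]; omega
    have h := mw_eq_first μ _ (rw' i n) rfl hne
    rw [hmw i n hj, rw'_length] at h
    rw [h]
    refine Finset.sum_bij' (fun a _ => i + n - a) (fun a _ => i + n - a) ?_ ?_ ?_ ?_ ?_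
    · intro a ha; rw [Finset.mem_range] at ha; rw [Finset.mem_Ioc]; omega
    · intro a ha; rw [Finset.mem_Ioc] at ha; rw [Finset.mem_range]; omega
    · intro a ha; rw [Finset.mem_range] at ha; omega
    · intro a ha; rw [Finset.mem_Ioc] at ha; omega
    · intro a ha
      rw [Finset.mem_range] at ha
      rw [rw'_take i n a (by omega), rw'_drop i n a (by omega), hmw (i + (n - a)) a (by omega)]
      have e1 : i + (n - a) = i + n - a := by omega
      have e2 : i + n - a - i = n - a := by omega
      have e3 : i + (n - a) + a = i + n := by omega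
      rw [e3, e2, e1]; ring
  -- uniqueness
  have hFeq : ∀ d i j, j - i = d → i < j → j ≤ k → F i j = fw μ (rw' i (j - i)) := by
    intro d
    induction d using Nat.strong_induction_on with
    | _ d ih =>
      intro i j hd hij hj
      have h1 := hfirst i j hij hj
      have hsplit : Ioc i j = insert j (Ioo i j) := by
        ext m; simp only [Finset.mem_Ioc, Finset.mem_insert, Finset.mem_Ioo]; omega
      rw [hsplit, Finset.sum_insert (by simp), hW1 j hj, mul_one] at h1
      rw [hF i j hij hj]
      have h2 : ∑ m ∈ Ioo i j, F i m * W m j = ∑ m ∈ Ioo i j, fw μ (rw' i (m - i)) * W m j := by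
        refine Finset.sum_congr rfl fun m hm => ?_
        rw [Finset.mem_Ioo] at hm
        rw [ih (m - i) (by omega) i m rfl hm.1 (by omega)]
      rw [h2]
      linarith
  intro i j hij hj
  have hF' := hFeq _ i j rfl hij hj
  refine ⟨?_, ?_, ?_, ?_⟩
  · rw [hF']
    exact aw_nonneg μ h0 hm _ _
  · rw [hF']
    have h := aw_tail μ h0 hm θ V ρ hρ hVm hV0 hV hmem (rw' i (j - i)) 1 (Or.inl le_rfl)
    rw [rw'_length, hmw i (j - i) (by omega)] at h
    have e : i + (j - i) = j := by omega
    rw [e] at h
    exact h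
  · rw [hfirst i j hij hj]
    refine Finset.sum_congr rfl fun m hm' => ?_
    rw [Finset.mem_Ioc] at hm'
    rw [hFeq _ i m rfl hm'.1 (by omega)]
  · rw [hlast i j hij hj]
    refine Finset.sum_congr rfl fun m hm' => ?_
    rw [Finset.mem_Ico] at hm'
    rw [hFeq _ m j rfl hm'.2 hj]

end Pool.Helper95.OZ
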