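import Mathlib

/-!
Project OZ (MP_7e0861_pr), line L3: the Lyapunov function of the label expansion.
-/

namespace Pool.Helper95.OZ

open Finset

theorem lya_core (θ : ℕ → ℝ) (lam σ : ℝ) (h0 : ∀ j, 0 ≤ θ j) (h1 : ∀ j, θ j ≤ 1) (hlam : 1 < lam)
    (hσ : ∀ N, ∑ y ∈ range N, lam ^ y * (∏ i ∈ range y, (1 - θ (i + 1))) * θ (y + 1) ≤ σ)
    (hσ1 : lam * σ < 1) :
    ∃ V : ℕ → ℝ, (∀ x, V x ≤ V (x + 1)) ∧ 1 ≤ V 0 ∧
      (∀ x, 1 ≤ x → ∀ N, V (x - 1) + ∑ y ∈ Ico x N, (V y - V (y - 1)) * θ y ≤ lam⁻¹ * V x) := by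
  classical
  set u : ℕ → ℝ := fun t => ∏ i ∈ range t, (1 - θ (i + 1)) with hu
  have hu0 : ∀ t, 0 ≤ u t := fun t => Finset.prod_nonneg fun i _ => by have := h1 (i + 1); linarith
  have hus : ∀ t, u (t + 1) = u t * (1 - θ (t + 1)) := fun t => Finset.prod_range_succ _ _
  set B0 : ℝ := 1 - lam * σ with hB0
  have hB0p : 0 < B0 := by rw [hB0]; linarith
  set B : ℕ → ℝ := fun x => B0 + (lam - 1) * ∑ t ∈ range x, lam ^ t * u t with hB
  have hBs : ∀ x, B (x + 1) = B x + (lam - 1) * (lam ^ x * u x) := by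
    intro x; simp only [hB, Finset.sum_range_succ]; ring
  have hBm : ∀ x, B x ≤ B (x + 1) := by
    intro x; rw [hBs]
    have : 0 ≤ (lam - 1) * (lam ^ x * u x) :=
      mul_nonneg (by linarith) (mul_nonneg (pow_nonneg (by linarith) _) (hu0 x))
    linarith
  have hlam0 : 0 < lam := by linarith
  -- the inequality for B, N > x
  have key : ∀ x N, x + 1 < N + 1 + 1 → B x + ∑ y ∈ Ico (x + 1) (N + 1), (B y - B (y - 1)) * θ y
      ≤ lam⁻¹ * B (x + 1) := by
    intro x
    induction x with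
    | zero =>
      intro N hN
      have e1 : ∑ y ∈ Ico (0 + 1) (N + 1), (B y - B (y - 1)) * θ y
          = (lam - 1) * ∑ y ∈ range N, lam ^ y * u y * θ (y + 1) := by
        rw [Finset.sum_Ico_eq_sum_range, Finset.mul_sum]
        have e : N + 1 - (0 + 1) = N := by omega
        rw [e]
        refine Finset.sum_congr rfl fun y _ => ?_
        have e2 : 0 + 1 + y = y + 1 := by omega
        have e3 : y + 1 - 1 = y := by omega
        rw [e2, e3, hBs]; ring
      rw [e1, hBs 0]
      have e4 : B 0 = B0 := by simp [hB]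
      have e5 : u 0 = 1 := by simp [hu]
      rw [e4, e5, pow_zero]
      have h2 := hσ N
      have h3 : (lam - 1) * ∑ y ∈ range N, lam ^ y * u y * θ (y + 1) ≤ (lam - 1) * σ :=
        mul_le_mul_of_nonneg_left h2 (by linarith)
      have h4 : lam⁻¹ * (B0 + (lam - 1) * (1 * 1)) = 1 - σ := by
        rw [hB0]; field_simp; ring
      rw [h4]
      rw [hB0]
      linarith
    | succ x ih =>
      intro N hN
      have h2 := ih N (by omega)
      have hsplit : Ico (x + 1) (N + 1) = insert (x + 1) (Ico (x + 1 + 1) (N + 1)) := by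
        ext m; simp only [Finset.mem_Ico, Finset.mem_insert]; omega
      rw [hsplit, Finset.sum_insert (by simp)] at h2
      have e3 : x + 1 - 1 = x := by omega
      rw [e3] at h2
      have h5 : lam⁻¹ * B (x + 1 + 1) = lam⁻¹ * B (x + 1) + (lam - 1) * (lam ^ x * u (x + 1)) := by
        rw [hBs (x + 1), pow_succ]; field_simp
      have h6 := hBs x
      have h7 := hus x
      rw [h5, h7]
      have h8 : (B (x + 1) - B x) * θ (x + 1) = (lam - 1) * (lam ^ x * u x) * θ (x + 1) := by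
        rw [h6]; ring
      rw [h8] at h2
      rw [h6] at h2 ⊢
      nlinarith [h2]
  have hDn : ∀ y, 0 ≤ (B y - B (y - 1)) * θ y := by
    intro y
    refine mul_nonneg ?_ (h0 y)
    cases y with
    | zero => simp
    | succ y => have := hBm y; simp only [Nat.add_sub_cancel]; linarith
  have key2 : ∀ x N, B x + ∑ y ∈ Ico (x + 1) N, (B y - B (y - 1)) * θ y ≤ lam⁻¹ * B (x + 1) := by
    intro x N
    refine le_trans ?_ (key x (max N x) (by omega))
    refine add_le_add le_rfl (Finset.sum_le_sum_of_subset_of_nonneg ?_ fun y _ _ => hDn y)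
    intro y hy
    rw [Finset.mem_Ico] at hy ⊢
    omega
  refine ⟨fun x => B x / B0, fun x => by
    have := hBm x
    exact div_le_div_of_nonneg_right this hB0p.le, ?_, ?_⟩
  · have e4 : B 0 = B0 := by simp [hB]
    simp only [e4]
    rw [div_self hB0p.ne']
  · intro x hx N
    obtain ⟨y, rfl⟩ : ∃ y, x = y + 1 := ⟨x - 1, by omega⟩
    have h := key2 y N
    have e3 : y + 1 - 1 = y := by omega
    simp only [e3]
    have e6 : ∑ z ∈ Ico (y + 1) N, (B z / B0 - B (z - 1) / B0) * θ z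
        = (∑ z ∈ Ico (y + 1) N, (B z - B (z - 1)) * θ z) / B0 := by
      rw [Finset.sum_div]
      refine Finset.sum_congr rfl fun z _ => ?_
      ring
    rw [e6, ← add_div, ← mul_div_assoc]
    exact div_le_div_of_nonneg_right h hB0p.le

/-- Existence of the Lyapunov function. -/
theorem exists_lya (κ C c : ℝ) (hκ : 0 < κ) (_hκ1 : κ ≤ 1) (hC : 0 ≤ C) (hc : 0 < c) (θ : ℕ → ℝ)
    (h0 : ∀ j, 0 ≤ θ j) (h1 : ∀ j, θ j ≤ 1 - κ) (h2 : ∀ j, θ (j + 1) ≤ C * Real.exp (-c * j)) :
    ∃ (V : ℕ → ℝ) (ρ : ℝ), 0 < ρ ∧ ρ < 1 ∧ (∀ x, V x ≤ V (x + 1)) ∧ 1 ≤ V 0 ∧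
      (∀ x, 1 ≤ x → ∀ N, V (x - 1) + ∑ y ∈ Ico x N, (V y - V (y - 1)) * θ y ≤ ρ * V x) := by
  classical
  set t := Real.exp (-c) with ht
  have ht0 : 0 < t := Real.exp_pos _
  have ht1 : t < 1 := by rw [ht, Real.exp_lt_one_iff]; linarith
  have h2' : ∀ j, θ (j + 1) ≤ C * t ^ j := by
    intro j
    have := h2 j
    rwa [ht, ← Real.exp_nat_mul, mul_comm (j : ℝ) (-c)]
  set u : ℕ → ℝ := fun t => ∏ i ∈ range t, (1 - θ (i + 1)) with hu
  -- lower bound of u
  have hu0 : ∀ t, 0 ≤ u t := fun t => Finset.prod_nonneg fun i _ => by have := h1 (i + 1); linarith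
  have hus : ∀ t, u (t + 1) = u t * (1 - θ (t + 1)) := fun t => Finset.prod_range_succ _ _
  obtain ⟨κ', hκ'0, hκ'⟩ : ∃ κ' : ℝ, 0 < κ' ∧ ∀ n, κ' ≤ u n := by
    have htend : Filter.Tendsto (fun n : ℕ => C * t ^ n * (1 - t)⁻¹) Filter.atTop (nhds 0) := by
      have := (tendsto_pow_atTop_nhds_zero_of_lt_one ht0.le ht1).const_mul C |>.mul_const (1 - t)⁻¹
      simpa using this
    obtain ⟨n0, hn0⟩ := ((tendsto_order.1 htend).2 (1 / 2) (by norm_num)).exists
    have hA : ∀ k, u n0 * (1 - ∑ i ∈ range k, C * t ^ (n0 + i)) ≤ u (n0 + k) := by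
      intro k
      induction k with
      | zero => simp
      | succ k ih =>
        have h3 : u (n0 + (k + 1)) = u (n0 + k) * (1 - θ (n0 + k + 1)) := hus (n0 + k)
        have h4 := h2' (n0 + k)
        have h5 := hu0 (n0 + k)
        have h6 : u (n0 + k) ≤ u n0 := by
          clear ih h3 h5
          induction k with
          | zero => simp
          | succ k ih =>
            have h3 : u (n0 + (k + 1)) = u (n0 + k) * (1 - θ (n0 + k + 1)) := hus (n0 + k)
            rw [h3]
            have := h0 (n0 + k + 1)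
            have := hu0 (n0 + k)
            have := ih (h2' (n0 + k))
            nlinarith
        rw [h3, Finset.sum_range_succ]
        have h7 := h0 (n0 + k + 1)
        nlinarith
    have hB : ∀ k, ∑ i ∈ range k, C * t ^ (n0 + i) ≤ 1 / 2 := by
      intro k
      have h3 : ∑ i ∈ range k, C * t ^ (n0 + i) = C * t ^ n0 * ∑ i ∈ range k, t ^ i := by
        rw [Finset.mul_sum]
        refine Finset.sum_congr rfl fun i _ => ?_
        rw [pow_add]; ring
      have h4 : ∑ i ∈ range k, t ^ i ≤ (1 - t)⁻¹ := by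
        have := (summable_geometric_of_lt_one ht0.le ht1).sum_le_tsum (range k)
          (fun i _ => pow_nonneg ht0.le i)
        rwa [tsum_geometric_of_lt_one ht0.le ht1] at this
      rw [h3]
      calc C * t ^ n0 * ∑ i ∈ range k, t ^ i ≤ C * t ^ n0 * (1 - t)⁻¹ :=
            mul_le_mul_of_nonneg_left h4 (mul_nonneg hC (pow_nonneg ht0.le _))
        _ ≤ 1 / 2 := hn0.le
    have hu_pos : ∀ n, 0 < u n := fun n => Finset.prod_pos fun i _ => by
      have := h1 (i + 1); linarith
    have hanti : ∀ n k, u (n + k) ≤ u n := by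
      intro n k
      induction k with
      | zero => simp
      | succ k ih =>
        have h3 : u (n + (k + 1)) = u (n + k) * (1 - θ (n + k + 1)) := hus (n + k)
        rw [h3]
        have := h0 (n + k + 1)
        have := hu0 (n + k)
        nlinarith
    refine ⟨u n0 / 2, by have := hu_pos n0; linarith, fun n => ?_⟩
    rcases le_total n n0 with h | h
    · obtain ⟨k, rfl⟩ := Nat.exists_eq_add_of_le h
      have := hanti n k
      have := hu_pos (n + k)
      linarith
    · obtain ⟨k, rfl⟩ := Nat.exists_eq_add_of_le h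
      have h3 := hA k
      have h4 := hB k
      have h5 := hu_pos n0
      nlinarith
  -- choice of lam
  have hcont : ContinuousAt (fun l : ℝ => l * ((1 - κ') + C * ((1 - l * t)⁻¹ - (1 - t)⁻¹))) 1 := by
    have h3 : (1 : ℝ) - 1 * t ≠ 0 := by rw [one_mul]; linarith
    fun_prop (disch := exact h3)
  have hval : (fun l : ℝ => l * ((1 - κ') + C * ((1 - l * t)⁻¹ - (1 - t)⁻¹))) 1 < 1 := by
    simp only [one_mul, sub_self, mul_zero, add_zero]
    linarith
  have hev := hcont.eventually (gt_mem_nhds hval)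
  have hev2 : ∀ᶠ l : ℝ in nhds 1, l * t < 1 := by
    have : ContinuousAt (fun l : ℝ => l * t) 1 := by fun_prop
    exact this.eventually (gt_mem_nhds (by simpa using ht1))
  obtain ⟨lam, hl1, hl2, hl3⟩ : ∃ l : ℝ, 1 < l ∧
      l * ((1 - κ') + C * ((1 - l * t)⁻¹ - (1 - t)⁻¹)) < 1 ∧ l * t < 1 := by
    have h3 := (hev.and hev2)
    rw [Metric.eventually_nhds_iff] at h3
    obtain ⟨ε, hε, h3⟩ := h3
    refine ⟨1 + ε / 2, by linarith, ?_⟩
    have := h3 (y := 1 + ε / 2) (by rw [Real.dist_eq]; rw [abs_of_pos] <;> linarith)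
    exact this
  have hσ : ∀ N, ∑ y ∈ range N, lam ^ y * (∏ i ∈ range y, (1 - θ (i + 1))) * θ (y + 1)
      ≤ (1 - κ') + C * ((1 - lam * t)⁻¹ - (1 - t)⁻¹) := by
    intro N
    have h3 : ∀ y, lam ^ y * u y * θ (y + 1) ≤ (u y - u (y + 1)) + C * ((lam * t) ^ y - t ^ y) := by
      intro y
      have h4 : u y - u (y + 1) = u y * θ (y + 1) := by rw [hus]; ring
      rw [h4]
      have h5 : u y ≤ 1 := by
        refine Finset.prod_le_one (fun i _ => by have := h1 (i + 1); linarith) (fun i _ => by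
          have := h0 (i + 1); linarith)
      have h6 : 1 ≤ lam ^ y := one_le_pow₀ hl1.le
      have h7 := h2' y
      have h8 := hu0 y
      have h9 := h0 (y + 1)
      have h10 : 0 ≤ t ^ y := pow_nonneg ht0.le y
      rw [mul_pow]
      have h11 : (lam ^ y - 1) * (u y * θ (y + 1)) ≤ (lam ^ y - 1) * (C * t ^ y) := by
        refine mul_le_mul_of_nonneg_left ?_ (by linarith)
        nlinarith
      nlinarith
    have h4 : ∑ y ∈ range N, (u y - u (y + 1)) = 1 - u N := by
      rw [Finset.sum_range_sub']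
      simp [hu]
    have h5 : ∑ y ∈ range N, ((lam * t) ^ y - t ^ y) ≤ (1 - lam * t)⁻¹ - (1 - t)⁻¹ := by
      have hs1 := hasSum_geometric_of_lt_one (mul_pos (by linarith) ht0).le hl3
      have hs2 := hasSum_geometric_of_lt_one ht0.le ht1
      have hs := hs1.sub hs2
      refine sum_le_hasSum (range N) (fun y _ => ?_) hs
      rw [mul_pow]
      have h6 : 1 ≤ lam ^ y := one_le_pow₀ hl1.le
      have h10 : 0 ≤ t ^ y := pow_nonneg ht0.le y
      nlinarith
    calc ∑ y ∈ range N, lam ^ y * (∏ i ∈ range y, (1 - θ (i + 1))) * θ (y + 1)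
        ≤ ∑ y ∈ range N, ((u y - u (y + 1)) + C * ((lam * t) ^ y - t ^ y)) :=
          Finset.sum_le_sum fun y _ => h3 y
      _ = (1 - u N) + C * ∑ y ∈ range N, ((lam * t) ^ y - t ^ y) := by
          rw [Finset.sum_add_distrib, h4, Finset.mul_sum]
      _ ≤ (1 - κ') + C * ((1 - lam * t)⁻¹ - (1 - t)⁻¹) := by
          have := hκ' N
          have := mul_le_mul_of_nonneg_left h5 hC
          linarith
  obtain ⟨V, hV1, hV2, hV3⟩ := lya_core θ lam _ h0 (fun j => by have := h1 j; linarith) hl1 hσ hl2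
  exact ⟨V, lam⁻¹, inv_pos.mpr (by linarith), inv_lt_one_of_one_lt₀ hl1, hV1, hV2, hV3⟩

end Pool.Helper95.OZ
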