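import Pool.Agent.Helper95.OZ.Mem
import Pool.Agent.Helper95.OZ.Arr
import Pool.Agent.Helper95.OZ.Lya

/-!
Project OZ (MP_7e0861_pr), line L3, block OZ-L3-7: positivity and exponential bound of the renewal parts.

Proof in words.  Take `κ, C, c, θ` of `Wa_mem` and `V, lam` of `exists_lya` (the `ρ` there is `lam` here).
For `γ ∈ Dm a b`, `a ≠ b`, take `k, t` of `exists_enum` and apply `arr` (`Arr.lean`) to
`W i j = Wa q ρ γ t i j` and `F i j = FG q ρ (t i) (t j) (seg (t i) (t j) γ)`.  The hypothesis `hF` of `arr` is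
`FG_eq` for the graph `seg (t i) (t j) γ` (its strictly inner cone points are the `t m`, `i < m < j`:
`cps_seg` and `exists_enum`; `low_seg`, `upp_seg`; `W1 = WI` for `i < j` by `Dm_edges_ne` and `seg_mem`).
The conclusion for `i = 0`, `j = k`: `seg a b γ = γ` (`seg_full`), `k = card + 1`; the two sums over `m ∈ Ioc 0 k` and
`Ico 0 k` are the sums over `cps γ a b = image t (Ioo 0 k)` plus the terms `m = k` (`W k k = 1`) and `m = 0`.
-/

namespace Pool.Helper95.OZ

open Pool.Helper49.FK Pool.Helper17.OZ Pool.Helper83.OZ Finset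

variable {q ρ : ℝ}

theorem FG_main (hq : 1 ≤ q) (hρ : 0 < ρ) (hD : ExpDecay q ρ) : ∃ C lam : ℝ, 0 < C ∧ 0 < lam ∧ lam < 1 ∧
    ∀ {a b : ℤ × ℤ} {γ : Gr}, γ ∈ Dm a b → a ≠ b →
      0 ≤ FG q ρ a b γ ∧ FG q ρ a b γ ≤ C * lam ^ (cps γ a b).card * WI q ρ γ ∧
      WI q ρ γ = FG q ρ a b γ + ∑ m ∈ cps γ a b, FG q ρ a m (low m γ) * WI q ρ (upp m γ) ∧
      WI q ρ γ = FG q ρ a b γ + ∑ m ∈ cps γ a b, WI q ρ (low m γ) * FG q ρ m b (upp m γ) := by
  classical
  obtain ⟨κ, C, c, hκ, hκ1, hC, hc, θ, hθ0, hθ1, hθ2, hmem⟩ := Wa_mem (q := q) (ρ := ρ) hq hρ hD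
  obtain ⟨V, lam, hl0, hl1, hVm, hV0, hV⟩ := exists_lya κ C c hκ hκ1 hC hc θ hθ0 hθ1 hθ2
  have hV1 : 1 ≤ V 1 := by
    have := hVm 0
    rw [zero_add] at this
    linarith
  refine ⟨V 1, lam, by linarith, hl0, hl1, ?_⟩
  intro a b γ hγ hab
  have hcl := (mem_Dm.1 hγ).1
  obtain ⟨k, t, hk1, ht0, htk, hmono, hcp, hcps, hcard⟩ := exists_enum hγ hab
  have hle : ∀ i j, i ≤ j → j ≤ k → (t i).1 ≤ (t j).1 := by
    intro i j hij hj
    rcases Nat.lt_or_ge i j with h | h
    · exact (hmono i j h hj).le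
    · have : i = j := le_antisymm hij h
      rw [this]
  have hW1eq : ∀ i j, i < j → j ≤ k → Wa q ρ γ t i j = WI q ρ (seg (t i) (t j) γ) := by
    intro i j hij hj
    unfold Wa W1
    rw [if_neg]
    refine Dm_edges_ne (seg_mem hcl (hcp i (by omega)) (hcp j hj) (hle i j hij.le hj)) ?_
    intro h
    have := hmono i j hij hj
    rw [h] at this
    exact lt_irrefl _ this
  have hcpsIJ : ∀ i j, i < j → j ≤ k → cps γ (t i) (t j) = (Ioo i j).image t := by
    intro i j hij hj
    ext x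
    rw [mem_cps, Finset.mem_image]
    constructor
    · rintro ⟨h1, h2, h3⟩
      have hx : x ∈ cps γ a b := by
        rw [mem_cps]
        refine ⟨h1, ?_, ?_⟩
        · have := hle 0 i (Nat.zero_le _) (by omega)
          rw [ht0] at this
          omega
        · have := hle j k hj le_rfl
          rw [htk] at this
          omega
      rw [hcps, Finset.mem_image] at hx
      obtain ⟨m, hm, rfl⟩ := hx
      rw [Finset.mem_Ioo] at hm
      refine ⟨m, ?_, rfl⟩
      rw [Finset.mem_Ioo]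
      constructor
      · by_contra h
        have := hle m i (by omega) (by omega)
        omega
      · by_contra h
        have := hle j m (by omega) (by omega)
        omega
    · rintro ⟨m, hm, rfl⟩
      rw [Finset.mem_Ioo] at hm
      exact ⟨hcp m (by omega), hmono i m hm.1 (by omega), hmono m j hm.2 hj⟩
  have hinj : ∀ i j, j ≤ k → Set.InjOn t ((Ioo i j : Finset ℕ) : Set ℕ) := by
    intro i j hj x hx y hy hxy
    rw [Finset.coe_Ioo, Set.mem_Ioo] at hx hy
    by_contra hne
    rcases Nat.lt_or_gt_of_ne hne with h | h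
    · have := hmono x y h (by omega)
      rw [hxy] at this
      exact lt_irrefl _ this
    · have := hmono y x h (by omega)
      rw [hxy] at this
      exact lt_irrefl _ this
  set F : ℕ → ℕ → ℝ := fun i j => FG q ρ (t i) (t j) (seg (t i) (t j) γ) with hF
  have hFrec : ∀ i j, i < j → j ≤ k →
      F i j = Wa q ρ γ t i j - ∑ m ∈ Ioo i j, F i m * Wa q ρ γ t m j := by
    intro i j hij hj
    have hi' := hcp i (by omega)
    have hj' := hcp j hj
    have hij' := hle i j hij.le hj
    have hmem' := seg_mem hcl hi' hj' hij'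
    simp only [hF]
    rw [FG_eq (mem_Dm.1 hmem').2.2.2.2, cps_seg hcl hi' hj' hij', hcpsIJ i j hij hj,
      Finset.sum_image (hinj i j hj), hW1eq i j hij hj]
    congr 1
    refine Finset.sum_congr rfl fun m hm => ?_
    rw [Finset.mem_Ioo] at hm
    have hm' := hcp m (by omega)
    rw [low_seg hcl hi' hm' hj' (hle i m hm.1.le (by omega)) (hle m j hm.2.le hj),
      upp_seg hcl hi' hm' hj' (hle i m hm.1.le (by omega)) (hle m j hm.2.le hj), hW1eq m j hm.2 hj]
  have hmain := arr k (Wa q ρ γ t) F θ V lam (fun i hi => Wa_self hcl (hcp i hi))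
    (fun i j _ _ => Wa_pos hq hρ γ t i j) (fun i m j h1 h2 h3 => Wa_mono hq hρ hcl hmono hcp i m j h1 h2 h3) hθ0
    (fun i m j h1 h2 h3 => hmem hcl hmono hcp i m j h1 h2 h3) hl0.le hVm hV0 hV hFrec 0 k (by omega) le_rfl
  obtain ⟨h1, h2, -, h4⟩ := hmain
  have hW0k : Wa q ρ γ t 0 k = WI q ρ γ := by
    rw [hW1eq 0 k (by omega) le_rfl, ht0, htk, seg_full hγ]
  have hF0k : F 0 k = FG q ρ a b γ := by
    simp only [hF]
    rw [ht0, htk, seg_full hγ]
  rw [hF0k] at h1 h2
  rw [hW0k] at h2 h4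
  have ha := cp_start hγ
  have hb := cp_end hγ
  refine ⟨h1, ?_, ?_, ?_⟩
  · refine h2.trans ?_
    have hW : 0 < WI q ρ γ := WI_pos hq hρ γ
    have e : k - 0 = (cps γ a b).card + 1 := by omega
    rw [e, pow_succ]
    have h5 : 0 ≤ lam ^ (cps γ a b).card := pow_nonneg hl0.le _
    have h6 : lam ^ (cps γ a b).card * lam ≤ lam ^ (cps γ a b).card := by nlinarith
    exact mul_le_mul_of_nonneg_right (mul_le_mul_of_nonneg_left h6 (by linarith)) hW.le
  · have h7 := FG_eq (q := q) (ρ := ρ) (a := a) (mem_Dm.1 hγ).2.2.2.2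
    linarith
  · have hsplit : Ico 0 k = insert 0 (Ioo 0 k) := by
      ext m
      simp only [Finset.mem_Ico, Finset.mem_insert, Finset.mem_Ioo]
      omega
    rw [hsplit, Finset.sum_insert (by simp), Wa_self hcl (hcp 0 (by omega)), one_mul, hF0k] at h4
    rw [h4, hcps, Finset.sum_image (hinj 0 k le_rfl)]
    congr 1
    refine Finset.sum_congr rfl fun m hm => ?_
    rw [Finset.mem_Ioo] at hm
    have hm' := hcp m (by omega)
    have e1 : a.1 ≤ (t m).1 := by
      have := hle 0 m (by omega) (by omega)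
      rwa [ht0] at this
    have e2 : (t m).1 ≤ b.1 := by
      have := hle m k (by omega) le_rfl
      rwa [htk] at this
    have e3 : low (t m) γ = seg a (t m) γ := by
      have := low_seg hcl ha hm' hb e1 e2
      rwa [seg_full hγ] at this
    have e4 : upp (t m) γ = seg (t m) b γ := by
      have := upp_seg hcl ha hm' hb e1 e2
      rwa [seg_full hγ] at this
    rw [hW1eq 0 m hm.1 (by omega), ht0, e3, e4]
    simp only [hF]
    rw [htk]

end Pool.Helper95.OZ
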