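import Pool.Agent.Helper83.OZ.Cut3
import Pool.Agent.Helper49.FK.Inf

/-!
Project OZ (MP_7e0861_pr), line L3: the renewal part `FG` of the weight of a diamond graph, the sums `UI`
(all diamond graphs from `0` to `x`) and `fI` (renewal parts).
-/

namespace Pool.Helper95.OZ

open Pool.Helper49.FK Pool.Helper17.OZ Pool.Helper83.OZ Finset

open Classical in
/-- The renewal part of the weight of a diamond graph `γ` from `a` to `b`
(see `FG_eq` for the recursion without the technical condition). -/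
noncomputable def FG (q ρ : ℝ) (a b : ℤ × ℤ) (γ : Gr) : ℝ :=
  WI q ρ γ - ∑ m ∈ cps γ a b,
    if h : (low m γ).1.card < γ.1.card then FG q ρ a m (low m γ) * WI q ρ (upp m γ) else 0
termination_by γ.1.card
decreasing_by exact h

open Classical in
theorem card_low_lt {γ : Gr} {a b m : ℤ × ℤ} (hb : b ∈ γ.1) (hm : m ∈ cps γ a b) :
    (low m γ).1.card < γ.1.card := by
  refine Finset.card_lt_card ⟨Finset.filter_subset _ _, fun h => ?_⟩
  have h1 := h hb
  unfold low at h1
  rw [Finset.mem_filter] at h1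
  have h2 := Y_nonneg h1.2
  have h3 := (mem_cps.1 hm).2.2
  simp only [Prod.fst_sub] at h2
  omega

open Classical in
/-- The recursion. -/
theorem FG_eq {q ρ : ℝ} {a b : ℤ × ℤ} {γ : Gr} (hb : b ∈ γ.1) :
    FG q ρ a b γ = WI q ρ γ - ∑ m ∈ cps γ a b, FG q ρ a m (low m γ) * WI q ρ (upp m γ) := by
  rw [FG]
  congr 1
  refine Finset.sum_congr rfl fun m hm => ?_
  rw [dif_pos (card_low_lt hb hm)]

/-- The sum over all diamond graphs from `0` to `x` (`1` for `x = 0`). -/
noncomputable def UI (q ρ : ℝ) (x : ℤ × ℤ) : ℝ := ∑ γ ∈ Dm 0 x, W1 q ρ γ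

/-- The sum of the renewal parts. -/
noncomputable def fI (q ρ : ℝ) (x : ℤ × ℤ) : ℝ := if x = 0 then 0 else ∑ γ ∈ Dm 0 x, FG q ρ 0 x γ

/-- The part of `γ` between the cone points `s` and `t`. -/
noncomputable def seg (s t : ℤ × ℤ) (γ : Gr) : Gr := low t (upp s γ)

/-- Translation of a graph. -/
noncomputable def trG (v : ℤ × ℤ) (γ : Gr) : Gr :=
  (tr v γ.1, γ.2.map ⟨fun e => (e.1 + v, e.2), fun e e' h => by
    simp only [Prod.mk.injEq, add_left_inj] at h
    exact Prod.ext h.1 h.2⟩)

/-- Reflection of an edge in the horizontal axis. -/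
def rfE (e : Edge) : Edge := if e.2 = true then ((e.1.1, -e.1.2), true) else ((e.1.1, -e.1.2 - 1), false)

/-- Reflection of a graph in the horizontal axis. -/
noncomputable def rfG (γ : Gr) : Gr := (rfY γ.1, γ.2.image rfE)

end Pool.Helper95.OZ
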