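import Pool.Agent.Helper95.OZ.Def

/-!
Project OZ (MP_7e0861_pr), line L3, block OZ-L3-3: translations of graphs.

Everything is compatible with the translation by `v`: `gr (trG v γ).2` is the translated graph, so `IsClu` is
preserved; `Y (y - m)` depends only on the difference; `WI` by `PsiI_tr` (`Helper49/FK/Inf.lean`), the card and the
number of edges being the same.  `FG_tr` by strong induction on `γ.1.card` with `FG_eq`.
-/

namespace Pool.Helper95.OZ

open Pool.Helper49.FK Pool.Helper17.OZ Pool.Helper83.OZ Finset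

variable {q ρ : ℝ} (v : ℤ × ℤ) {a b m : ℤ × ℤ} {γ : Gr}

private theorem mem_tr30 {D : Finset (ℤ × ℤ)} {x : ℤ × ℤ} : x ∈ tr v D ↔ x - v ∈ D := by
  unfold tr
  rw [Finset.mem_map]
  constructor
  · rintro ⟨y, hy, rfl⟩
    rw [addRightEmbedding_apply, add_sub_cancel_right]
    exact hy
  · intro h
    exact ⟨x - v, h, by rw [addRightEmbedding_apply, sub_add_cancel]⟩

private theorem tip_add30 (e : Edge) : tip (e.1 + v, e.2) = tip e + v := by
  obtain ⟨⟨x, y⟩, c⟩ := e
  cases c <;> simp [tip, Prod.ext_iff, add_right_comm]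

private theorem tip_sub30 (e : Edge) : tip (e.1 - v, e.2) = tip e - v := by
  have h := tip_add30 (-v) e
  rwa [← sub_eq_add_neg, ← sub_eq_add_neg] at h

private theorem mem_fst30 {x : ℤ × ℤ} : x ∈ (trG v γ).1 ↔ x - v ∈ γ.1 := mem_tr30 v

private theorem mem_snd30 {e : Edge} : e ∈ (trG v γ).2 ↔ ((e.1 - v, e.2) : Edge) ∈ γ.2 := by
  unfold trG
  dsimp only
  rw [Finset.mem_map]
  constructor
  · rintro ⟨e', he', rfl⟩
    change ((e'.1 + v - v, e'.2) : Edge) ∈ γ.2
    rw [add_sub_cancel_right]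
    exact he'
  · intro h
    refine ⟨(e.1 - v, e.2), h, ?_⟩
    change ((e.1 - v + v, e.2) : Edge) = e
    rw [sub_add_cancel]

theorem trG_trG (w : ℤ × ℤ) : trG w (trG v γ) = trG (v + w) γ := by
  refine Prod.ext ?_ ?_
  · ext x
    rw [mem_fst30, mem_fst30, mem_fst30, sub_sub, add_comm w v]
  · ext e
    rw [mem_snd30, mem_snd30, mem_snd30]
    dsimp only
    rw [sub_sub, add_comm w v]

theorem trG_zero : trG 0 γ = γ := by
  refine Prod.ext ?_ ?_
  · ext x
    rw [mem_fst30, sub_zero]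
  · ext e
    rw [mem_snd30, sub_zero]

private theorem trG_neg30 (γ : Gr) : trG (-v) (trG v γ) = γ := by
  rw [trG_trG, add_neg_cancel, trG_zero]

private theorem trG_neg30' (γ : Gr) : trG v (trG (-v) γ) = γ := by
  rw [trG_trG, neg_add_cancel, trG_zero]

theorem trG_injective : Function.Injective (trG v) :=
  Function.LeftInverse.injective (g := trG (-v)) (trG_neg30 v)

private theorem conn_tr30 {x y : ℤ × ℤ} (h : Conn γ.2 x y) : Conn (trG v γ).2 (x + v) (y + v) := by
  let f : gr γ.2 →g gr (trG v γ).2 :=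
    { toFun := fun x => x + v
      map_rel' := by
        rintro a b ⟨e, he, h⟩
        refine ⟨(e.1 + v, e.2), ?_, ?_⟩
        · rw [mem_snd30]
          dsimp only
          rw [add_sub_cancel_right]
          exact he
        · rw [tip_add30]
          rcases h with ⟨h1, h2⟩ | ⟨h1, h2⟩
          · exact Or.inl ⟨by rw [← h1], by rw [← h2]⟩
          · exact Or.inr ⟨by rw [← h1], by rw [← h2]⟩ }
  exact SimpleGraph.Reachable.map f h

private theorem mem_edges30 {V : Finset (ℤ × ℤ)} {e : Edge} : e ∈ edges V ↔ e.1 ∈ V ∧ tip e ∈ V := by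
  unfold edges
  rw [Finset.mem_filter, Finset.mem_product]
  constructor
  · exact fun h => ⟨h.1.1, h.2⟩
  · exact fun h => ⟨⟨h.1, Finset.mem_univ _⟩, h.2⟩

private theorem clu_tr30 (h : IsClu γ.1 γ.2) : IsClu (trG v γ).1 (trG v γ).2 := by
  refine ⟨fun e he => ?_, fun x hx y hy => ?_⟩
  · rw [mem_snd30] at he
    have h1 := mem_edges30.1 (h.1 he)
    rw [tip_sub30] at h1
    rw [mem_edges30, mem_fst30, mem_fst30]
    exact h1
  · rw [mem_fst30] at hx hy
    have h1 := conn_tr30 v (h.2 _ hx _ hy)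
    rwa [sub_add_cancel, sub_add_cancel] at h1

private theorem mem_Dm30 (h : γ ∈ Dm a b) : trG v γ ∈ Dm (a + v) (b + v) := by
  rw [mem_Dm] at h ⊢
  obtain ⟨h1, h2, h3, h4, h5⟩ := h
  refine ⟨clu_tr30 v h1, fun y hy => ?_, fun y hy => ?_, ?_, ?_⟩
  · rw [mem_fst30] at hy
    have h6 := h2 _ hy
    rwa [sub_sub, add_comm v a] at h6
  · rw [mem_fst30] at hy
    have h6 := h3 _ hy
    rwa [← sub_add, sub_add_eq_add_sub] at h6
  · rw [mem_fst30, add_sub_cancel_right]
    exact h4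
  · rw [mem_fst30, add_sub_cancel_right]
    exact h5

theorem mem_Dm_tr : trG v γ ∈ Dm (a + v) (b + v) ↔ γ ∈ Dm a b := by
  constructor
  · intro h
    have h1 := mem_Dm30 (-v) h
    rwa [trG_neg30, add_neg_cancel_right, add_neg_cancel_right] at h1
  · exact mem_Dm30 v

private theorem CP_tr30' {t : ℤ × ℤ} : CP (trG v γ).1 t ↔ CP γ.1 (t - v) := by
  unfold CP Dbl
  rw [mem_fst30]
  constructor
  · rintro ⟨h1, h2⟩
    refine ⟨h1, fun y hy => ?_⟩
    have h3 := h2 (y + v) (by rw [mem_fst30, add_sub_cancel_right]; exact hy)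
    have e1 : y - (t - v) = y + v - t := by abel
    have e2 : t - v - y = t - (y + v) := by abel
    rwa [e1, e2]
  · rintro ⟨h1, h2⟩
    refine ⟨h1, fun y hy => ?_⟩
    rw [mem_fst30] at hy
    have h3 := h2 _ hy
    have e1 : y - v - (t - v) = y - t := by abel
    have e2 : t - v - (y - v) = t - y := by abel
    rwa [e1, e2] at h3

theorem CP_tr : CP (trG v γ).1 (m + v) ↔ CP γ.1 m := by
  rw [CP_tr30', add_sub_cancel_right]

theorem cps_tr : cps (trG v γ) (a + v) (b + v) = tr v (cps γ a b) := by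
  ext t
  rw [mem_tr30, mem_cps, mem_cps, CP_tr30']
  simp only [Prod.fst_add, Prod.fst_sub]
  constructor
  · rintro ⟨h1, h2, h3⟩
    exact ⟨h1, by omega, by omega⟩
  · rintro ⟨h1, h2, h3⟩
    exact ⟨h1, by omega, by omega⟩

private theorem sub30 (m v y : ℤ × ℤ) : m + v - y = m - (y - v) := by abel

private theorem sub30' (m v y : ℤ × ℤ) : y - (m + v) = y - v - m := by abel

theorem low_tr : low (m + v) (trG v γ) = trG v (low m γ) := by
  refine Prod.ext ?_ ?_
  · ext y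
    rw [mem_fst30]
    simp only [low, Finset.mem_filter]
    rw [mem_fst30, sub30]
  · ext e
    rw [mem_snd30]
    simp only [low, Finset.mem_filter]
    rw [mem_snd30, sub30, sub30, tip_sub30]

theorem upp_tr : upp (m + v) (trG v γ) = trG v (upp m γ) := by
  refine Prod.ext ?_ ?_
  · ext y
    rw [mem_fst30]
    simp only [upp, Finset.mem_filter]
    rw [mem_fst30, sub30']
  · ext e
    rw [mem_snd30]
    simp only [upp, Finset.mem_filter]
    rw [mem_snd30, sub30', sub30', tip_sub30]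

theorem WI_tr (hq : 1 ≤ q) (hρ : 0 < ρ) : WI q ρ (trG v γ) = WI q ρ γ := by
  unfold WI bg
  have h1 : PsiI q ρ (trG v γ).1 = PsiI q ρ γ.1 := PsiI_tr hq hρ.le v γ.1
  have h2 : (trG v γ).1.card = γ.1.card := Finset.card_map _
  have h3 : ∏ e ∈ (trG v γ).2, hom ρ e = ∏ e ∈ γ.2, hom ρ e := Finset.prod_map _ _ _
  rw [h1, h2, h3]

theorem W1_tr (hq : 1 ≤ q) (hρ : 0 < ρ) : W1 q ρ (trG v γ) = W1 q ρ γ := by
  have h1 : (trG v γ).2 = ∅ ↔ γ.2 = ∅ := Finset.map_eq_empty
  unfold W1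
  rw [WI_tr v hq hρ]
  by_cases h2 : γ.2 = ∅
  · rw [if_pos h2, if_pos (h1.2 h2)]
  · rw [if_neg h2, if_neg (fun h3 => h2 (h1.1 h3))]

theorem FG_tr (hq : 1 ≤ q) (hρ : 0 < ρ) (hb : b ∈ γ.1) :
    FG q ρ (a + v) (b + v) (trG v γ) = FG q ρ a b γ := by
  induction hn : γ.1.card using Nat.strong_induction_on generalizing γ b with
  | _ n ih =>
    have hb' : b + v ∈ (trG v γ).1 := by
      rw [mem_fst30, add_sub_cancel_right]
      exact hb
    rw [FG_eq hb, FG_eq hb', WI_tr v hq hρ, cps_tr]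
    congr 1
    have h1 : ∑ m ∈ tr v (cps γ a b), FG q ρ (a + v) m (low m (trG v γ)) * WI q ρ (upp m (trG v γ)) =
        ∑ m ∈ cps γ a b, FG q ρ (a + v) (m + v) (low (m + v) (trG v γ)) *
          WI q ρ (upp (m + v) (trG v γ)) := Finset.sum_map _ _ _
    rw [h1]
    refine Finset.sum_congr rfl fun m hm => ?_
    rw [low_tr, upp_tr, WI_tr v hq hρ]
    congr 1
    have hm2 := (mem_cps.1 hm).1.1
    have hml : m ∈ (low m γ).1 := by
      simp only [low, Finset.mem_filter]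
      exact ⟨hm2, Y_self m⟩
    have hc := card_low_lt hb hm
    exact ih _ (by omega) hml rfl

theorem sum_Dm_tr (F : Gr → ℝ) : ∑ γ ∈ Dm (a + v) (b + v), F γ = ∑ γ ∈ Dm a b, F (trG v γ) := by
  refine Finset.sum_bij' (fun γ _ => trG (-v) γ) (fun γ _ => trG v γ) ?_ ?_ ?_ ?_ ?_
  · intro γ hγ
    have h1 := mem_Dm30 (-v) hγ
    rwa [add_neg_cancel_right, add_neg_cancel_right] at h1
  · intro γ hγ
    exact mem_Dm30 v hγ
  · intro γ _
    exact trG_neg30' v γ
  · intro γ _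
    exact trG_neg30 v γ
  · intro γ _
    rw [trG_neg30']

theorem sum_W1_eq (hq : 1 ≤ q) (hρ : 0 < ρ) (a b : ℤ × ℤ) : ∑ γ ∈ Dm a b, W1 q ρ γ = UI q ρ (b - a) := by
  have h := sum_Dm_tr a (a := 0) (b := b - a) (fun γ => W1 q ρ γ)
  rw [zero_add, sub_add_cancel] at h
  rw [h]
  unfold UI
  exact Finset.sum_congr rfl fun γ _ => W1_tr a hq hρ

theorem sum_FG_eq (hq : 1 ≤ q) (hρ : 0 < ρ) {a b : ℤ × ℤ} (h : a ≠ b) :
    ∑ γ ∈ Dm a b, FG q ρ a b γ = fI q ρ (b - a) := by
  have h1 := sum_Dm_tr a (a := 0) (b := b - a) (fun γ => FG q ρ a b γ)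
  rw [zero_add, sub_add_cancel] at h1
  rw [h1]
  unfold fI
  rw [if_neg (fun h2 => h (sub_eq_zero.1 h2).symm)]
  refine Finset.sum_congr rfl fun γ hγ => ?_
  have h3 := FG_tr a hq hρ (a := 0) (b := b - a) (γ := γ) (mem_Dm.1 hγ).2.2.2.2
  rwa [zero_add, sub_add_cancel] at h3

end Pool.Helper95.OZ
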