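import Pool.Agent.Helper95.OZ.Sum

/-!
Project OZ (MP_7e0861_pr), line L3, block OZ-L3-2: the memory through a cone point costs at most a constant.

`kappa`, proof in words.  Let `C, c` be the constants of `cone_sum` and `R` a natural number with
`C exp (-c (R / 8)) ≤ 1 / 2`; `B := Lam t R` (sup norm ball, `card ≤ (2 R + 1)^2`), `D1 := D \ B`.
* `Psi D V ≥ Psi D (B ∪ V) = Psi D B * Psi D1 V` (`Psi_anti_V`, `Psi_union`) and
  `Psi D B ≥ ∏ (1 + r e)⁻¹ ≥ (1 + ρ)⁻¹ ^ (4 (2 R + 1)^2)` (`Psi_lower`; at most four edges per vertex of `B`);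
* `S' := (S \ B) ∩ D1`, `V' := V \ B`: `Psi_ge` in `D1` gives
  `pr D1 (no s ∈ S', v ∈ V connected) * Psi (D1 \ S') V ≤ Psi D1 V`; for `v ∈ B` and `s ∈ D1` there is no
  connection in `D1` (`v ≠ s`, `v` touches no edge of `edges D1`), so by the union bound (`pr_conn_le`, `G_mono_r`,
  `G_le_GI`) the complement has probability at most `∑_{s ∈ S'} ∑_{v ∈ V'} GI s v ≤ 1 / 2`, because `Y (t - s)` and
  `s ∉ Lam t R` give `s.1 + R / 8 ≤ t.1` (if `t.1 - s.1 < R/8` then `|s.2 - t.2| ≤ 8 (t.1 - s.1) ≤ R`);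
* `Psi (D1 \ S') V = Psi (D \ (B ∪ S)) V ≥ Psi (D \ S) V` (`Psi_anti_D`).
So `κ = (1 + ρ)⁻¹ ^ (4 (2 R + 1)^2) / 2`.

`kappaI`: apply `kappa` with `D := box N \ K`, multiply by `Psi (box N) K * Psi (box N) (K ∪ S)`, use `Psi_union`
(`Psi D (K ∪ V) = Psi D K * Psi (D \ K) V`, `Psi D (K ∪ S ∪ V) = Psi D (K ∪ S) * Psi (D \ (K ∪ S)) V`) and let
`N → ∞` (`tendsto_Psi`).
-/

namespace Pool.Helper95.OZ

open Pool.Helper49.FK Pool.Helper17.OZ Pool.Helper83.OZ Finset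

variable {q ρ : ℝ}

private theorem kap_card_touch (D V : Finset (ℤ × ℤ)) :
    ((edges D).filter (fun e => e.1 ∈ V ∨ tip e ∈ V)).card ≤ 4 * V.card := by
  classical
  have hsub : (edges D).filter (fun e => e.1 ∈ V ∨ tip e ∈ V) ⊆
      (V ×ˢ (Finset.univ : Finset Bool)) ∪ (V ×ˢ (Finset.univ : Finset Bool)).image
        (fun p => ((if p.2 = true then (p.1.1 - 1, p.1.2) else (p.1.1, p.1.2 - 1)), p.2)) := by
    intro e he
    rw [Finset.mem_filter] at he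
    rw [Finset.mem_union]
    rcases he.2 with h | h
    · left
      rw [Finset.mem_product]
      exact ⟨h, Finset.mem_univ _⟩
    · right
      rw [Finset.mem_image]
      refine ⟨(tip e, e.2), ?_, ?_⟩
      · rw [Finset.mem_product]
        exact ⟨h, Finset.mem_univ _⟩
      · obtain ⟨⟨a, b⟩, c⟩ := e
        cases c <;> simp [tip]
  have h1 := Finset.card_le_card hsub
  have h2 := Finset.card_union_le (V ×ˢ (Finset.univ : Finset Bool))
    ((V ×ˢ (Finset.univ : Finset Bool)).image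
        (fun p => ((if p.2 = true then (p.1.1 - 1, p.1.2) else (p.1.1, p.1.2 - 1)), p.2)))
  have h3 := Finset.card_image_le (s := V ×ˢ (Finset.univ : Finset Bool))
    (f := fun p => ((if p.2 = true then (p.1.1 - 1, p.1.2) else (p.1.1, p.1.2 - 1)), p.2))
  have h4 : (V ×ˢ (Finset.univ : Finset Bool)).card = V.card * 2 := by
    rw [Finset.card_product]
    rfl
  omega

private theorem kap_card_Lam (x : ℤ × ℤ) (K : ℕ) : (Lam x K).card = (2 * K + 1) * (2 * K + 1) := by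
  unfold Lam
  rw [Finset.card_product, Int.card_Icc, Int.card_Icc]
  congr 1 <;> omega

private theorem kap_lower (hq : 1 ≤ q) (hρ : 0 < ρ) {r : Edge → ℝ} (hr : ∀ e, 0 ≤ r e)
    (hrρ : ∀ e, r e ≤ ρ) (D : Finset (ℤ × ℤ)) (t : ℤ × ℤ) (R : ℕ) :
    ((1 + ρ)⁻¹) ^ (4 * ((2 * R + 1) * (2 * R + 1))) ≤ Psi q r D (Lam t R) := by
  have h1 := Psi_lower (q := q) (r := r) (D := D) (V := Lam t R) hq hr
  refine le_trans ?_ h1
  have hx0 : (0 : ℝ) ≤ (1 + ρ)⁻¹ := by positivity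
  have hx1 : (1 + ρ)⁻¹ ≤ (1 : ℝ) := inv_le_one_of_one_le₀ (by linarith)
  have h2 : ((1 + ρ)⁻¹) ^ ((edges D).filter (fun e => e.1 ∈ Lam t R ∨ tip e ∈ Lam t R)).card ≤
      ∏ e ∈ (edges D).filter (fun e => e.1 ∈ Lam t R ∨ tip e ∈ Lam t R), (1 + r e)⁻¹ := by
    rw [← Finset.prod_const]
    refine Finset.prod_le_prod (fun _ _ => hx0) fun e _ => ?_
    have h3 := hr e
    have h4 := hrρ e
    exact inv_anti₀ (by linarith) (by linarith)
  refine le_trans ?_ h2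
  refine pow_le_pow_of_le_one hx0 hx1 ?_
  rw [← kap_card_Lam t R]
  exact kap_card_touch _ _

theorem kappa (hq : 1 ≤ q) (hρ : 0 < ρ) (hD : ExpDecay q ρ) : ∃ κ : ℝ, 0 < κ ∧ κ ≤ 1 ∧
    ∀ r : Edge → ℝ, (∀ e, 0 ≤ r e) → (∀ e, r e ≤ ρ) → ∀ (D S V : Finset (ℤ × ℤ)) (t : ℤ × ℤ),
      (∀ s ∈ S, Y (t - s)) → (∀ v ∈ V, Y (v - t)) → κ * Psi q r (D \ S) V ≤ Psi q r D V := by
  classical
  obtain ⟨C, c, hC, hc, hsum⟩ := cone_sum hq hρ hD
  have hq0 : 0 < q := by linarith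
  obtain ⟨d, hd⟩ : ∃ d : ℕ, C * Real.exp (-c * d) ≤ 1 / 2 := by
    have h1 : Filter.Tendsto (fun d : ℕ => C * Real.exp (-c * d)) Filter.atTop (nhds (C * 0)) := by
      refine Filter.Tendsto.const_mul C ?_
      have h2 : Filter.Tendsto (fun d : ℕ => c * (d : ℝ)) Filter.atTop Filter.atTop :=
        Filter.Tendsto.const_mul_atTop hc tendsto_natCast_atTop_atTop
      have h3 := Real.tendsto_exp_neg_atTop_nhds_zero.comp h2
      refine h3.congr fun d => ?_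
      rw [Function.comp_apply, neg_mul]
    rw [mul_zero] at h1
    exact ((h1.eventually (gt_mem_nhds (show (0 : ℝ) < 1 / 2 by norm_num))).exists).imp
      fun d hd => hd.le
  set R : ℕ := 8 * d with hR
  set κ₁ : ℝ := ((1 + ρ)⁻¹) ^ (4 * ((2 * R + 1) * (2 * R + 1))) with hκ₁
  have hκ₁0 : 0 < κ₁ := by positivity
  have hκ₁1 : κ₁ ≤ 1 := pow_le_one₀ (by positivity) (inv_le_one_of_one_le₀ (by linarith))
  refine ⟨κ₁ / 2, by positivity, by linarith, ?_⟩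
  intro r hr hrρ D S V t hS hV
  set B := Lam t R with hB
  set D1 := D \ B with hD1
  set S' := S ∩ D1 with hS'
  have h1 : Psi q r D B * Psi q r D1 V ≤ Psi q r D V := by
    rw [← Psi_union hq0 hr]
    exact Psi_anti_V hq0 hr Finset.subset_union_right
  have h2 : κ₁ ≤ Psi q r D B := kap_lower hq hρ hr hrρ D t R
  have h3 := Psi_ge (q := q) (r := r) (D := D1) (S := S') (V := V) hq hr Finset.inter_subset_right
  have h4 := pr_conn_le (q := q) (r := r) (D := D1) hq0 hr S' V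
  have h5 : pr q r D1 (fun ω => ∀ s ∈ S', ∀ v ∈ V, ¬ Conn ω s v) +
      pr q r D1 (fun ω => ∃ s ∈ S', ∃ v ∈ V, Conn ω s v) = 1 := by
    unfold pr
    rw [← ex_add]
    refine (ex_congr (g := fun _ => 1) fun ω _ => ?_).trans (ex_const hq0 hr 1)
    by_cases h : ∃ s ∈ S', ∃ v ∈ V, Conn ω s v
    · have h' : ¬ ∀ s ∈ S', ∀ v ∈ V, ¬ Conn ω s v := by
        push Not
        exact h
      rw [if_pos h, if_neg h', zero_add]
    · have h' : ∀ s ∈ S', ∀ v ∈ V, ¬ Conn ω s v := by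
        push Not at h
        exact h
      rw [if_neg h, if_pos h', add_zero]
  have h6 : ∑ s ∈ S', ∑ v ∈ V, G q r D1 s v ≤ 1 / 2 := by
    refine le_trans ?_ ((hsum S' V t d ?_ hV).trans hd)
    · exact Finset.sum_le_sum fun s _ => Finset.sum_le_sum fun v _ =>
        (G_mono_r hq hr (r' := hom ρ) (fun e => hrρ e) s v).trans (G_le_GI hq hρ.le _ _ _)
    · intro s hs
      rw [hS', Finset.mem_inter, hD1, Finset.mem_sdiff] at hs
      have hY := hS s hs.1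
      refine ⟨hY, ?_⟩
      by_contra hlt
      push Not at hlt
      apply hs.2.2
      unfold Y at hY
      simp only [Prod.fst_sub, Prod.snd_sub] at hY
      rw [abs_le] at hY
      rw [hB]
      unfold Lam
      rw [Finset.mem_product, Finset.mem_Icc, Finset.mem_Icc, hR]
      push_cast
      omega
  have h7 : (1 / 2 : ℝ) * Psi q r (D1 \ S') V ≤ Psi q r D1 V := by
    refine le_trans (mul_le_mul_of_nonneg_right ?_ (Psi_pos hq0 hr).le) h3
    linarith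
  have h8 : Psi q r (D \ S) V ≤ Psi q r (D1 \ S') V := by
    refine Psi_anti_D hq hr fun x hx => ?_
    rw [Finset.mem_sdiff] at hx ⊢
    rw [hS', Finset.mem_inter] at hx
    exact ⟨(Finset.mem_sdiff.1 (hD1 ▸ hx.1)).1, fun h => hx.2 ⟨h, hx.1⟩⟩
  have h9 : 0 < Psi q r D1 V := Psi_pos hq0 hr
  calc κ₁ / 2 * Psi q r (D \ S) V ≤ κ₁ / 2 * Psi q r (D1 \ S') V :=
        mul_le_mul_of_nonneg_left h8 (by positivity)
    _ = κ₁ * (1 / 2 * Psi q r (D1 \ S') V) := by ring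
    _ ≤ κ₁ * Psi q r D1 V := mul_le_mul_of_nonneg_left h7 hκ₁0.le
    _ ≤ Psi q r D B * Psi q r D1 V := mul_le_mul_of_nonneg_right h2 h9.le
    _ ≤ Psi q r D V := h1

/-- The product form of `kappa`. -/
theorem kappa_mul (hq : 1 ≤ q) (hρ : 0 < ρ) (hD : ExpDecay q ρ) : ∃ κ : ℝ, 0 < κ ∧ κ ≤ 1 ∧
    ∀ r : Edge → ℝ, (∀ e, 0 ≤ r e) → (∀ e, r e ≤ ρ) → ∀ (D K S V : Finset (ℤ × ℤ)) (t : ℤ × ℤ),
      (∀ s ∈ S, Y (t - s)) → (∀ v ∈ V, Y (v - t)) →
        κ * (Psi q r D (K ∪ S ∪ V) * Psi q r D K) ≤ Psi q r D (K ∪ S) * Psi q r D (K ∪ V) := by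
  classical
  obtain ⟨κ, h0, h1, h⟩ := kappa hq hρ hD
  have hq0 : 0 < q := by linarith
  refine ⟨κ, h0, h1, fun r hr hrρ D K S V t hS hV => ?_⟩
  have h2 := h r hr hrρ (D \ K) S V t hS hV
  have h3 : (D \ K) \ S = D \ (K ∪ S) := by
    ext x
    simp only [Finset.mem_sdiff, Finset.mem_union]
    tauto
  rw [h3] at h2
  rw [Psi_union (S := K ∪ S) (V := V) hq0 hr, Psi_union (S := K) (V := V) hq0 hr]
  have h4 : 0 < Psi q r D K := Psi_pos hq0 hr
  have h5 : 0 < Psi q r D (K ∪ S) := Psi_pos hq0 hr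
  calc κ * (Psi q r D (K ∪ S) * Psi q r (D \ (K ∪ S)) V * Psi q r D K) =
      (Psi q r D (K ∪ S) * Psi q r D K) * (κ * Psi q r (D \ (K ∪ S)) V) := by ring
    _ ≤ (Psi q r D (K ∪ S) * Psi q r D K) * Psi q r (D \ K) V :=
      mul_le_mul_of_nonneg_left h2 (by positivity)
    _ = Psi q r D (K ∪ S) * (Psi q r D K * Psi q r (D \ K) V) := by ring

theorem kappaI (hq : 1 ≤ q) (hρ : 0 < ρ) (hD : ExpDecay q ρ) : ∃ κ : ℝ, 0 < κ ∧ κ ≤ 1 ∧
    ∀ (K S V : Finset (ℤ × ℤ)) (t : ℤ × ℤ), (∀ s ∈ S, Y (t - s)) → (∀ v ∈ V, Y (v - t)) →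
      κ * (PsiI q ρ (K ∪ S ∪ V) * PsiI q ρ K) ≤ PsiI q ρ (K ∪ S) * PsiI q ρ (K ∪ V) := by
  obtain ⟨κ, h0, h1, h⟩ := kappa_mul hq hρ hD
  refine ⟨κ, h0, h1, fun K S V t hS hV => ?_⟩
  exact le_of_tendsto_of_tendsto'
    (((tendsto_Psi hq hρ.le (K ∪ S ∪ V)).mul (tendsto_Psi hq hρ.le K)).const_mul κ)
    ((tendsto_Psi hq hρ.le (K ∪ S)).mul (tendsto_Psi hq hρ.le (K ∪ V)))
    fun N => h (hom ρ) (fun _ => hρ.le) (fun _ => le_rfl) (Helper49.FK.box N) K S V t hS hV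

end Pool.Helper95.OZ
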