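import Mathlib

/-!
Project OZ (MP_7e0861_pr), line L3: the label expansion (renewal structure of words with memory).

A word is a list of letters, the most recent letter FIRST.  `μ g l` is the weight of the letter `g` after the past
`l`, increasing in the past.  `mw` is the weight of a word, `fw` the weight of a word without renewal cut:
`mw u = ∑ fw (last part) * mw (rest)` (`mw_eq_last`) and `mw u = ∑ mw (last part) * fw (first part)` (`mw_eq_first`).
-/

namespace Pool.Helper95.OZ

open Finset

variable {P : Type*}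

/-- Weight of a word (most recent letter first). -/
def mw (μ : P → List P → ℝ) : List P → ℝ
  | [] => 1
  | g :: l => μ g l * mw μ l

/-- Weight of the label `j` (memory exactly `j`) of the letter `g` after the past `l`. -/
def dw (μ : P → List P → ℝ) (g : P) (l : List P) (j : ℕ) : ℝ :=
  if j = 0 then μ g [] else μ g (l.take j) - μ g (l.take (j - 1))

/-- Weight of the labelled words in which all inner cuts are covered, when the `x` most recent cuts
(the first of them is the cut in front of the most recent letter) are covered from outside. -/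
def aw (μ : P → List P → ℝ) : List P → ℕ → ℝ
  | [], _ => 1
  | g :: l, x => ∑ j ∈ range (l.length + 1),
      if max (x - 1) j = 0 ∧ l ≠ [] then 0 else dw μ g l j * aw μ l (max (x - 1) j)

/-- Weight of a word without renewal cut. -/
def fw (μ : P → List P → ℝ) (u : List P) : ℝ := aw μ u 1

theorem sum_dw (μ : P → List P → ℝ) (g : P) (l : List P) :
    ∑ j ∈ range (l.length + 1), dw μ g l j = μ g l := by
  have h : ∀ n, ∑ j ∈ range (n + 1), dw μ g l j = μ g (l.take n) := by
    intro n
    induction n with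
    | zero => simp [dw]
    | succ n ih =>
      rw [Finset.sum_range_succ, ih]
      simp [dw]
  rw [h, List.take_length]

theorem dw_take (μ : P → List P → ℝ) (g : P) (l : List P) {n j : ℕ} (h : j ≤ n) :
    dw μ g (l.take n) j = dw μ g l j := by
  unfold dw
  by_cases hj : j = 0
  · simp [hj]
  · rw [if_neg hj, if_neg hj, List.take_take, List.take_take, min_eq_left h,
      min_eq_left (by omega : j - 1 ≤ n)]

theorem mw_eq_last_aux (μ : P → List P → ℝ) (u : List P) : ∀ x : ℕ, 1 ≤ x →
    mw μ u = aw μ u x + ∑ n ∈ Ico x u.length, aw μ (u.take n) x * mw μ (u.drop n) := by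
  induction u with
  | nil => intro x hx; simp [mw, aw]
  | cons g l ih =>
    intro x hx
    obtain ⟨y, rfl⟩ : ∃ y, x = y + 1 := ⟨x - 1, by omega⟩
    -- the left side
    have hL : mw μ (g :: l) = ∑ j ∈ range (l.length + 1), dw μ g l j * mw μ l := by
      rw [← Finset.sum_mul, sum_dw, mw]
    -- the second sum on the right
    have hR : ∑ n ∈ Ico (y + 1) (g :: l).length, aw μ ((g :: l).take n) (y + 1) * mw μ ((g :: l).drop n)
        = ∑ n ∈ Ico y l.length, ∑ j ∈ range (n + 1),
          (if max y j = 0 ∧ n ≠ 0 then 0 else dw μ g l j * (aw μ (l.take n) (max y j) * mw μ (l.drop n))) := by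
      rw [List.length_cons, ← Finset.sum_Ico_add' _ y l.length 1]
      refine Finset.sum_congr rfl fun n hn => ?_
      rw [Finset.mem_Ico] at hn
      rw [List.take_succ_cons, List.drop_succ_cons, aw, Finset.sum_mul]
      have hlen : (l.take n).length = n := by rw [List.length_take]; omega
      rw [hlen]
      refine Finset.sum_congr rfl fun j hj => ?_
      rw [Finset.mem_range] at hj
      have hne : (l.take n ≠ []) ↔ n ≠ 0 := by
        rw [← List.length_pos_iff_ne_nil, hlen]; omega
      rw [dw_take μ g l (by omega : j ≤ n)]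
      simp only [Nat.add_sub_cancel, hne]
      split_ifs
      · simp
      · ring
    have hS : ∑ n ∈ Ico y l.length, ∑ j ∈ range (n + 1),
          (if max y j = 0 ∧ n ≠ 0 then 0 else dw μ g l j * (aw μ (l.take n) (max y j) * mw μ (l.drop n)))
        = ∑ j ∈ range (l.length + 1), ∑ n ∈ Ico (max y j) l.length,
          (if max y j = 0 ∧ n ≠ 0 then 0 else dw μ g l j * (aw μ (l.take n) (max y j) * mw μ (l.drop n))) := by
      rw [Finset.sum_sigma', Finset.sum_sigma']
      refine Finset.sum_bij' (fun a _ => ⟨a.2, a.1⟩) (fun a _ => ⟨a.2, a.1⟩) ?_ ?_ ?_ ?_ ?_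
      · rintro ⟨n, j⟩ h
        simp only [Finset.mem_sigma, Finset.mem_Ico, Finset.mem_range] at h ⊢
        omega
      · rintro ⟨j, n⟩ h
        simp only [Finset.mem_sigma, Finset.mem_Ico, Finset.mem_range] at h ⊢
        omega
      · rintro ⟨n, j⟩ h; rfl
      · rintro ⟨j, n⟩ h; rfl
      · rintro ⟨n, j⟩ h; rfl
    rw [hL, hR, hS, aw, ← Finset.sum_add_distrib]
    refine Finset.sum_congr rfl fun j hj => ?_
    simp only [Nat.add_sub_cancel]
    by_cases h0 : max y j = 0
    · by_cases hl : l = []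
      · subst hl
        simp [h0, aw, mw]
      · have hpos : 0 < l.length := List.length_pos_iff_ne_nil.mpr hl
        have hsplit : Ico (max y j) l.length = insert 0 (Ico 1 l.length) := by
          rw [h0]; ext n; simp only [Finset.mem_Ico, Finset.mem_insert]; omega
        rw [if_pos ⟨h0, hl⟩, hsplit, Finset.sum_insert (by simp)]
        rw [Finset.sum_eq_zero (s := Ico 1 l.length) (fun n hn => by
          rw [Finset.mem_Ico] at hn
          rw [if_pos ⟨h0, by omega⟩])]
        simp [aw]
    · rw [if_neg (fun h => h0 h.1), ih (max y j) (by omega), mul_add, Finset.mul_sum]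
      congr 1
      refine Finset.sum_congr rfl fun n _ => ?_
      rw [if_neg (fun h => h0 h.1)]

/-- Decomposition at the LAST renewal cut. -/
theorem mw_eq_last (μ : P → List P → ℝ) (u : List P) (hu : u ≠ []) :
    mw μ u = ∑ n ∈ Ico 1 (u.length + 1), fw μ (u.take n) * mw μ (u.drop n) := by
  have h := mw_eq_last_aux μ u 1 le_rfl
  have hpos : 0 < u.length := List.length_pos_iff_ne_nil.mpr hu
  rw [Finset.sum_Ico_succ_top (by omega), List.take_length, List.drop_length, h]
  simp only [fw, mw, mul_one]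
  ring

/-- Decomposition at the FIRST renewal cut. -/
theorem mw_eq_first (μ : P → List P → ℝ) : ∀ (k : ℕ) (u : List P), u.length = k → u ≠ [] →
    mw μ u = ∑ n ∈ range u.length, mw μ (u.take n) * fw μ (u.drop n) := by
  intro k
  induction k using Nat.strong_induction_on with
  | _ k ih =>
    intro u hk hu
    have hpos : 0 < u.length := List.length_pos_iff_ne_nil.mpr hu
    have h1 := mw_eq_last μ u hu
    rw [Finset.sum_Ico_succ_top (by omega), List.take_length, List.drop_length] at h1
    have h2 : ∑ n ∈ Ico 1 u.length, fw μ (u.take n) * mw μ (u.drop n)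
        = ∑ n ∈ Ico 1 u.length, ∑ N ∈ Ico n u.length,
          fw μ (u.take n) * (mw μ ((u.take N).drop n) * fw μ (u.drop N)) := by
      refine Finset.sum_congr rfl fun n hn => ?_
      rw [Finset.mem_Ico] at hn
      have hlen : (u.drop n).length = u.length - n := List.length_drop
      have hne : u.drop n ≠ [] := by
        rw [← List.length_pos_iff_ne_nil, hlen]; omega
      rw [ih (u.length - n) (by omega) (u.drop n) hlen hne, hlen, Finset.mul_sum]
      rw [Finset.sum_Ico_eq_sum_range]
      refine Finset.sum_congr rfl fun i hi => ?_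
      rw [List.drop_drop, List.drop_take]
      congr 3
      rw [Nat.add_sub_cancel_left]
    have h3 : ∑ n ∈ Ico 1 u.length, ∑ N ∈ Ico n u.length,
          fw μ (u.take n) * (mw μ ((u.take N).drop n) * fw μ (u.drop N))
        = ∑ N ∈ Ico 1 u.length, ∑ n ∈ Ico 1 (N + 1),
          fw μ (u.take n) * (mw μ ((u.take N).drop n) * fw μ (u.drop N)) := by
      rw [Finset.sum_sigma', Finset.sum_sigma']
      refine Finset.sum_bij' (fun a _ => ⟨a.2, a.1⟩) (fun a _ => ⟨a.2, a.1⟩) ?_ ?_ ?_ ?_ ?_
      · rintro ⟨n, j⟩ h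
        simp only [Finset.mem_sigma, Finset.mem_Ico] at h ⊢
        omega
      · rintro ⟨j, n⟩ h
        simp only [Finset.mem_sigma, Finset.mem_Ico] at h ⊢
        omega
      · rintro ⟨n, j⟩ h; rfl
      · rintro ⟨j, n⟩ h; rfl
      · rintro ⟨n, j⟩ h; rfl
    have h4 : ∀ N ∈ Ico 1 u.length, ∑ n ∈ Ico 1 (N + 1),
          fw μ (u.take n) * (mw μ ((u.take N).drop n) * fw μ (u.drop N))
        = mw μ (u.take N) * fw μ (u.drop N) := by
      intro N hN
      rw [Finset.mem_Ico] at hN
      have hlen : (u.take N).length = N := by rw [List.length_take]; omega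
      have hne : u.take N ≠ [] := by
        rw [← List.length_pos_iff_ne_nil, hlen]; omega
      rw [mw_eq_last μ (u.take N) hne, hlen, Finset.sum_mul]
      refine Finset.sum_congr rfl fun n hn => ?_
      rw [Finset.mem_Ico] at hn
      rw [List.take_take, min_eq_left (by omega : n ≤ N)]
      ring
    rw [h1, h2, h3, Finset.sum_congr rfl h4]
    have hr : range u.length = insert 0 (Ico 1 u.length) := by
      ext n; simp only [Finset.mem_range, Finset.mem_Ico, Finset.mem_insert]; omega
    rw [hr, Finset.sum_insert (by simp)]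
    simp [mw]
    ring

/-- Positivity. -/
theorem aw_nonneg (μ : P → List P → ℝ) (h0 : ∀ g l, 0 ≤ μ g l)
    (hm : ∀ (g : P) (l : List P) (n : ℕ), μ g (l.take n) ≤ μ g (l.take (n + 1))) :
    ∀ (u : List P) (x : ℕ), 0 ≤ aw μ u x := by
  intro u
  induction u with
  | nil => intro x; simp [aw]
  | cons g l ih =>
    intro x
    rw [aw]
    refine Finset.sum_nonneg fun j _ => ?_
    split_ifs
    · exact le_rfl
    · refine mul_nonneg ?_ (ih _)
      unfold dw
      split_ifs with hj
      · exact h0 _ _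
      · obtain ⟨k, rfl⟩ : ∃ k, j = k + 1 := ⟨j - 1, by omega⟩
        have := hm g l k
        simp only [Nat.add_sub_cancel]
        linarith

theorem dw_nonneg (μ : P → List P → ℝ) (h0 : ∀ g l, 0 ≤ μ g l)
    (hm : ∀ (g : P) (l : List P) (n : ℕ), μ g (l.take n) ≤ μ g (l.take (n + 1))) (g : P) (l : List P) (j : ℕ) :
    0 ≤ dw μ g l j := by
  unfold dw
  split_ifs with hj
  · exact h0 _ _
  · obtain ⟨k, rfl⟩ : ∃ k, j = k + 1 := ⟨j - 1, by omega⟩
    have := hm g l k
    simp only [Nat.add_sub_cancel]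
    linarith

theorem mw_nonneg (μ : P → List P → ℝ) (h0 : ∀ g l, 0 ≤ μ g l) (u : List P) : 0 ≤ mw μ u := by
  induction u with
  | nil => simp [mw]
  | cons g l ih => exact mul_nonneg (h0 _ _) ih

theorem aw_le_mw (μ : P → List P → ℝ) (h0 : ∀ g l, 0 ≤ μ g l)
    (hm : ∀ (g : P) (l : List P) (n : ℕ), μ g (l.take n) ≤ μ g (l.take (n + 1))) (u : List P) (x : ℕ)
    (hx : 1 ≤ x) : aw μ u x ≤ mw μ u := by
  rw [mw_eq_last_aux μ u x hx]
  have : 0 ≤ ∑ n ∈ Ico x u.length, aw μ (u.take n) x * mw μ (u.drop n) :=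
    Finset.sum_nonneg fun n _ => mul_nonneg (aw_nonneg μ h0 hm _ _) (mw_nonneg μ h0 _)
  linarith

theorem sum_dw_take (μ : P → List P → ℝ) (g : P) (l : List P) (n : ℕ) :
    ∑ j ∈ range (n + 1), dw μ g l j = μ g (l.take n) := by
  induction n with
  | zero => simp [dw]
  | succ n ih =>
    rw [Finset.sum_range_succ, ih]
    simp [dw]

/-- Summation by parts. -/
theorem abel (d V : ℕ → ℝ) (n x : ℕ) (hx : 1 ≤ x) :
    ∑ j ∈ range (n + 1), d j * V (max (x - 1) j)
      = V (x - 1) * ∑ j ∈ range (n + 1), d j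
        + ∑ y ∈ Ico x (n + 1), (V y - V (y - 1)) * ∑ j ∈ Ico y (n + 1), d j := by
  have hV : ∀ j, V (max (x - 1) j) = V (x - 1) + ∑ y ∈ Ico x (j + 1), (V y - V (y - 1)) := by
    intro j
    rcases le_or_gt j (x - 1) with h | h
    · rw [max_eq_left h, Finset.Ico_eq_empty (by omega)]
      simp
    · rw [max_eq_right h.le]
      have : ∀ k, ∑ y ∈ Ico x (x + k), (V y - V (y - 1)) = V (x + k - 1) - V (x - 1) := by
        intro k
        induction k with
        | zero => simp
        | succ k ih =>
          rw [← add_assoc, Finset.sum_Ico_succ_top (by omega), ih]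
          have e1 : x + k + 1 - 1 = x + k := by omega
          rw [e1]; ring
      have h2 := this (j + 1 - x)
      have e2 : x + (j + 1 - x) = j + 1 := by omega
      rw [e2] at h2
      rw [h2]
      simp
  have h1 : ∑ j ∈ range (n + 1), d j * V (max (x - 1) j)
      = ∑ j ∈ range (n + 1), d j * V (x - 1)
        + ∑ j ∈ range (n + 1), ∑ y ∈ Ico x (j + 1), d j * (V y - V (y - 1)) := by
    rw [← Finset.sum_add_distrib]
    refine Finset.sum_congr rfl fun j _ => ?_
    rw [hV j, mul_add, Finset.mul_sum]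
  have h2 : ∑ j ∈ range (n + 1), ∑ y ∈ Ico x (j + 1), d j * (V y - V (y - 1))
      = ∑ y ∈ Ico x (n + 1), ∑ j ∈ Ico y (n + 1), d j * (V y - V (y - 1)) := by
    rw [Finset.sum_sigma', Finset.sum_sigma']
    refine Finset.sum_bij' (fun a _ => ⟨a.2, a.1⟩) (fun a _ => ⟨a.2, a.1⟩) ?_ ?_ ?_ ?_ ?_
    · rintro ⟨n, j⟩ h
      simp only [Finset.mem_sigma, Finset.mem_Ico, Finset.mem_range] at h ⊢
      omega
    · rintro ⟨j, n⟩ h
      simp only [Finset.mem_sigma, Finset.mem_Ico, Finset.mem_range] at h ⊢
      omega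
    · rintro ⟨n, j⟩ h; rfl
    · rintro ⟨j, n⟩ h; rfl
    · rintro ⟨n, j⟩ h; rfl
  rw [h1, h2, ← Finset.sum_mul, mul_comm (V (x - 1))]
  congr 1
  refine Finset.sum_congr rfl fun y _ => ?_
  rw [← Finset.sum_mul, mul_comm]

/-- One step of the tail bound.  `ν` is the homogeneous part of `μ g l`. -/
theorem aw_step (μ : P → List P → ℝ) (h0 : ∀ g l, 0 ≤ μ g l)
    (hm : ∀ (g : P) (l : List P) (n : ℕ), μ g (l.take n) ≤ μ g (l.take (n + 1)))
    (θ V : ℕ → ℝ) (ρ : ℝ) (hVm : ∀ x, V x ≤ V (x + 1)) (hV0 : 0 ≤ V 0)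
    (hV : ∀ x, 1 ≤ x → ∀ N, V (x - 1) + ∑ y ∈ Ico x N, (V y - V (y - 1)) * θ y ≤ ρ * V x)
    (g : P) (l : List P) (ν K M : ℝ) (hν0 : 0 ≤ ν) (hK : 0 ≤ K)
    (hν1 : ∀ j < l.length, μ g (l.take j) ≤ ν)
    (hν2 : ∀ j < l.length, ν - μ g (l.take j) ≤ θ (j + 1) * ν)
    (hν3 : ν ≤ μ g l) (hν4 : l = [] → ν = μ g l)
    (hA : ∀ x, (1 ≤ x ∨ l = []) → aw μ l x ≤ K * V x) (hM : ∀ x, 1 ≤ x → aw μ l x ≤ M) (x : ℕ)
    (hx : 1 ≤ x) :
    aw μ (g :: l) x ≤ ρ * V x * K * ν + (μ g l - ν) * M := by
  classical
  set n := l.length with hn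
  set d' : ℕ → ℝ := fun j => dw μ g l j - (if j = n then μ g l - ν else 0) with hd'
  have hsum' : ∀ y, y ≤ n → ∑ j ∈ Ico y (n + 1), d' j = ν - (if y = 0 then 0 else μ g (l.take (y - 1))) := by
    intro y hy
    have h1 : ∑ j ∈ Ico y (n + 1), (if j = n then μ g l - ν else 0) = μ g l - ν := by
      rw [Finset.sum_ite_eq' (Ico y (n + 1)) n, if_pos (by rw [Finset.mem_Ico]; omega)]
    have h2 : ∑ j ∈ Ico y (n + 1), dw μ g l j = μ g l - (if y = 0 then 0 else μ g (l.take (y - 1))) := by
      have h3 : ∑ j ∈ range (n + 1), dw μ g l j = μ g l := sum_dw μ g l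
      rw [← Finset.sum_range_add_sum_Ico _ (by omega : y ≤ n + 1)] at h3
      split_ifs with h
      · subst h; simpa using h3
      · obtain ⟨k, rfl⟩ : ∃ k, y = k + 1 := ⟨y - 1, by omega⟩
        rw [sum_dw_take] at h3
        simp only [Nat.add_sub_cancel]
        linarith
    rw [hd', Finset.sum_sub_distrib, h1, h2]
    ring
  have hd'0 : ∀ j ∈ range (n + 1), 0 ≤ d' j := by
    intro j hj
    rw [Finset.mem_range] at hj
    rw [hd']
    simp only
    split_ifs with h
    · subst h
      by_cases hl : l = []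
      · rw [hν4 hl]
        have := dw_nonneg μ h0 hm g l n
        linarith
      · have hpos : 0 < n := List.length_pos_iff_ne_nil.mpr hl
        have h1 := hν1 (n - 1) (by omega)
        unfold dw
        rw [if_neg (by omega), hn, List.take_length]
        rw [← hn]
        linarith
    · have := dw_nonneg μ h0 hm g l j
      linarith
  have hVn : ∀ x, 0 ≤ V x := by
    intro x
    induction x with
    | zero => exact hV0
    | succ x ih => exact ih.trans (hVm x)
  -- termwise bound
  have hterm : ∀ j ∈ range (n + 1),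
      (if max (x - 1) j = 0 ∧ l ≠ [] then 0 else dw μ g l j * aw μ l (max (x - 1) j))
        ≤ K * (d' j * V (max (x - 1) j)) + (if j = n then (μ g l - ν) * M else 0) := by
    intro j hj
    have hj' := hd'0 j hj
    have hdd : dw μ g l j = d' j + (if j = n then μ g l - ν else 0) := by rw [hd']; ring
    by_cases hc : max (x - 1) j = 0 ∧ l ≠ []
    · rw [if_pos hc]
      have h1 : 0 ≤ K * (d' j * V (max (x - 1) j)) := mul_nonneg hK (mul_nonneg hj' (hVn _))
      have h2 : j ≠ n := by
        intro h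
        have : n = 0 := by omega
        exact hc.2 (List.length_eq_zero_iff.mp this)
      rw [if_neg h2]
      linarith
    · rw [if_neg hc, hdd, add_mul]
      refine add_le_add ?_ ?_
      · have h1 : aw μ l (max (x - 1) j) ≤ K * V (max (x - 1) j) := by
          refine hA _ ?_
          by_contra h
          push Not at h
          exact hc ⟨by omega, h.2⟩
        calc d' j * aw μ l (max (x - 1) j) ≤ d' j * (K * V (max (x - 1) j)) :=
              mul_le_mul_of_nonneg_left h1 hj'
          _ = K * (d' j * V (max (x - 1) j)) := by ring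
      · split_ifs with h
        · by_cases hl : l = []
          · rw [hν4 hl]; simp
          · have h1 : 1 ≤ max (x - 1) j := by
              by_contra h'
              exact hc ⟨by omega, hl⟩
            exact mul_le_mul_of_nonneg_left (hM _ h1) (by linarith)
        · simp
  have hfin : ∑ j ∈ range (n + 1), d' j * V (max (x - 1) j) ≤ ρ * V x * ν := by
    rw [abel d' V n x hx]
    have h1 : ∑ j ∈ range (n + 1), d' j = ν := by
      have := hsum' 0 (by omega)
      rw [← Nat.Ico_zero_eq_range, this]; simp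
    rw [h1]
    have h2 : ∑ y ∈ Ico x (n + 1), (V y - V (y - 1)) * ∑ j ∈ Ico y (n + 1), d' j
        ≤ ∑ y ∈ Ico x (n + 1), ((V y - V (y - 1)) * θ y) * ν := by
      refine Finset.sum_le_sum fun y hy => ?_
      rw [Finset.mem_Ico] at hy
      rw [hsum' y (by omega), if_neg (by omega), mul_assoc]
      refine mul_le_mul_of_nonneg_left ?_ ?_
      · have := hν2 (y - 1) (by omega)
        rwa [Nat.sub_add_cancel (by omega)] at this
      · have := hVm (y - 1)
        rw [Nat.sub_add_cancel (by omega)] at this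
        linarith
    rw [← Finset.sum_mul] at h2
    have h3 := mul_le_mul_of_nonneg_right (hV x hx (n + 1)) hν0
    nlinarith [h2, h3]
  calc aw μ (g :: l) x
      = ∑ j ∈ range (n + 1), (if max (x - 1) j = 0 ∧ l ≠ [] then 0 else dw μ g l j * aw μ l (max (x - 1) j)) := by
        rw [aw]
    _ ≤ ∑ j ∈ range (n + 1), (K * (d' j * V (max (x - 1) j)) + (if j = n then (μ g l - ν) * M else 0)) :=
        Finset.sum_le_sum hterm
    _ = K * ∑ j ∈ range (n + 1), d' j * V (max (x - 1) j) + (μ g l - ν) * M := by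
        rw [Finset.sum_add_distrib, ← Finset.mul_sum, Finset.sum_ite_eq' (range (n + 1)) n,
          if_pos (by rw [Finset.mem_range]; omega)]
    _ ≤ K * (ρ * V x * ν) + (μ g l - ν) * M := by
        have := mul_le_mul_of_nonneg_left hfin hK
        linarith
    _ = ρ * V x * K * ν + (μ g l - ν) * M := by ring

/-- Tail bound, homogeneous case. -/
theorem aw_tail (μ : P → List P → ℝ) (h0 : ∀ g l, 0 ≤ μ g l)
    (hm : ∀ (g : P) (l : List P) (n : ℕ), μ g (l.take n) ≤ μ g (l.take (n + 1)))
    (θ V : ℕ → ℝ) (ρ : ℝ) (hρ : 0 ≤ ρ) (hVm : ∀ x, V x ≤ V (x + 1)) (hV0 : 1 ≤ V 0)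
    (hV : ∀ x, 1 ≤ x → ∀ N, V (x - 1) + ∑ y ∈ Ico x N, (V y - V (y - 1)) * θ y ≤ ρ * V x)
    (hmem : ∀ (g : P) (l : List P), ∀ j < l.length, μ g l - μ g (l.take j) ≤ θ (j + 1) * μ g l) :
    ∀ (u : List P) (x : ℕ), (1 ≤ x ∨ u = []) → aw μ u x ≤ V x * ρ ^ u.length * mw μ u := by
  have hV1 : ∀ x, 1 ≤ V x := by
    intro x
    induction x with
    | zero => exact hV0
    | succ x ih => exact ih.trans (hVm x)
  have hmono : ∀ (g : P) (l : List P) (j : ℕ), μ g (l.take j) ≤ μ g l := by
    intro g l j
    have h : ∀ k, μ g (l.take j) ≤ μ g (l.take (j + k)) := by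
      intro k
      induction k with
      | zero => simp
      | succ k ih => exact ih.trans (hm g l (j + k))
    have := h l.length
    rwa [List.take_of_length_le (by omega : l.length ≤ j + l.length)] at this
  intro u
  induction u with
  | nil => intro x _; simp [aw, mw, hV1 x]
  | cons g l ih =>
    intro x hx
    have hx1 : 1 ≤ x := by
      rcases hx with h | h
      · exact h
      · simp at h
    have h := aw_step μ h0 hm θ V ρ hVm (by linarith) hV g l (μ g l) (ρ ^ l.length * mw μ l) (mw μ l)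
      (h0 g l) (mul_nonneg (pow_nonneg hρ _) (mw_nonneg μ h0 l)) (fun j _ => hmono g l j)
      (fun j hj => hmem g l j hj) le_rfl (fun _ => rfl)
      (fun y hy => by have := ih y hy; linarith) (fun y hy => aw_le_mw μ h0 hm l y hy) x hx1
    rw [mw, List.length_cons, pow_succ]
    calc aw μ (g :: l) x ≤ _ := h
      _ = _ := by ring

/-- Error functional of a list of middle letters in front of a fixed part `z`. -/
def ew (ρ : ℝ) (ε : P → List P → ℝ) : List P → ℝ
  | [] => 1
  | g :: l => ρ * ew ρ ε l + ε g l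

/-- Tail bound with remainders: `v` are the middle letters, `z` the (arbitrary) left part. -/
theorem aw_tail_rem (μ : P → List P → ℝ) (h0 : ∀ g l, 0 ≤ μ g l)
    (hm : ∀ (g : P) (l : List P) (n : ℕ), μ g (l.take n) ≤ μ g (l.take (n + 1)))
    (θ V : ℕ → ℝ) (ρ : ℝ) (hρ : 0 ≤ ρ) (hVm : ∀ x, V x ≤ V (x + 1)) (hV0 : 1 ≤ V 0)
    (hV : ∀ x, 1 ≤ x → ∀ N, V (x - 1) + ∑ y ∈ Ico x N, (V y - V (y - 1)) * θ y ≤ ρ * V x)
    (z : List P) (hz : z ≠ []) (ε : P → List P → ℝ) (hε : ∀ g l, 0 ≤ ε g l) (ν : P → List P → ℝ) :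
    ∀ v : List P,
      (∀ g l, g :: l <:+ v → 0 ≤ ν g l ∧ ν g l ≤ μ g (l ++ z) ∧ μ g (l ++ z) - ν g l ≤ ε g l * μ g (l ++ z) ∧
        ∀ j < (l ++ z).length, μ g ((l ++ z).take j) ≤ ν g l ∧
          ν g l - μ g ((l ++ z).take j) ≤ θ (j + 1) * ν g l) →
      ∀ x, 1 ≤ x → aw μ (v ++ z) x ≤ V x * ew ρ ε v * mw μ (v ++ z) := by
  have hV1 : ∀ x, 1 ≤ V x := by
    intro x
    induction x with
    | zero => exact hV0
    | succ x ih => exact ih.trans (hVm x)
  have hew : ∀ v : List P, 0 ≤ ew ρ ε v := by
    intro v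
    induction v with
    | nil => simp [ew]
    | cons g l ih => exact add_nonneg (mul_nonneg hρ ih) (hε g l)
  intro v
  induction v with
  | nil =>
    intro _ x hx
    have h1 := aw_le_mw μ h0 hm z x hx
    have h2 := mw_nonneg μ h0 z
    simp only [List.nil_append, ew, mul_one]
    nlinarith [hV1 x]
  | cons g l ih =>
    intro hv x hx
    have ih' := ih (fun g' l' h => hv g' l' (h.trans (List.suffix_cons g l)))
    obtain ⟨hn0, hn1, hn2, hn3⟩ := hv g l (List.suffix_refl _)
    have hne : l ++ z ≠ [] := by simp [hz]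
    have h := aw_step μ h0 hm θ V ρ hVm (by linarith) hV g (l ++ z) (ν g l)
      (ew ρ ε l * mw μ (l ++ z)) (mw μ (l ++ z)) hn0
      (mul_nonneg (hew l) (mw_nonneg μ h0 _)) (fun j hj => (hn3 j hj).1) (fun j hj => (hn3 j hj).2)
      hn1 (fun h => absurd h hne)
      (fun y hy => by
        have hy1 : 1 ≤ y := by
          rcases hy with h | h
          · exact h
          · exact absurd h hne
        have := ih' y hy1; linarith) (fun y hy => aw_le_mw μ h0 hm _ y hy) x hx
    rw [List.cons_append, mw, ew]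
    have hmwn := mw_nonneg μ h0 (l ++ z)
    have hVx := hV1 x
    have hmug := h0 g (l ++ z)
    calc aw μ (g :: (l ++ z)) x ≤ _ := h
      _ ≤ ρ * V x * (ew ρ ε l * mw μ (l ++ z)) * μ g (l ++ z)
          + V x * (ε g l * μ g (l ++ z)) * mw μ (l ++ z) := by
        refine add_le_add ?_ ?_
        · exact mul_le_mul_of_nonneg_left hn1 (mul_nonneg (mul_nonneg hρ (by linarith))
            (mul_nonneg (hew l) hmwn))
        · refine mul_le_mul_of_nonneg_right ?_ hmwn
          have h3 : 0 ≤ ε g l * μ g (l ++ z) := mul_nonneg (hε g l) hmug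
          nlinarith
      _ = _ := by ring

end Pool.Helper95.OZ
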