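import Pool.Agent.Helper95.OZ.FGm
import Pool.Agent.Helper95.OZ.Tra

/-!
Project OZ (MP_7e0861_pr), line L3, block OZ-L3-8: the renewal equation.

Proof in words.  `Dm 0 x` is empty unless `Y x`.  For `x ≠ 0` and `γ ∈ Dm 0 x`: `W1 γ = WI γ` (`Dm_edges_ne`) and by
`FG_eq` `WI γ = FG 0 x γ + ∑_{m ∈ cps γ 0 x} FG 0 m (low m γ) * WI (upp m γ)`, that is
`∑_{m ∈ (dia 0 x).erase 0} (if CP γ.1 m then FG 0 m (low m γ) * W1 (upp m γ) else 0)` (the term `m = x`: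
`low x γ = γ`, `upp x γ = ({x}, ∅)`, `W1 = 1`; for `m ≠ 0, x` in the diamond `0 < m.1 < x.1` by `Y_lt`, and
`upp m γ ∈ Dm m x` has an edge).  Exchange the sums and use `sum_split_dm` with
`F γ = FG 0 m (low m γ) * W1 (upp m γ)`, `Jn.low`, `Jn.upp`: the sum is
`(∑_{Dm 0 m} FG 0 m γ) (∑_{Dm m x} W1 δ) = fI m * UI (x - m)` (`sum_W1_eq`).
-/

namespace Pool.Helper95.OZ

open Pool.Helper49.FK Pool.Helper17.OZ Pool.Helper83.OZ Finset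

variable {q ρ : ℝ}

private theorem WI_nonneg8 (hq : 1 ≤ q) (hρ : 0 < ρ) (γ : Gr) : 0 ≤ WI q ρ γ := by
  unfold WI bg
  have h1 := (PsiI_pos hq hρ.le γ.1).le
  have h2 : 0 ≤ ∏ e ∈ γ.2, hom ρ e := Finset.prod_nonneg fun e _ => hρ.le
  have h3 : (0 : ℝ) ≤ q ^ (γ.1.card - 1) := pow_nonneg (by linarith) _
  exact mul_nonneg (div_nonneg h2 h3) h1

private theorem W1_nonneg8 (hq : 1 ≤ q) (hρ : 0 < ρ) (γ : Gr) : 0 ≤ W1 q ρ γ := by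
  unfold W1
  split_ifs
  · exact zero_le_one
  · exact WI_nonneg8 hq hρ γ

private theorem Dm_empty8 {x : ℤ × ℤ} (h : ¬ Y x) : Dm 0 x = ∅ := by
  rw [Finset.eq_empty_iff_forall_notMem]
  intro γ hγ
  obtain ⟨_, h2, _, _, h5⟩ := mem_Dm.1 hγ
  have h6 := h2 x h5
  rw [sub_zero] at h6
  exact h h6

theorem UI_zero : UI q ρ 0 = 1 := by
  unfold UI
  rw [Dm_self, Finset.sum_singleton]
  unfold W1
  rw [if_pos rfl]

theorem UI_nonneg (hq : 1 ≤ q) (hρ : 0 < ρ) (x : ℤ × ℤ) : 0 ≤ UI q ρ x :=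
  Finset.sum_nonneg fun γ _ => W1_nonneg8 hq hρ γ

theorem UI_eq_zero {x : ℤ × ℤ} (h : ¬ Y x) : UI q ρ x = 0 := by
  unfold UI
  rw [Dm_empty8 h, Finset.sum_empty]

theorem fI_nonneg (hq : 1 ≤ q) (hρ : 0 < ρ) (hD : ExpDecay q ρ) (x : ℤ × ℤ) : 0 ≤ fI q ρ x := by
  unfold fI
  split_ifs with h
  · exact le_refl _
  · obtain ⟨C, lam, _, _, _, hm⟩ := FG_main hq hρ hD
    exact Finset.sum_nonneg fun γ hγ => (hm hγ (Ne.symm h)).1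

theorem fI_eq_zero {x : ℤ × ℤ} (h : ¬ Y x) : fI q ρ x = 0 := by
  unfold fI
  rw [Dm_empty8 h, Finset.sum_empty, ite_self]

theorem fI_zero : fI q ρ 0 = 0 := by simp [fI]

private theorem low_end8 {x : ℤ × ℤ} {γ : Gr} (h : γ ∈ Dm 0 x) : low x γ = γ := by
  have h1 := seg_full h
  have h2 : upp 0 γ = γ := by
    have h3 := upp_seg (mem_Dm.1 h).1 (cp_start h) (cp_start h) (cp_end h) le_rfl
      (Y_le ((mem_Dm.1 h).2.1 x (cp_end h).1))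
    rwa [seg_full h] at h3
  unfold seg at h1
  rwa [h2] at h1

private theorem upp_end8 {x : ℤ × ℤ} {γ : Gr} (h : γ ∈ Dm 0 x) : upp x γ = ({x}, ∅) := by
  have h3 := upp_seg (mem_Dm.1 h).1 (cp_start h) (cp_end h) (cp_end h)
    (Y_le ((mem_Dm.1 h).2.1 x (cp_end h).1)) le_rfl
  rw [seg_full h, seg_self (mem_Dm.1 h).1 (cp_end h)] at h3
  exact h3

private theorem upp_mem8 {x m : ℤ × ℤ} {γ : Gr} (h : γ ∈ Dm 0 x) (hm : CP γ.1 m) : upp m γ ∈ Dm m x := by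
  have h1 := (mem_Dm.1 h).2.1 m hm.1
  have h2 := (mem_Dm.1 h).2.2.1 m hm.1
  have h3 := upp_seg (mem_Dm.1 h).1 (cp_start h) hm (cp_end h) (Y_le h1) (Y_le h2)
  rw [seg_full h] at h3
  rw [h3]
  exact seg_mem (mem_Dm.1 h).1 hm (cp_end h) (Y_le h2)

open Classical in
private theorem W1_split8 {x : ℤ × ℤ} (hx : x ≠ 0) {γ : Gr} (h : γ ∈ Dm 0 x) :
    W1 q ρ γ = ∑ m ∈ (dia 0 x).erase 0,
      if CP γ.1 m then FG q ρ 0 m (low m γ) * W1 q ρ (upp m γ) else 0 := by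
  obtain ⟨h1, h2, h3, h4, h5⟩ := mem_Dm.1 h
  have hset : ((dia 0 x).erase 0).filter (fun m => CP γ.1 m) = insert x (cps γ 0 x) := by
    ext m
    rw [Finset.mem_filter, Finset.mem_erase, mem_dia, Finset.mem_insert, mem_cps]
    constructor
    · rintro ⟨⟨h6, h7, h8⟩, h9⟩
      by_cases hmx : m = x
      · exact Or.inl hmx
      · exact Or.inr ⟨h9, Y_lt h7 (Ne.symm h6), Y_lt h8 hmx⟩
    · rintro (rfl | ⟨h6, h7, h8⟩)
      · exact ⟨⟨hx, h2 m h5, Y_self m⟩, cp_end h⟩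
      · refine ⟨⟨?_, h2 m h6.1, h3 m h6.1⟩, h6⟩
        rintro rfl
        exact lt_irrefl _ h7
  have hxn : x ∉ cps γ 0 x := fun hc => lt_irrefl _ (mem_cps.1 hc).2.2
  rw [← Finset.sum_filter, hset, Finset.sum_insert hxn, low_end8 h, upp_end8 h]
  have hW : W1 q ρ (({x}, ∅) : Gr) = 1 := by
    unfold W1
    rw [if_pos rfl]
  rw [hW, mul_one]
  have hW2 : W1 q ρ γ = WI q ρ γ := by
    unfold W1
    rw [if_neg (Dm_edges_ne h (Ne.symm hx))]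
  have hsum : ∑ m ∈ cps γ 0 x, FG q ρ 0 m (low m γ) * W1 q ρ (upp m γ) =
      ∑ m ∈ cps γ 0 x, FG q ρ 0 m (low m γ) * WI q ρ (upp m γ) := by
    refine Finset.sum_congr rfl fun m hm => ?_
    have h6 := mem_cps.1 hm
    have h7 : m ≠ x := by
      rintro rfl
      exact lt_irrefl _ h6.2.2
    have h8 : W1 q ρ (upp m γ) = WI q ρ (upp m γ) := by
      unfold W1
      rw [if_neg (Dm_edges_ne (upp_mem8 h h6.1) h7)]
    rw [h8]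
  rw [hsum, hW2, FG_eq h5]
  ring

theorem UI_rec (hq : 1 ≤ q) (hρ : 0 < ρ) {x : ℤ × ℤ} (hx : x ≠ 0) :
    UI q ρ x = ∑ m ∈ (dia 0 x).erase 0, fI q ρ m * UI q ρ (x - m) := by
  classical
  have h1 : UI q ρ x = ∑ γ ∈ Dm 0 x, ∑ m ∈ (dia 0 x).erase 0,
      if CP γ.1 m then FG q ρ 0 m (low m γ) * W1 q ρ (upp m γ) else 0 := by
    unfold UI
    refine Finset.sum_congr rfl fun γ hγ => ?_
    rw [W1_split8 hx hγ]
  rw [h1, Finset.sum_comm]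
  refine Finset.sum_congr rfl fun m hm => ?_
  rw [Finset.mem_erase, mem_dia] at hm
  obtain ⟨h0, h2, h3⟩ := hm
  have h4 := sum_split_dm h2 h3 (fun γ => FG q ρ 0 m (low m γ) * W1 q ρ (upp m γ))
  have h5 : (∑ γ ∈ Dm 0 x, if CP γ.1 m then FG q ρ 0 m (low m γ) * W1 q ρ (upp m γ) else 0) =
      ∑ γ ∈ Dm 0 m, ∑ δ ∈ Dm m x, FG q ρ 0 m (low m (join γ δ)) * W1 q ρ (upp m (join γ δ)) := by
    rw [← h4]
  rw [h5]
  have h6 : ∀ γ ∈ Dm 0 m, ∀ δ ∈ Dm m x,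
      FG q ρ 0 m (low m (join γ δ)) * W1 q ρ (upp m (join γ δ)) = FG q ρ 0 m γ * W1 q ρ δ := by
    intro γ hγ δ hδ
    have hj : Jn γ δ m := ⟨(mem_Dm.1 hγ).1, (mem_Dm.1 hδ).1, (mem_Dm.1 hγ).2.2.2.2, (mem_Dm.1 hδ).2.2.2.1,
      (mem_Dm.1 hγ).2.2.1, (mem_Dm.1 hδ).2.1⟩
    rw [hj.low, hj.upp]
  rw [Finset.sum_congr rfl fun γ hγ => Finset.sum_congr rfl fun δ hδ => h6 γ hγ δ hδ]
  have h7 : fI q ρ m = ∑ γ ∈ Dm 0 m, FG q ρ 0 m γ := by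
    unfold fI
    rw [if_neg h0]
  rw [h7, ← sum_W1_eq hq hρ m x, Finset.sum_mul_sum]

end Pool.Helper95.OZ
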