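import Pool.Agent.Helper95.OZ.Def
import Pool.Agent.Helper49.FK.Exp

/-!
Project OZ (MP_7e0861_pr), line L3, block OZ-L3-1: the double sum of the two point function over two cones.

Proof in words.  By `ExpDecay.GI_le` the term is at most `C0 exp (-c0 (|s.1 - v.1| + |s.2 - v.2|))` and
`|s.1 - v.1| = (t.1 - s.1) + (v.1 - t.1)`, so it is at most `C0 exp (-c0 (t.1 - s.1)) exp (-c0 (v.1 - t.1))`.
The points `s` with `Y (t - s)` and `t.1 - s.1 = a` (`a ≥ d`) are at most `16 a + 1`, hence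
`∑_s exp (-c0 (t.1 - s.1)) ≤ ∑_{a ≥ d} (16 a + 1) exp (-c0 a) ≤ C1 exp (-c0 d / 2)` and
`∑_v exp (-c0 (v.1 - t.1)) ≤ ∑_{b ≥ 0} (16 b + 1) exp (-c0 b) = C2`.  Take `c = c0 / 2`.
`cone_card` is a convenient form of the counting.
-/

namespace Pool.Helper95.OZ

open Pool.Helper49.FK Pool.Helper17.OZ Pool.Helper83.OZ Finset

variable {q ρ : ℝ}

private theorem summable_exp56 {a : ℝ} (ha : 0 < a) :
    Summable fun n : ℤ => Real.exp (-a * |(n : ℝ)|) := by
  have h0 : Summable fun n : ℕ => Real.exp (-a * n) := by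
    have h1 : Summable fun n : ℕ => (Real.exp (-a)) ^ n :=
      summable_geometric_of_lt_one (Real.exp_pos _).le (by
        rw [Real.exp_lt_one_iff]
        linarith)
    refine h1.congr fun n => ?_
    rw [← Real.exp_nat_mul]
    congr 1
    ring
  refine Summable.of_nat_of_neg ?_ ?_
  · refine h0.congr fun n => ?_
    simp
  · refine h0.congr fun n => ?_
    simp

private theorem one_le_tsum56 {a : ℝ} (ha : 0 < a) :
    1 ≤ ∑' n : ℤ, Real.exp (-a * |(n : ℝ)|) := by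
  have h := (summable_exp56 ha).le_tsum (0 : ℤ) (fun n _ => (Real.exp_pos _).le)
  simpa using h

private theorem Y_nonneg56 {s : ℤ × ℤ} (h : Y s) : 0 ≤ s.1 := by
  unfold Y at h
  have := abs_nonneg s.2
  omega

/-- Sums over the cone of a function of the first coordinate, the coordinates being at least `d`. -/
theorem cone_card {c : ℝ} (hc : 0 < c) : ∃ C : ℝ, 0 < C ∧ ∀ (S : Finset (ℤ × ℤ)) (d : ℕ),
    (∀ s ∈ S, Y s ∧ (d : ℤ) ≤ s.1) → ∑ s ∈ S, Real.exp (-c * s.1) ≤ C * Real.exp (-(c / 2) * d) := by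
  have ha : 0 < c / 4 := by positivity
  have hb : 0 < c / 32 := by positivity
  set A := ∑' n : ℤ, Real.exp (-(c / 4) * |(n : ℝ)|) with hA
  set B := ∑' n : ℤ, Real.exp (-(c / 32) * |(n : ℝ)|) with hB
  have hA1 : 1 ≤ A := one_le_tsum56 ha
  have hB1 : 1 ≤ B := one_le_tsum56 hb
  have hs : Summable fun s : ℤ × ℤ =>
      Real.exp (-(c / 4) * |(s.1 : ℝ)|) * Real.exp (-(c / 32) * |(s.2 : ℝ)|) :=
    (summable_exp56 ha).mul_of_nonneg (summable_exp56 hb) (fun _ => (Real.exp_pos _).le)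
      (fun _ => (Real.exp_pos _).le)
  have hAB : ∑' s : ℤ × ℤ, Real.exp (-(c / 4) * |(s.1 : ℝ)|) * Real.exp (-(c / 32) * |(s.2 : ℝ)|)
      = A * B :=
    ((summable_exp56 ha).tsum_mul_tsum (summable_exp56 hb) hs).symm
  refine ⟨A * B, by positivity, fun S d hS => ?_⟩
  have h1 : ∀ s ∈ S, Real.exp (-c * s.1) ≤ Real.exp (-(c / 2) * d) *
      (Real.exp (-(c / 4) * |(s.1 : ℝ)|) * Real.exp (-(c / 32) * |(s.2 : ℝ)|)) := by
    intro s hs'
    obtain ⟨hY, hd⟩ := hS s hs'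
    have h0 := Y_nonneg56 hY
    unfold Y at hY
    have hY' : |(s.2 : ℝ)| ≤ 8 * (s.1 : ℝ) := by exact_mod_cast hY
    have hd' : (d : ℝ) ≤ (s.1 : ℝ) := by exact_mod_cast hd
    have h0' : (0 : ℝ) ≤ (s.1 : ℝ) := by exact_mod_cast h0
    rw [← Real.exp_add, ← Real.exp_add, abs_of_nonneg h0']
    refine Real.exp_le_exp.2 ?_
    nlinarith
  calc ∑ s ∈ S, Real.exp (-c * s.1)
      ≤ ∑ s ∈ S, Real.exp (-(c / 2) * d) *
      (Real.exp (-(c / 4) * |(s.1 : ℝ)|) * Real.exp (-(c / 32) * |(s.2 : ℝ)|)) :=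
        Finset.sum_le_sum h1
    _ = Real.exp (-(c / 2) * d) * ∑ s ∈ S,
      (Real.exp (-(c / 4) * |(s.1 : ℝ)|) * Real.exp (-(c / 32) * |(s.2 : ℝ)|)) := by
        rw [Finset.mul_sum]
    _ ≤ Real.exp (-(c / 2) * d) * (A * B) := by
        refine mul_le_mul_of_nonneg_left ?_ (Real.exp_pos _).le
        rw [← hAB]
        exact hs.sum_le_tsum S (fun _ _ => by positivity)
    _ = _ := by ring

theorem cone_sum (hq : 1 ≤ q) (hρ : 0 < ρ) (hD : ExpDecay q ρ) : ∃ C c : ℝ, 1 ≤ C ∧ 0 < c ∧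
    ∀ (S V : Finset (ℤ × ℤ)) (t : ℤ × ℤ) (d : ℕ), (∀ s ∈ S, Y (t - s) ∧ s.1 + d ≤ t.1) →
      (∀ v ∈ V, Y (v - t)) → ∑ s ∈ S, ∑ v ∈ V, GI q ρ s v ≤ C * Real.exp (-c * d) := by
  obtain ⟨c0, C0, hc0, hC0, hG⟩ := hD.GI_le hq hρ.le
  obtain ⟨C1, hC1, hS1⟩ := cone_card hc0
  refine ⟨max 1 (C0 * C1 * C1), c0 / 2, le_max_left _ _, by positivity, fun S V t d hS hV => ?_⟩
  have hterm : ∀ s ∈ S, ∀ v ∈ V, GI q ρ s v ≤
      C0 * (Real.exp (-c0 * ((t - s).1 : ℤ)) * Real.exp (-c0 * ((v - t).1 : ℤ))) := by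
    intro s hs v hv
    refine (hG s v).trans (mul_le_mul_of_nonneg_left ?_ hC0.le)
    rw [← Real.exp_add]
    refine Real.exp_le_exp.2 ?_
    simp only [Prod.fst_sub]
    push_cast
    have h1 : (v.1 : ℝ) - s.1 ≤ |(s.1 : ℝ) - v.1| := by
      rw [abs_sub_comm]
      exact le_abs_self _
    have h2 := abs_nonneg ((s.2 : ℝ) - v.2)
    nlinarith
  have hs1 : ∑ s ∈ S, Real.exp (-c0 * ((t - s).1 : ℤ)) ≤ C1 * Real.exp (-(c0 / 2) * d) := by
    have h2 := hS1 (S.image fun s => t - s) d (by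
      intro s hs
      obtain ⟨s', hs', rfl⟩ := Finset.mem_image.1 hs
      refine ⟨(hS s' hs').1, ?_⟩
      have := (hS s' hs').2
      simp only [Prod.fst_sub]
      omega)
    rwa [Finset.sum_image (fun a _ b _ hab => sub_right_injective hab)] at h2
  have hv1 : ∑ v ∈ V, Real.exp (-c0 * ((v - t).1 : ℤ)) ≤ C1 := by
    have h2 := hS1 (V.image fun v => v - t) 0 (by
      intro s hs
      obtain ⟨s', hs', rfl⟩ := Finset.mem_image.1 hs
      exact ⟨hV s' hs', by simpa using Y_nonneg56 (hV s' hs')⟩)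
    rw [Finset.sum_image (fun a _ b _ hab => sub_left_injective hab)] at h2
    simpa using h2
  calc ∑ s ∈ S, ∑ v ∈ V, GI q ρ s v
      ≤ ∑ s ∈ S, ∑ v ∈ V,
        C0 * (Real.exp (-c0 * ((t - s).1 : ℤ)) * Real.exp (-c0 * ((v - t).1 : ℤ))) :=
        Finset.sum_le_sum fun s hs => Finset.sum_le_sum fun v hv => hterm s hs v hv
    _ = C0 * ((∑ s ∈ S, Real.exp (-c0 * ((t - s).1 : ℤ))) *
        ∑ v ∈ V, Real.exp (-c0 * ((v - t).1 : ℤ))) := by
        rw [Finset.sum_mul_sum, Finset.mul_sum]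
        refine Finset.sum_congr rfl fun s _ => ?_
        rw [Finset.mul_sum]
    _ ≤ C0 * ((C1 * Real.exp (-(c0 / 2) * d)) * C1) := by
        refine mul_le_mul_of_nonneg_left ?_ hC0.le
        refine mul_le_mul hs1 hv1 (Finset.sum_nonneg fun _ _ => (Real.exp_pos _).le) ?_
        positivity
    _ = (C0 * C1 * C1) * Real.exp (-(c0 / 2) * d) := by ring
    _ ≤ max 1 (C0 * C1 * C1) * Real.exp (-(c0 / 2) * d) :=
        mul_le_mul_of_nonneg_right (le_max_right _ _) (Real.exp_pos _).le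

end Pool.Helper95.OZ
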