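import Pool.Agent.Helper95.OZ.Tra
import Pool.Agent.Helper83.OZ.Xt

/-!
Project OZ (MP_7e0861_pr), line L3, block OZ-L3-12: the two point function is bounded by the diamond sums.

Proof in words.
`tp_dom` (any finite domain `D`, `r = hom ρ`, `κ` of `WD_join_le`).  `G D u w = ∑_{Cl D u w} WD γ` (`G_sum`).  The graphs
without cone point strictly between the columns give `nocp D u w`.  For the others let `s` be the first and `t` the
last cone point (`u.1 < s.1 ≤ t.1 < w.1`; `Y (t - s)` by `cp_Y`).  So their sum is at most the sum over `s, t` of the sum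
over the `γ ∈ Cl D u w` with cone points `s, t` such that `low s γ` and `upp t γ` have no cone point strictly
inside.  Use `sum_split` at `s` and (for `δ = upp s γ ∈ Rt D s w`, `t ≠ s`) at `t`; `low t δ` is in `Dm s t`
(`Fw` at `s` and `Bw` at `t`), and `WD (join γ₁ (join μ γ₂)) ≤ κ⁻² WD γ₁ WD μ WD γ₂` (`WD_join_le` twice); for `s = t`,
`WD (join γ₁ γ₂) ≤ κ⁻¹ WD γ₁ WD γ₂`.
`tp`: take `D = box N` with `N` large (so that `dia 0 (n, 0) ⊆ box N`); `s, t ∈ dia 0 (n, 0)` as `0 ∈ s - Y` (`low s γ` contains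
`0`) and `(n, 0) ∈ t + Y`; `nocp ≤ C exp (-(τ + c) ·)` by `nocp_le` (`α = ρ`, `box N = rect (-N) N (-N) N`); let
`N → ∞`: `G (box N) → GI` (`tendsto_G`) and `WD q (hom ρ) (box N) μ → WI q ρ μ` (`tendsto_Psi`), finitely many `s, t, μ`.
Finally `∑_{Dm s t} WI = UI (t - s)` for `s ≠ t` (`sum_W1_eq`; `W1 = WI` as the graphs have an edge), `UI 0 = 1`.
-/

namespace Pool.Helper95.OZ

open Pool.Helper49.FK Pool.Helper83.OZ Finset
open Pool.Helper17.OZ (Y CP Dbl NoCP nd rect tau)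

variable {q ρ : ℝ}

/-- The clusters with first cone point `s` and last cone point `t`. -/
private def Q96 (u w s t : ℤ × ℤ) (γ : Gr) : Prop :=
  CP γ.1 s ∧ CP γ.1 t ∧ u.1 < s.1 ∧ s.1 ≤ t.1 ∧ t.1 < w.1 ∧ NoCP (low s γ).1 u s ∧ NoCP (upp t γ).1 t w

private theorem exQ96 {D : Finset (ℤ × ℤ)} {u w : ℤ × ℤ} {γ : Gr} (hγ : γ ∈ Cl D u w)
    (h : ¬ NoCP γ.1 u w) : ∃ s ∈ D, ∃ t ∈ D, Q96 u w s t γ := by
  classical
  obtain ⟨hD, hcl, hu, hw⟩ := mem_Cl.1 hγ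
  rw [nocp_iff, ← ne_eq, ← Finset.nonempty_iff_ne_empty] at h
  obtain ⟨s, hs, hsmin⟩ := Finset.exists_min_image (cps γ u w) (fun x => x.1) h
  obtain ⟨t, ht, htmax⟩ := Finset.exists_max_image (cps γ u w) (fun x => x.1) h
  have hs' := mem_cps.1 hs
  have ht' := mem_cps.1 ht
  refine ⟨s, hD hs'.1.1, t, hD ht'.1.1, hs'.1, ht'.1, hs'.2.1, hsmin t ht, ht'.2.2, ?_, ?_⟩
  · intro x hx h1 h2
    have hj := jn_cut hcl hs'.1
    have h3 : CP (join (low s γ) (upp s γ)).1 x := (hj.cp_left h2.le).2 hx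
    rw [join_low_upp hcl hs'.1] at h3
    have h4 := hsmin x (mem_cps.2 ⟨h3, h1, h2.trans hs'.2.2⟩)
    omega
  · intro x hx h1 h2
    have hj := jn_cut hcl ht'.1
    have h3 : CP (join (low t γ) (upp t γ)).1 x := (hj.cp_right h1.le).2 hx
    rw [join_low_upp hcl ht'.1] at h3
    have h4 := htmax x (mem_cps.2 ⟨h3, ht'.2.1.trans h1, h2⟩)
    omega

private theorem Qcone96 {D : Finset (ℤ × ℤ)} {u w s t : ℤ × ℤ} {γ : Gr} (hγ : γ ∈ Cl D u w)
    (h : Q96 u w s t γ) : u.1 < s.1 ∧ t.1 < w.1 ∧ Y (s - u) ∧ Y (t - s) ∧ Y (w - t) := by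
  obtain ⟨hD, hcl, hu, hw⟩ := mem_Cl.1 hγ
  obtain ⟨h1, h2, h3, h4, h5, -, -⟩ := h
  refine ⟨h3, h5, ?_, cp_Y h1 h2 h4, ?_⟩
  · rcases h1.2 u hu with h6 | h6
    · have := Y_le h6
      omega
    · exact h6
  · rcases h2.2 w hw with h6 | h6
    · exact h6
    · have := Y_le h6
      omega

open Classical in
private theorem LfN96 {r : Edge → ℝ} (hq : 0 < q) (hr : ∀ e, 0 ≤ r e) {D : Finset (ℤ × ℤ)} {u m : ℤ × ℤ} :
    (∑ γ ∈ Lf D u m, if NoCP γ.1 u m then WD q r D γ else 0) ≤ nocp q r D u m := by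
  unfold nocp
  refine Finset.sum_le_sum_of_subset_of_nonneg (fun γ hγ => ?_) (fun γ _ _ => ?_)
  · have h1 := mem_Lf.1 hγ
    exact mem_Cl.2 ⟨h1.1, h1.2.1, h1.2.2.1, h1.2.2.2.1⟩
  · split_ifs
    · exact WD_nonneg hq hr γ
    · exact le_rfl

open Classical in
private theorem RtN96 {r : Edge → ℝ} (hq : 0 < q) (hr : ∀ e, 0 ≤ r e) {D : Finset (ℤ × ℤ)} {m v : ℤ × ℤ} :
    (∑ γ ∈ Rt D m v, if NoCP γ.1 m v then WD q r D γ else 0) ≤ nocp q r D m v := by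
  unfold nocp
  refine Finset.sum_le_sum_of_subset_of_nonneg (fun γ hγ => ?_) (fun γ _ _ => ?_)
  · have h1 := mem_Rt.1 hγ
    exact mem_Cl.2 ⟨h1.1, h1.2.1, h1.2.2.1, h1.2.2.2.1⟩
  · split_ifs
    · exact WD_nonneg hq hr γ
    · exact le_rfl

open Classical in
private theorem DmN96 {r : Edge → ℝ} (hq : 0 < q) (hr : ∀ e, 0 ≤ r e) {D : Finset (ℤ × ℤ)} {s t : ℤ × ℤ} :
    (∑ γ ∈ Lf D s t, if Fw γ s then WD q r D γ else 0) ≤ ∑ γ ∈ Dm s t, WD q r D γ := by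
  rw [← Finset.sum_filter]
  refine Finset.sum_le_sum_of_subset_of_nonneg (fun γ hγ => ?_) (fun γ _ _ => WD_nonneg hq hr γ)
  rw [Finset.mem_filter] at hγ
  have h1 := mem_Lf.1 hγ.1
  exact mem_Dm.2 ⟨h1.2.1, hγ.2, h1.2.2.2.2, h1.2.2.1, h1.2.2.2.1⟩

private theorem jnLR96 {D : Finset (ℤ × ℤ)} {a b m : ℤ × ℤ} {γ δ : Gr} (hγ : γ ∈ Lf D a m)
    (hδ : δ ∈ Rt D m b) : Jn γ δ m := by
  obtain ⟨h1, h2, h3, h4, h5⟩ := mem_Lf.1 hγ
  obtain ⟨g1, g2, g3, g4, g5⟩ := mem_Rt.1 hδ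
  exact ⟨h2, g2, h4, g3, h5, g5⟩

open Classical in
/-- The case of one cone point. -/
private theorem one96 {r : Edge → ℝ} (hq : 0 < q) (hr : ∀ e, 0 ≤ r e) {D : Finset (ℤ × ℤ)} {κ : ℝ}
    (hκ : 0 < κ) (hJ : ∀ (γ δ : Gr) (m : ℤ × ℤ), Jn γ δ m →
      κ * WD q r D (join γ δ) ≤ WD q r D γ * WD q r D δ) {u w s : ℤ × ℤ} (hus : u.1 < s.1)
    (hsw : s.1 < w.1) :
    (∑ γ ∈ Cl D u w, if Q96 u w s s γ then WD q r D γ else 0) ≤
      κ⁻¹ * (nocp q r D u s * nocp q r D s w) := by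
  have h1 : (∑ γ ∈ Cl D u w, if Q96 u w s s γ then WD q r D γ else 0) =
      ∑ γ ∈ Cl D u w, if CP γ.1 s then (if NoCP (low s γ).1 u s ∧ NoCP (upp s γ).1 s w then
        WD q r D γ else 0) else 0 := by
    refine Finset.sum_congr rfl fun γ _ => ?_
    by_cases h : CP γ.1 s
    · rw [if_pos h]
      by_cases hQ : Q96 u w s s γ
      · have hQ' := hQ
        obtain ⟨-, -, -, -, -, h1, h2⟩ := hQ'
        rw [if_pos hQ, if_pos ⟨h1, h2⟩]
      · rw [if_neg hQ, if_neg (fun h' => hQ ⟨h, h, hus, le_rfl, hsw, h'.1, h'.2⟩)]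
    · rw [if_neg h, if_neg (fun h' : Q96 u w s s γ => h h'.1)]
  have h2 := sum_split (D := D) (a := u) (b := w) (m := s) hus.le hsw.le
    (fun γ => if NoCP (low s γ).1 u s ∧ NoCP (upp s γ).1 s w then WD q r D γ else 0)
  rw [h1]
  refine le_trans (le_of_eq h2) ?_
  have h3 : ∀ γ ∈ Lf D u s, ∀ δ ∈ Rt D s w,
      (if NoCP (low s (join γ δ)).1 u s ∧ NoCP (upp s (join γ δ)).1 s w then
        WD q r D (join γ δ) else 0) ≤ κ⁻¹ * ((if NoCP γ.1 u s then WD q r D γ else 0) *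
        (if NoCP δ.1 s w then WD q r D δ else 0)) := by
    intro γ hγ δ hδ
    have hj := jnLR96 hγ hδ
    rw [hj.low, hj.upp]
    by_cases h4 : NoCP γ.1 u s
    · by_cases h5 : NoCP δ.1 s w
      · rw [if_pos ⟨h4, h5⟩, if_pos h4, if_pos h5]
        have h6 := hJ γ δ s hj
        rw [inv_mul_eq_div, le_div_iff₀ hκ, mul_comm]
        exact h6
      · rw [if_neg (fun h => h5 h.2), if_neg h5, mul_zero, mul_zero]
    · rw [if_neg (fun h => h4 h.1), if_neg h4, zero_mul, mul_zero]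
  refine (Finset.sum_le_sum fun γ hγ => Finset.sum_le_sum fun δ hδ => h3 γ hγ δ hδ).trans ?_
  have h4 : ∑ γ ∈ Lf D u s, ∑ δ ∈ Rt D s w, κ⁻¹ * ((if NoCP γ.1 u s then WD q r D γ else 0) *
        (if NoCP δ.1 s w then WD q r D δ else 0)) =
      κ⁻¹ * ((∑ γ ∈ Lf D u s, if NoCP γ.1 u s then WD q r D γ else 0) *
        ∑ δ ∈ Rt D s w, if NoCP δ.1 s w then WD q r D δ else 0) := by
    rw [Finset.sum_mul_sum, Finset.mul_sum]
    exact Finset.sum_congr rfl fun γ _ => by rw [Finset.mul_sum]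
  rw [h4]
  refine mul_le_mul_of_nonneg_left ?_ (inv_pos.2 hκ).le
  refine mul_le_mul (LfN96 hq hr) (RtN96 hq hr) (Finset.sum_nonneg fun δ _ => ?_)
    (nocp_nonneg hq hr _ _)
  split_ifs
  · exact WD_nonneg hq hr δ
  · exact le_rfl

open Classical in
/-- The right part of the case of two cone points. -/
private theorem rgt96 {r : Edge → ℝ} (hq : 0 < q) (hr : ∀ e, 0 ≤ r e) {D : Finset (ℤ × ℤ)} {κ : ℝ}
    (hκ : 0 < κ) (hJ : ∀ (γ δ : Gr) (m : ℤ × ℤ), Jn γ δ m →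
      κ * WD q r D (join γ δ) ≤ WD q r D γ * WD q r D δ) {w s t : ℤ × ℤ} (hst : s.1 ≤ t.1)
    (htw : t.1 ≤ w.1) :
    (∑ δ ∈ Rt D s w, if CP δ.1 t ∧ NoCP (upp t δ).1 t w then WD q r D δ else 0) ≤
      κ⁻¹ * ((∑ μ ∈ Dm s t, WD q r D μ) * nocp q r D t w) := by
  have h1 : (∑ δ ∈ Rt D s w, if CP δ.1 t ∧ NoCP (upp t δ).1 t w then WD q r D δ else 0) =
      ∑ δ ∈ Cl D s w, if CP δ.1 t then (if Fw δ s ∧ NoCP (upp t δ).1 t w then
        WD q r D δ else 0) else 0 := by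
    unfold Rt
    rw [Finset.sum_filter]
    refine Finset.sum_congr rfl fun δ _ => ?_
    by_cases h : CP δ.1 t
    · by_cases h' : Fw δ s
      · by_cases h'' : NoCP (upp t δ).1 t w
        · rw [if_pos h', if_pos ⟨h, h''⟩, if_pos h, if_pos ⟨h', h''⟩]
        · rw [if_pos h', if_neg (fun g => h'' g.2), if_pos h, if_neg (fun g => h'' g.2)]
      · rw [if_neg h', if_pos h, if_neg (fun g => h' g.1)]
    · rw [if_neg h]
      split_ifs with g1 g2
      · exact absurd g2.1 h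
      · rfl
      · rfl
  have h2 := sum_split (D := D) (a := s) (b := w) (m := t) hst htw
    (fun δ => if Fw δ s ∧ NoCP (upp t δ).1 t w then WD q r D δ else 0)
  rw [h1]
  refine le_trans (le_of_eq h2) ?_
  have h3 : ∀ μ ∈ Lf D s t, ∀ ν ∈ Rt D t w,
      (if Fw (join μ ν) s ∧ NoCP (upp t (join μ ν)).1 t w then
        WD q r D (join μ ν) else 0) ≤ κ⁻¹ * ((if Fw μ s then WD q r D μ else 0) *
        (if NoCP ν.1 t w then WD q r D ν else 0)) := by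
    intro μ hμ ν hν
    have hj := jnLR96 hμ hν
    rw [hj.upp]
    by_cases h4 : Fw (join μ ν) s
    · have h4' : Fw μ s := fun y hy => h4 y (Finset.mem_union_left _ hy)
      by_cases h5 : NoCP ν.1 t w
      · rw [if_pos ⟨h4, h5⟩, if_pos h4', if_pos h5]
        have h6 := hJ μ ν t hj
        rw [inv_mul_eq_div, le_div_iff₀ hκ, mul_comm]
        exact h6
      · rw [if_neg (fun h => h5 h.2), if_neg h5, mul_zero, mul_zero]
    · rw [if_neg (fun h => h4 h.1)]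
      refine mul_nonneg (inv_pos.2 hκ).le (mul_nonneg ?_ ?_)
      · split_ifs
        · exact WD_nonneg hq hr μ
        · exact le_rfl
      · split_ifs
        · exact WD_nonneg hq hr ν
        · exact le_rfl
  refine (Finset.sum_le_sum fun μ hμ => Finset.sum_le_sum fun ν hν => h3 μ hμ ν hν).trans ?_
  have h4 : ∑ μ ∈ Lf D s t, ∑ ν ∈ Rt D t w, κ⁻¹ * ((if Fw μ s then WD q r D μ else 0) *
        (if NoCP ν.1 t w then WD q r D ν else 0)) =
      κ⁻¹ * ((∑ μ ∈ Lf D s t, if Fw μ s then WD q r D μ else 0) *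
        ∑ ν ∈ Rt D t w, if NoCP ν.1 t w then WD q r D ν else 0) := by
    rw [Finset.sum_mul_sum, Finset.mul_sum]
    exact Finset.sum_congr rfl fun γ _ => by rw [Finset.mul_sum]
  rw [h4]
  refine mul_le_mul_of_nonneg_left ?_ (inv_pos.2 hκ).le
  refine mul_le_mul (DmN96 hq hr) (RtN96 hq hr) (Finset.sum_nonneg fun δ _ => ?_)
    (Finset.sum_nonneg fun μ _ => WD_nonneg hq hr μ)
  split_ifs
  · exact WD_nonneg hq hr δ
  · exact le_rfl

open Classical in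
/-- The case of two cone points. -/
private theorem two96 {r : Edge → ℝ} (hq : 0 < q) (hr : ∀ e, 0 ≤ r e) {D : Finset (ℤ × ℤ)} {κ : ℝ}
    (hκ : 0 < κ) (hJ : ∀ (γ δ : Gr) (m : ℤ × ℤ), Jn γ δ m →
      κ * WD q r D (join γ δ) ≤ WD q r D γ * WD q r D δ) {u w s t : ℤ × ℤ} (hus : u.1 < s.1)
    (hst : s.1 ≤ t.1) (htw : t.1 < w.1) :
    (∑ γ ∈ Cl D u w, if Q96 u w s t γ then WD q r D γ else 0) ≤
      κ⁻¹ * κ⁻¹ * (nocp q r D u s * (∑ μ ∈ Dm s t, WD q r D μ) * nocp q r D t w) := by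
  have h1 : (∑ γ ∈ Cl D u w, if Q96 u w s t γ then WD q r D γ else 0) =
      ∑ γ ∈ Cl D u w, if CP γ.1 s then (if CP γ.1 t ∧ NoCP (low s γ).1 u s ∧ NoCP (upp t γ).1 t w then
        WD q r D γ else 0) else 0 := by
    refine Finset.sum_congr rfl fun γ _ => ?_
    by_cases h : CP γ.1 s
    · rw [if_pos h]
      by_cases hQ : Q96 u w s t γ
      · have hQ' := hQ
        obtain ⟨-, h0, -, -, -, h1, h2⟩ := hQ'
        rw [if_pos hQ, if_pos ⟨h0, h1, h2⟩]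
      · rw [if_neg hQ, if_neg (fun h' => hQ ⟨h, h'.1, hus, hst, htw, h'.2.1, h'.2.2⟩)]
    · rw [if_neg h, if_neg (fun h' : Q96 u w s t γ => h h'.1)]
  have h2 := sum_split (D := D) (a := u) (b := w) (m := s) hus.le (hst.trans htw.le)
    (fun γ => if CP γ.1 t ∧ NoCP (low s γ).1 u s ∧ NoCP (upp t γ).1 t w then WD q r D γ else 0)
  rw [h1]
  refine le_trans (le_of_eq h2) ?_
  have h3 : ∀ γ ∈ Lf D u s, ∀ δ ∈ Rt D s w,
      (if CP (join γ δ).1 t ∧ NoCP (low s (join γ δ)).1 u s ∧ NoCP (upp t (join γ δ)).1 t w then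
        WD q r D (join γ δ) else 0) ≤ κ⁻¹ * ((if NoCP γ.1 u s then WD q r D γ else 0) *
        (if CP δ.1 t ∧ NoCP (upp t δ).1 t w then WD q r D δ else 0)) := by
    intro γ hγ δ hδ
    have hj := jnLR96 hγ hδ
    rw [hj.low, hj.cp_right hst]
    by_cases h0 : CP δ.1 t
    · rw [(hj.low_right hst h0).2]
      by_cases h4 : NoCP γ.1 u s
      · by_cases h5 : NoCP (upp t δ).1 t w
        · rw [if_pos ⟨h0, h4, h5⟩, if_pos h4, if_pos ⟨h0, h5⟩]
          have h6 := hJ γ δ s hj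
          rw [inv_mul_eq_div, le_div_iff₀ hκ, mul_comm]
          exact h6
        · rw [if_neg (fun h => h5 h.2.2), if_neg (c := CP δ.1 t ∧ NoCP (upp t δ).1 t w)
            (fun h => h5 h.2), mul_zero, mul_zero]
      · rw [if_neg (fun h => h4 h.2.1), if_neg h4, zero_mul, mul_zero]
    · rw [if_neg (fun h => h0 h.1), if_neg (c := CP δ.1 t ∧ NoCP (upp t δ).1 t w)
        (fun h => h0 h.1), mul_zero, mul_zero]
  refine (Finset.sum_le_sum fun γ hγ => Finset.sum_le_sum fun δ hδ => h3 γ hγ δ hδ).trans ?_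
  have h4 : ∑ γ ∈ Lf D u s, ∑ δ ∈ Rt D s w, κ⁻¹ * ((if NoCP γ.1 u s then WD q r D γ else 0) *
        (if CP δ.1 t ∧ NoCP (upp t δ).1 t w then WD q r D δ else 0)) =
      κ⁻¹ * ((∑ γ ∈ Lf D u s, if NoCP γ.1 u s then WD q r D γ else 0) *
        ∑ δ ∈ Rt D s w, if CP δ.1 t ∧ NoCP (upp t δ).1 t w then WD q r D δ else 0) := by
    rw [Finset.sum_mul_sum, Finset.mul_sum]
    exact Finset.sum_congr rfl fun γ _ => by rw [Finset.mul_sum]
  rw [h4]
  have h5 := mul_le_mul (LfN96 (r := r) hq hr (D := D) (u := u) (m := s))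
    (rgt96 hq hr hκ hJ (w := w) (s := s) (t := t) hst htw.le) (Finset.sum_nonneg fun δ _ => by
      split_ifs
      · exact WD_nonneg hq hr δ
      · exact le_rfl) (nocp_nonneg hq hr _ _)
  refine (mul_le_mul_of_nonneg_left h5 (inv_pos.2 hκ).le).trans (le_of_eq ?_)
  ring

open Classical in
theorem tp_dom (hq : 1 ≤ q) (hρ : 0 < ρ) (hD : ExpDecay q ρ) : ∃ B : ℝ, 0 < B ∧
    ∀ (D : Finset (ℤ × ℤ)) (u w : ℤ × ℤ), u ∈ D → w ∈ D → u.1 < w.1 →
      G q (hom ρ) D u w ≤ nocp q (hom ρ) D u w +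
        B * ∑ s ∈ D, ∑ t ∈ D, if u.1 < s.1 ∧ t.1 < w.1 ∧ Y (s - u) ∧ Y (t - s) ∧ Y (w - t) then
          nocp q (hom ρ) D u s * (if s = t then 1 else ∑ γ ∈ Dm s t, WD q (hom ρ) D γ) *
            nocp q (hom ρ) D t w else 0 := by
  have h0 : 0 < q := zero_lt_one.trans_le hq
  have hr0 : ∀ e, 0 ≤ hom ρ e := fun e => hρ.le
  obtain ⟨κ, hκ, hκ1, hJ⟩ := WD_join_le hq hρ hD
  have hκi : 1 ≤ κ⁻¹ := (one_le_inv₀ hκ).2 hκ1
  refine ⟨κ⁻¹ * κ⁻¹, by positivity, fun D u w hu _ _ => ?_⟩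
  have hJ' := hJ D (hom ρ) (fun e => ⟨hρ.le, le_rfl⟩)
  have h1 : ∀ s ∈ D, ∀ t ∈ D, (∑ γ ∈ Cl D u w, if Q96 u w s t γ then WD q (hom ρ) D γ else 0) ≤
      κ⁻¹ * κ⁻¹ * (if u.1 < s.1 ∧ t.1 < w.1 ∧ Y (s - u) ∧ Y (t - s) ∧ Y (w - t) then
          nocp q (hom ρ) D u s * (if s = t then 1 else ∑ γ ∈ Dm s t, WD q (hom ρ) D γ) *
            nocp q (hom ρ) D t w else 0) := by
    intro s _ t _
    by_cases hc : u.1 < s.1 ∧ t.1 < w.1 ∧ Y (s - u) ∧ Y (t - s) ∧ Y (w - t)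
    · rw [if_pos hc]
      obtain ⟨c1, c2, c3, c4, c5⟩ := hc
      by_cases hst : s = t
      · subst hst
        rw [if_pos rfl, mul_one]
        refine (one96 h0 hr0 hκ hJ' c1 c2).trans ?_
        refine mul_le_mul_of_nonneg_right ?_ (mul_nonneg (nocp_nonneg h0 hr0 _ _)
          (nocp_nonneg h0 hr0 _ _))
        nlinarith
      · rw [if_neg hst]
        exact two96 h0 hr0 hκ hJ' c1 (Y_le c4) c2
    · rw [if_neg hc, mul_zero]
      refine le_of_eq (Finset.sum_eq_zero fun γ hγ => if_neg fun h => hc (Qcone96 hγ h))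
  rw [G_sum h0 hr0 hu]
  have h2 : ∀ γ ∈ Cl D u w, WD q (hom ρ) D γ ≤ (if NoCP γ.1 u w then WD q (hom ρ) D γ else 0) +
      ∑ s ∈ D, ∑ t ∈ D, if Q96 u w s t γ then WD q (hom ρ) D γ else 0 := by
    intro γ hγ
    have hn := WD_nonneg h0 hr0 (D := D) γ
    have hn2 : ∀ s ∈ D, ∀ t ∈ D, 0 ≤ (if Q96 u w s t γ then WD q (hom ρ) D γ else 0) := by
      intro s _ t _
      split_ifs
      · exact hn
      · exact le_rfl
    by_cases h : NoCP γ.1 u w
    · rw [if_pos h]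
      have := Finset.sum_nonneg fun s hs => Finset.sum_nonneg fun t ht => hn2 s hs t ht
      linarith
    · rw [if_neg h, zero_add]
      obtain ⟨s, hs, t, ht, hQ⟩ := exQ96 hγ h
      calc WD q (hom ρ) D γ = (if Q96 u w s t γ then WD q (hom ρ) D γ else 0) := by rw [if_pos hQ]
        _ ≤ ∑ t ∈ D, (if Q96 u w s t γ then WD q (hom ρ) D γ else 0) :=
            Finset.single_le_sum (f := fun t => if Q96 u w s t γ then WD q (hom ρ) D γ else 0)
              (fun t ht => hn2 s hs t ht) ht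
        _ ≤ _ := Finset.single_le_sum
              (f := fun s => ∑ t ∈ D, (if Q96 u w s t γ then WD q (hom ρ) D γ else 0))
              (fun s hs => Finset.sum_nonneg fun t ht => hn2 s hs t ht) hs
  refine (Finset.sum_le_sum h2).trans ?_
  rw [Finset.sum_add_distrib]
  refine add_le_add le_rfl ?_
  rw [Finset.sum_comm, Finset.mul_sum]
  refine Finset.sum_le_sum fun s hs => ?_
  rw [Finset.sum_comm, Finset.mul_sum]
  exact Finset.sum_le_sum fun t ht => h1 s hs t ht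

private theorem mem_box96 {N : ℕ} {x : ℤ × ℤ} :
    x ∈ Helper49.FK.box N ↔ (-(N : ℤ) ≤ x.1 ∧ x.1 ≤ N) ∧ (-(N : ℤ) ≤ x.2 ∧ x.2 ≤ N) := by
  unfold Helper49.FK.box
  rw [Finset.mem_product, Finset.mem_Icc, Finset.mem_Icc]

private theorem dia_sub96 {n N : ℕ} (h : 8 * n ≤ N) : dia 0 ((n : ℤ), 0) ⊆ Helper49.FK.box N := by
  intro y hy
  obtain ⟨h1, h2⟩ := mem_dia.1 hy
  have h3 := Y_nonneg h1
  have h4 := Y_nonneg h2
  unfold Y at h1
  simp only [Prod.fst_sub, sub_zero] at *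
  rw [abs_le] at h1
  rw [mem_box96]
  omega

private theorem WI_nonneg96 (hq : 1 ≤ q) (hρ : 0 < ρ) (γ : Gr) : 0 ≤ WI q ρ γ :=
  mul_nonneg (bg_nonneg (zero_lt_one.trans_le hq) (fun _ => hρ.le) γ) (PsiI_pos hq hρ.le γ.1).le

private theorem W1_nonneg96 (hq : 1 ≤ q) (hρ : 0 < ρ) (γ : Gr) : 0 ≤ W1 q ρ γ := by
  unfold W1
  split_ifs
  · exact zero_le_one
  · exact WI_nonneg96 hq hρ γ

open Classical in
/-- The finite volume sum of the middle part. -/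
private noncomputable def V96 (q ρ : ℝ) (N : ℕ) (s t : ℤ × ℤ) : ℝ :=
  if s = t then 1 else ∑ γ ∈ Dm s t, WD q (hom ρ) (Helper49.FK.box N) γ

open Classical in
/-- The infinite volume sum of the middle part. -/
private noncomputable def VI96 (q ρ : ℝ) (s t : ℤ × ℤ) : ℝ :=
  if s = t then 1 else ∑ γ ∈ Dm s t, WI q ρ γ

private theorem tendstoV96 (hq : 1 ≤ q) (hρ : 0 < ρ) (s t : ℤ × ℤ) :
    Filter.Tendsto (fun N => V96 q ρ N s t) Filter.atTop (nhds (VI96 q ρ s t)) := by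
  unfold V96 VI96
  by_cases h : s = t
  · simp only [if_pos h]
    exact tendsto_const_nhds
  · simp only [if_neg h]
    refine tendsto_finsetSum _ fun γ _ => ?_
    unfold WD WI
    exact (tendsto_Psi hq hρ.le γ.1).const_mul _

private theorem V_nonneg96 (hq : 1 ≤ q) (hρ : 0 < ρ) (N : ℕ) (s t : ℤ × ℤ) : 0 ≤ V96 q ρ N s t := by
  unfold V96
  split_ifs
  · exact zero_le_one
  · exact Finset.sum_nonneg fun γ _ => WD_nonneg (zero_lt_one.trans_le hq) (fun _ => hρ.le) γ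

private theorem VI_le96 (hq : 1 ≤ q) (hρ : 0 < ρ) (s t : ℤ × ℤ) : VI96 q ρ s t ≤ UI q ρ (t - s) := by
  rw [← sum_W1_eq hq hρ s t]
  unfold VI96
  by_cases h : s = t
  · rw [if_pos h]
    subst h
    have hm : (({s}, ∅) : Gr) ∈ Dm s s := by
      refine mem_Dm.2 ⟨⟨Finset.empty_subset _, ?_⟩, ?_, ?_, Finset.mem_singleton_self s,
        Finset.mem_singleton_self s⟩
      · intro x hx y hy
        rw [Finset.mem_singleton] at hx hy
        rw [hx, hy]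
        exact Conn.refl _ _
      · intro y hy
        rw [Finset.mem_singleton] at hy
        rw [hy]
        exact Y_self s
      · intro y hy
        rw [Finset.mem_singleton] at hy
        rw [hy]
        exact Y_self s
    have h1 : W1 q ρ (({s}, ∅) : Gr) = 1 := by
      unfold W1
      exact if_pos rfl
    calc (1 : ℝ) = W1 q ρ (({s}, ∅) : Gr) := h1.symm
      _ ≤ _ := Finset.single_le_sum (f := fun γ => W1 q ρ γ) (fun γ _ => W1_nonneg96 hq hρ γ) hm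
  · rw [if_neg h]
    refine le_of_eq (Finset.sum_congr rfl fun γ hγ => ?_)
    obtain ⟨h1, -, -, h4, h5⟩ := mem_Dm.1 hγ
    have h6 : γ.2 ≠ ∅ := by
      intro h7
      have h8 := h1.2 s h4 t h5
      rw [h7] at h8
      obtain ⟨p⟩ := h8
      cases p with
      | nil => exact h rfl
      | cons hadj _ =>
        obtain ⟨e, he, -⟩ := hadj
        exact absurd he (Finset.notMem_empty e)
    unfold W1
    rw [if_neg h6]

open Classical in
theorem tp (hq : 1 ≤ q) (hρ : 0 < ρ) (hE : Pool.Helper49.FK.ExpW q ρ) : ∃ C c B : ℝ, 0 < C ∧ 0 < c ∧ 0 < B ∧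
    ∀ n : ℕ, 1 ≤ n → GI q ρ (0, 0) ((n : ℤ), 0) ≤ C * Real.exp (-(tau q ρ + c) * n) +
      B * ∑ s ∈ dia 0 ((n : ℤ), 0), ∑ t ∈ dia 0 ((n : ℤ), 0), if 0 < s.1 ∧ t.1 < n ∧ Y (t - s) then
        Real.exp (-(tau q ρ + c) * s.1) * UI q ρ (t - s) * Real.exp (-(tau q ρ + c) * ((n : ℝ) - t.1)) else 0 := by
  obtain ⟨C, c, hC, hc, hN⟩ := nocp_le hq hρ le_rfl hE
  obtain ⟨B, hB, hT⟩ := tp_dom hq hρ (ExpW.decay hq hρ hE)
  have h0 : 0 < q := zero_lt_one.trans_le hq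
  have hr0 : ∀ e, 0 ≤ hom ρ e := fun e => hρ.le
  refine ⟨C, c, B * (C * C), hC, hc, by positivity, fun n hn => ?_⟩
  have hlim : Filter.Tendsto (fun N : ℕ => C * Real.exp (-(tau q ρ + c) * n) +
      B * ∑ s ∈ dia 0 ((n : ℤ), 0), ∑ t ∈ dia 0 ((n : ℤ), 0), if 0 < s.1 ∧ t.1 < n ∧ Y (t - s) then
        C * Real.exp (-(tau q ρ + c) * s.1) * V96 q ρ N s t *
          (C * Real.exp (-(tau q ρ + c) * ((n : ℝ) - t.1))) else 0) Filter.atTop
      (nhds (C * Real.exp (-(tau q ρ + c) * n) +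
      B * ∑ s ∈ dia 0 ((n : ℤ), 0), ∑ t ∈ dia 0 ((n : ℤ), 0), if 0 < s.1 ∧ t.1 < n ∧ Y (t - s) then
        C * Real.exp (-(tau q ρ + c) * s.1) * VI96 q ρ s t *
          (C * Real.exp (-(tau q ρ + c) * ((n : ℝ) - t.1))) else 0)) := by
    refine tendsto_const_nhds.add (Filter.Tendsto.const_mul _ ?_)
    refine tendsto_finsetSum _ fun s _ => tendsto_finsetSum _ fun t _ => ?_
    by_cases h : 0 < s.1 ∧ t.1 < n ∧ Y (t - s)
    · simp only [if_pos h]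
      exact ((tendstoV96 hq hρ s t).const_mul _).mul_const _
    · simp only [if_neg h]
      exact tendsto_const_nhds
  have hev : ∀ᶠ N : ℕ in Filter.atTop, G q (hom ρ) (Helper49.FK.box N) (0, 0) ((n : ℤ), 0) ≤
      C * Real.exp (-(tau q ρ + c) * n) +
      B * ∑ s ∈ dia 0 ((n : ℤ), 0), ∑ t ∈ dia 0 ((n : ℤ), 0), if 0 < s.1 ∧ t.1 < n ∧ Y (t - s) then
        C * Real.exp (-(tau q ρ + c) * s.1) * V96 q ρ N s t *
          (C * Real.exp (-(tau q ρ + c) * ((n : ℝ) - t.1))) else 0 := by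
    filter_upwards [Filter.eventually_ge_atTop (8 * n)] with N hNn
    have hsub := dia_sub96 hNn
    have hu : ((0, 0) : ℤ × ℤ) ∈ Helper49.FK.box N := by
      rw [mem_box96]
      simp
    have hw : (((n : ℤ), 0) : ℤ × ℤ) ∈ Helper49.FK.box N := by
      rw [mem_box96]
      simp only
      omega
    have hb : ∀ a b : ℤ × ℤ, a ∈ Helper49.FK.box N → b ∈ Helper49.FK.box N → a.1 < b.1 → nocp q (hom ρ) (Helper49.FK.box N) a b ≤
        C * Real.exp (-(tau q ρ + c) * ((b.1 : ℝ) - a.1)) := by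
      intro a b ha hb hab
      have hbr : Helper49.FK.box N = rect (-(N : ℤ)) N (-(N : ℤ)) N := rfl
      rw [hbr] at ha hb ⊢
      exact hN (hom ρ) (fun e => ⟨le_rfl, le_rfl⟩) (-(N : ℤ)) N (-(N : ℤ)) N a b ha hb hab
    have hnn : ∀ a b : ℤ × ℤ, 0 ≤ nocp q (hom ρ) (Helper49.FK.box N) a b := fun a b => nocp_nonneg h0 hr0 a b
    have h1 := hT (Helper49.FK.box N) (0, 0) ((n : ℤ), 0) hu hw (by simp only; omega)
    refine h1.trans (add_le_add ?_ (mul_le_mul_of_nonneg_left ?_ hB.le))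
    · have h2 := hb (0, 0) ((n : ℤ), 0) hu hw (by simp only; omega)
      simpa using h2
    · have hin : ∀ s t : ℤ × ℤ, (((0, 0) : ℤ × ℤ).1 < s.1 ∧ t.1 < (((n : ℤ), 0) : ℤ × ℤ).1 ∧
          Y (s - (0, 0)) ∧ Y (t - s) ∧ Y (((n : ℤ), 0) - t)) →
          s ∈ dia 0 ((n : ℤ), 0) ∧ t ∈ dia 0 ((n : ℤ), 0) := by
        rintro s t ⟨-, -, h3, h4, h5⟩
        exact ⟨mem_dia.2 ⟨h3, Y_trans h4 h5⟩, mem_dia.2 ⟨Y_trans h3 h4, h5⟩⟩
      rw [← Finset.sum_subset hsub (fun s _ hs => Finset.sum_eq_zero fun t _ =>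
        if_neg fun h => hs (hin s t h).1)]
      refine Finset.sum_le_sum fun s hs => ?_
      rw [← Finset.sum_subset hsub (fun t _ ht => if_neg fun h => ht (hin s t h).2)]
      refine Finset.sum_le_sum fun t ht => ?_
      have hs' := mem_dia.1 hs
      have ht' := mem_dia.1 ht
      by_cases h : 0 < s.1 ∧ t.1 < n ∧ Y (t - s)
      · have h' : ((0, 0) : ℤ × ℤ).1 < s.1 ∧ t.1 < (((n : ℤ), 0) : ℤ × ℤ).1 ∧
          Y (s - (0, 0)) ∧ Y (t - s) ∧ Y (((n : ℤ), 0) - t) := ⟨h.1, h.2.1, hs'.1, h.2.2, ht'.2⟩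
        rw [if_pos h, if_pos h']
        have b1 := hb (0, 0) s hu (hsub hs) h.1
        have b2 := hb t ((n : ℤ), 0) (hsub ht) hw h.2.1
        simp only [Int.cast_zero, sub_zero, Int.cast_natCast] at b1 b2
        refine mul_le_mul (mul_le_mul b1 le_rfl (V_nonneg96 hq hρ N s t) ?_) b2 (hnn _ _) ?_
        · exact (hnn _ _).trans b1
        · exact mul_nonneg ((hnn _ _).trans b1) (V_nonneg96 hq hρ N s t)
      · rw [if_neg h, if_neg (fun h' => h ⟨h'.1, h'.2.1, h'.2.2.2.1⟩)]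
  have hfin := le_of_tendsto_of_tendsto (tendsto_G hq hρ.le (0, 0) ((n : ℤ), 0)) hlim hev
  refine hfin.trans (add_le_add le_rfl ?_)
  rw [mul_assoc B]
  refine mul_le_mul_of_nonneg_left ?_ hB.le
  rw [Finset.mul_sum]
  refine Finset.sum_le_sum fun s _ => ?_
  rw [Finset.mul_sum]
  refine Finset.sum_le_sum fun t _ => ?_
  by_cases h : 0 < s.1 ∧ t.1 < n ∧ Y (t - s)
  · rw [if_pos h, if_pos h]
    have h1 := VI_le96 hq hρ s t
    have h2 : 0 ≤ C * C * (Real.exp (-(tau q ρ + c) * s.1) *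
        Real.exp (-(tau q ρ + c) * ((n : ℝ) - t.1))) := by positivity
    nlinarith [mul_le_mul_of_nonneg_left h1 h2]
  · rw [if_neg h, if_neg h, mul_zero]

end Pool.Helper95.OZ
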